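import Pool.Agent.H264R4.BA.Defs2

namespace Pool.Agent.H264R4.BA

open MeasureTheory Set Filter Topology
open scoped ENNReal BigOperators Real

noncomputable section

variable (D : OD)

/-- C1: heights -/
theorem h_pos (k : ℕ) : 0 < D.h k := by
  induction k with
  | zero => rw [D.h_zero]; exact Nat.one_pos
  | succ k ih =>
    have h2 := D.two_le k
    have hcard : 0 < Fintype.card (D.Th (k + 1)) := by
      rcases Nat.eq_zero_or_pos (Fintype.card (D.Th (k + 1))) with h0 | h0
      · exfalso
        have hM : 0 < D.M (k + 1) := lt_of_lt_of_le Nat.zero_lt_two (D.two_le (k + 1))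
        have : IsEmpty (D.Th (k + 1)) := Fintype.card_eq_zero_iff.1 h0
        exact this.elim (D.cl (k + 1) ⟨0, hM⟩)
      · exact h0
    obtain ⟨c⟩ : Nonempty (D.Th (k + 1)) := Fintype.card_pos_iff.1 hcard
    have h3 := D.pos_top k c ⟨0, by omega⟩
    omega

/-- C1: positions -/
theorem t_le (y : Bs D) (k K : ℕ) (hk : k ≤ K) : t D K y + D.h k ≤ t D k y + D.h K := by
  induction K, hk using Nat.le_induction with
  | base => exact le_rfl
  | succ K hK ih =>
    have h1 : t D (K + 1) y = t D K y + pp D K y := by
      unfold t; rw [Finset.sum_range_succ]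
    have h2 := D.pos_top K (D.cl (K + 1) (y (K + 1))) (y K)
    have h3 : pp D K y = D.pos K (D.cl (K + 1) (y (K + 1))) (y K) := rfl
    omega

/-- C1: `t k y = 0` exactly on the base of the tower of level `k` -/
theorem t_zero_iff (y : Bs D) (k : ℕ) : t D k y = 0 ↔ ∀ j < k, (y j : ℕ) = 0 := by
  have key : ∀ j, pp D j y = 0 ↔ (y j : ℕ) = 0 := by
    intro j
    constructor
    · intro h
      by_contra hne
      have hM : 0 < D.M j := lt_of_lt_of_le Nat.zero_lt_two (D.two_le j)
      have hlt : (⟨0, hM⟩ : Fin (D.M j)) < y j := by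
        rw [Fin.lt_def]
        exact Nat.pos_of_ne_zero hne
      have h1 := D.pos_gap j (D.cl (j + 1) (y (j + 1))) _ _ hlt
      have h2 := h_pos D j
      have h3 : pp D j y = D.pos j (D.cl (j + 1) (y (j + 1))) (y j) := rfl
      omega
    · intro h
      exact D.pos_zero j _ _ h
  unfold t
  rw [Finset.sum_eq_zero_iff]
  constructor
  · intro h j hj
    exact (key j).1 (h j (Finset.mem_range.2 hj))
  · intro h j hj
    exact (key j).2 (h j (Finset.mem_range.1 hj))

end

end Pool.Agent.H264R4.BA
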