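import Pool.Agent.H264R4.BA.Defs2

/-!
# Task O1: digits of `y + 1`
-/

namespace Pool.Agent.H264R4.BA

open MeasureTheory Set Filter Topology
open scoped ENNReal BigOperators Real

variable (D : OD)

theorem odo_digits (y : Bs D) (k : ℕ) (h1 : ∀ j < k, Last D y j) (h2 : ¬ Last D y k) :
    (∀ j < k, (odo D y j : ℕ) = 0) ∧ (odo D y k : ℕ) = (y k : ℕ) + 1 ∧
      ∀ l, k < l → odo D y l = y l := by
  classical
  refine ⟨fun j hj => ?_, ?_, fun l hl => ?_⟩
  · have hc : ∀ i < j, Last D y i := fun i hi => h1 i (hi.trans hj)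
    have hL := h1 j hj
    unfold Last at hL
    have hn : ¬ ((y j : ℕ) + 1 < D.M j) := by omega
    simp only [odo]
    rw [if_pos hc, dif_neg hn]
  · unfold Last at h2
    have hlt : (y k : ℕ) + 1 < D.M k := by
      have := (y k).isLt
      omega
    simp only [odo]
    rw [if_pos h1, dif_pos hlt]
  · have hc : ¬ ∀ i < l, Last D y i := fun h => h2 (h k hl)
    simp only [odo]
    rw [if_neg hc]

end Pool.Agent.H264R4.BA
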