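import Pool.Agent.H264R4.BA.Defs2
import Pool.Agent.H264R4.BF.F_C1
import Pool.Agent.H264R4.BF.F_O1

namespace Pool.Agent.H264R4.BA

open MeasureTheory Set Filter Topology
open scoped ENNReal BigOperators Real

variable (D : OD)

private theorem C2_t_succ (K : ℕ) (y : Bs D) : t D (K + 1) y = t D K y + pp D K y := by
  unfold t
  rw [Finset.sum_range_succ]

/-- C2 (uses O1, C1): the return time -/
theorem t_odo (y : Bs D) (k : ℕ) (h1 : ∀ j < k, Last D y j) (h2 : (y k : ℕ) + 1 < D.M k) :
    (∀ K, k < K → t D K (odo D y) = t D K y + roof D y) ∧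
    t D (k + 1) y + roof D y = D.pos k (D.cl (k + 1) (y (k + 1))) ⟨(y k : ℕ) + 1, h2⟩ ∧
    0 < roof D y := by
  have hnl : ¬ Last D y k := by
    unfold Last; omega
  obtain ⟨ha, hb, hc⟩ := _root_.Pool.Agent.H264R4.BA.odo_digits D y k h1 hnl
  have hex : ∃ k, ¬ Last D y k := ⟨k, hnl⟩
  set P := D.pos k (D.cl (k + 1) (y (k + 1))) ⟨(y k : ℕ) + 1, h2⟩ with hP
  have hpk : pp D k (odo D y) = P := by
    unfold pp
    rw [hc (k + 1) (Nat.lt_succ_self k)]
    have : odo D y k = ⟨(y k : ℕ) + 1, h2⟩ := Fin.ext hb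
    rw [this]
  have hpl : ∀ l, k < l → pp D l (odo D y) = pp D l y := by
    intro l hl
    unfold pp
    rw [hc (l + 1) (by omega), hc l hl]
  have htk : t D (k + 1) (odo D y) = P := by
    rw [C2_t_succ, hpk]
    have : t D k (odo D y) = 0 := by
      unfold t
      apply Finset.sum_eq_zero
      intro j hj
      unfold pp
      exact D.pos_zero j _ _ (ha j (Finset.mem_range.1 hj))
    rw [this, zero_add]
  have hlt : t D (k + 1) y < P := by
    have e1 := _root_.Pool.Agent.H264R4.BA.t_le D y 0 k (Nat.zero_le k)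
    have e2 : t D 0 y = 0 := by unfold t; simp
    rw [e2, D.h_zero, zero_add] at e1
    have e3 := D.pos_gap k (D.cl (k + 1) (y (k + 1))) (y k) ⟨(y k : ℕ) + 1, h2⟩ (by
      rw [Fin.lt_def]; simp)
    rw [← hP] at e3
    rw [C2_t_succ]
    have e4 : pp D k y = D.pos k (D.cl (k + 1) (y (k + 1))) (y k) := rfl
    omega
  have hroof : roof D y = P - t D (k + 1) y := by
    unfold roof
    rw [dif_pos hex]
    have hf : ∀ (inst : DecidablePred fun n => ¬ Last D y n), @Nat.find _ inst hex = k := by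
      intro inst
      rw [Nat.find_eq_iff]
      exact ⟨hnl, fun j hj => not_not.2 (h1 j hj)⟩
    rw [hf, htk]
  have hr2 : t D (k + 1) y + roof D y = P := by
    rw [hroof]; omega
  refine ⟨?_, hr2, by rw [hroof]; omega⟩
  intro K hK
  induction K, hK using Nat.le_induction with
  | base => rw [Nat.succ_eq_add_one, htk, hr2]
  | succ K hK ih =>
    rw [C2_t_succ, C2_t_succ, ih, hpl K (by omega)]
    omega

end Pool.Agent.H264R4.BA
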