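import Pool.Agent.H264R4.BA.Defs2
import Pool.Agent.H264R4.BF.F_C2

namespace Pool.Agent.H264R4.BA

open MeasureTheory Set Filter Topology
open scoped ENNReal BigOperators Real

noncomputable section

variable (D : OD)

/-- C3 (uses C2) -/
theorem roof_pos (y : Bs D) : 1 ≤ roof D y := by
  classical
  by_cases h : ∃ k, ¬ Last D y k
  · obtain ⟨k, hk1, hk2⟩ : ∃ k, ¬ Last D y k ∧ ∀ j < k, Last D y j :=
      ⟨Nat.find h, Nat.find_spec h, fun j hj => not_not.1 (Nat.find_min h hj)⟩
    have h3 : (y k : ℕ) + 1 < D.M k := by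
      have h4 := (y k).isLt
      unfold Last at hk1
      omega
    exact (_root_.Pool.Agent.H264R4.BA.t_odo D y k hk2 h3).2.2
  · unfold roof
    rw [dif_neg h]

end

end Pool.Agent.H264R4.BA
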