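import Pool.Agent.H264R4.BA.Defs2
import Pool.Agent.H264R4.BF.F_C1
import Pool.Agent.H264R4.BF.F_C2

namespace Pool.Agent.H264R4.BA

open MeasureTheory Set Filter Topology
open scoped ENNReal BigOperators Real

variable (D : OD)

/-- C4 (uses C1, C2): before the next block of level `K` -/
theorem t_next (y : Bs D) (K : ℕ) (h : (y K : ℕ) + 1 < D.M K) (j : ℕ) (hj : j < roof D y) :
    t D (K + 1) y + j < D.pos K (D.cl (K + 1) (y (K + 1))) ⟨(y K : ℕ) + 1, h⟩ := by
  classical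
  have hnl : ¬ Last D y K := by unfold Last; omega
  have hex : ∃ k, ¬ Last D y k := ⟨K, hnl⟩
  obtain ⟨k, hk1, hk2, hkK⟩ : ∃ k, (∀ j < k, Last D y j) ∧ ¬ Last D y k ∧ k ≤ K := by
    refine ⟨Nat.find hex, ?_, Nat.find_spec hex, Nat.find_min' hex hnl⟩
    intro j hj
    exact not_not.1 (Nat.find_min hex hj)
  have h2 : (y k : ℕ) + 1 < D.M k := by
    have := (y k).isLt
    unfold Last at hk2
    omega
  obtain ⟨_, e2, _⟩ := _root_.Pool.Agent.H264R4.BA.t_odo D y k hk1 h2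
  rcases hkK.eq_or_lt with hkK | hkK
  · subst hkK
    rw [← e2]
    omega
  · have e3 := D.pos_top k (D.cl (k + 1) (y (k + 1))) ⟨(y k : ℕ) + 1, h2⟩
    have e4 := _root_.Pool.Agent.H264R4.BA.h_pos D k
    have e5 := _root_.Pool.Agent.H264R4.BA.t_le D y (k + 1) K hkK
    have e6 := D.pos_gap K (D.cl (K + 1) (y (K + 1))) (y K) ⟨(y K : ℕ) + 1, h⟩ (by
      rw [Fin.lt_def]; simp)
    have e7 : t D (K + 1) y = t D K y + D.pos K (D.cl (K + 1) (y (K + 1))) (y K) := by
      unfold t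
      rw [Finset.sum_range_succ]
      rfl
    omega

end Pool.Agent.H264R4.BA
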