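import Pool.Agent.H264R4.BA.Defs2
import Pool.Agent.H264R4.BF.F_C1
import Pool.Agent.H264R4.BF.F_C2

namespace Pool.Agent.H264R4.BA

variable (D : OD)

/-- C5 (uses C1, C2): long return times -/
theorem roof_large (y : Bs D) (K : ℕ) (h1 : ∀ j < K, Last D y j) (h2 : ∃ k, ¬ Last D y k) :
    D.h K ≤ t D K y + roof D y := by
  classical
  obtain ⟨hk, hmin⟩ : ¬ Last D y (Nat.find h2) ∧ ∀ j < Nat.find h2, Last D y j :=
    ⟨Nat.find_spec h2, fun j hj => not_not.1 (Nat.find_min h2 hj)⟩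
  generalize Nat.find h2 = k at hk hmin
  have hKk : K ≤ k := by
    by_contra hlt
    exact hk (h1 k (not_le.1 hlt))
  have hlt : (y k : ℕ) + 1 < D.M k := by
    have h := (y k).2
    have h' : (y k : ℕ) + 1 ≠ D.M k := hk
    omega
  obtain ⟨-, h3, -⟩ := _root_.Pool.Agent.H264R4.BA.t_odo D y k hmin hlt
  have h4 := D.pos_gap k (D.cl (k + 1) (y (k + 1))) (y k) ⟨(y k : ℕ) + 1, hlt⟩
    (by rw [Fin.lt_def]; exact Nat.lt_succ_self _)
  have h5 := _root_.Pool.Agent.H264R4.BA.t_le D y K k hKk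
  have h6 : t D (k + 1) y = t D k y + D.pos k (D.cl (k + 1) (y (k + 1))) (y k) := by
    unfold t
    rw [Finset.sum_range_succ]
    rfl
  omega

end Pool.Agent.H264R4.BA
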