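import Pool.Agent.H264R4.BA.Defs2
import Pool.Agent.H264R4.BF.F_C4

/-! Banach part A, task C6 (helper539): the position in the tower determines the point. -/

namespace Pool.Agent.H264R4.BA

open MeasureTheory Set Filter Topology
open scoped ENNReal BigOperators Real

noncomputable section

variable (D : OD)

private theorem C6_succ (K : ℕ) (y : Bs D) :
    t D (K + 1) y = t D K y + D.pos K (D.cl (K + 1) (y (K + 1))) (y K) :=
  Finset.sum_range_succ _ _

private theorem C6_mono (K : ℕ) (c : D.Th (K + 1)) (i j : Fin (D.M K)) (h : i ≤ j) :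
    D.pos K c i ≤ D.pos K c j := by
  rcases lt_or_eq_of_le h with h | h
  · have := D.pos_gap K c i j h
    omega
  · rw [h]

private theorem C6_key (K : ℕ) (u v : Bs D) (a b : ℕ)
    (hc : D.cl (K + 1) (u (K + 1)) = D.cl (K + 1) (v (K + 1))) (ha : a < roof D u)
    (h : t D (K + 1) u + a = t D (K + 1) v + b) : ¬ u K < v K := by
  intro hlt
  have h1 : (u K : ℕ) + 1 < D.M K := lt_of_le_of_lt (Fin.lt_def.1 hlt) (v K).2
  have h2 := _root_.Pool.Agent.H264R4.BA.t_next D u K h1 a ha
  have h3 : (⟨(u K : ℕ) + 1, h1⟩ : Fin (D.M K)) ≤ v K := Fin.le_def.2 (Fin.lt_def.1 hlt)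
  have h4 := C6_mono D K (D.cl (K + 1) (u (K + 1))) _ _ h3
  have h5 := C6_succ D K v
  rw [← hc] at h5
  omega

/-- C6 (uses C4): the position in the tower of level `K` determines the point -/
theorem inj (K : ℕ) (y y' : Bs D) (hc : D.cl K (y K) = D.cl K (y' K)) (j j' : ℕ)
    (hj : j < roof D y) (hj' : j' < roof D y') (h : t D K y + j = t D K y' + j') :
    j = j' ∧ ∀ l < K, y l = y' l := by
  induction K with
  | zero =>
    simp only [t, Finset.range_zero, Finset.sum_empty, zero_add] at h
    exact ⟨h, fun l hl => absurd hl (Nat.not_lt_zero l)⟩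
  | succ K ih =>
    have k1 := C6_key D K y y' j j' hc hj h
    have k2 := C6_key D K y' y j' j hc.symm hj' h.symm
    have e : y K = y' K := le_antisymm (not_lt.1 k2) (not_lt.1 k1)
    have e1 := C6_succ D K y
    have e2 := C6_succ D K y'
    rw [← hc, ← e] at e2
    have h3 : t D K y + j = t D K y' + j' := by omega
    obtain ⟨r1, r2⟩ := ih (by rw [e]) h3
    refine ⟨r1, fun l hl => ?_⟩
    rcases Nat.lt_succ_iff_lt_or_eq.1 hl with hl | hl
    · exact r2 l hl
    · rw [hl]
      exact e

end

end Pool.Agent.H264R4.BA
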