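import Pool.Agent.H264R4.BA.Defs2
import Pool.Agent.H264R4.BF.F_C1
import Pool.Agent.H264R4.BF.F_C2

/-! C7: almost every point is in the towers of high level -/

namespace Pool.Agent.H264R4.BA

open MeasureTheory Set Filter Topology
open scoped ENNReal BigOperators Real

/-- C7 (uses C1, C2): almost every point is in the towers of high level -/
theorem cover (D : OD) (y : Bs D) (h2 : ∃ k, ¬ Last D y k) :
    ∃ K0, ∀ K, K0 ≤ K → ∀ j < roof D y, t D K y + j < D.h K := by
  classical
  have hk : ¬ Last D y (Nat.find h2) := Nat.find_spec h2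
  have hmin : ∀ j < Nat.find h2, Last D y j := by
    intro j hj
    by_contra hcon
    exact Nat.find_min h2 hj hcon
  have hlt : (y (Nat.find h2) : ℕ) + 1 < D.M (Nat.find h2) := by
    have h3 := (y (Nat.find h2)).isLt
    have h4 : ¬ ((y (Nat.find h2) : ℕ) + 1 = D.M (Nat.find h2)) := fun h => hk h
    exact lt_of_le_of_ne h3 h4
  obtain ⟨hA, -, -⟩ := _root_.Pool.Agent.H264R4.BA.t_odo D y (Nat.find h2) hmin hlt
  refine ⟨Nat.find h2 + 1, fun K hK j hj => ?_⟩
  have h5 := hA K (by omega)
  have h6 := _root_.Pool.Agent.H264R4.BA.t_le D (odo D y) 0 K (Nat.zero_le K)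
  have h7 : t D 0 (odo D y) = 0 := by simp [t]
  have h8 := D.h_zero
  omega

end Pool.Agent.H264R4.BA
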