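import Pool.Agent.H264R4.BA.Defs2
import Pool.Agent.H264R4.BF.F_C4

namespace Pool.Agent.H264R4.BA

open MeasureTheory Set Filter Topology
open scoped ENNReal BigOperators Real

variable (D : OD)

/-- C8 (uses C4): levels split -/
theorem split (k : ℕ) (c : D.Th k) (n : ℕ) (hn : n < D.h k) (y : Bs D) (j : ℕ)
    (hj : j < roof D y) :
    (D.cl k (y k) = c ∧ t D k y + j = n) ↔
      ∃ i : Fin (D.M k), D.cl k i = c ∧
        t D (k + 1) y + j = D.pos k (D.cl (k + 1) (y (k + 1))) i + n := by
  have e7 : t D (k + 1) y = t D k y + D.pos k (D.cl (k + 1) (y (k + 1))) (y k) := by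
    unfold t
    rw [Finset.sum_range_succ]
    rfl
  constructor
  · rintro ⟨hc, ht⟩
    exact ⟨y k, hc, by omega⟩
  · rintro ⟨i, hc, hi⟩
    rcases lt_trichotomy i (y k) with hlt | heq | hgt
    · have e1 := D.pos_gap k (D.cl (k + 1) (y (k + 1))) i (y k) hlt
      omega
    · subst heq
      exact ⟨hc, by omega⟩
    · exfalso
      have hgt' : (y k : ℕ) < (i : ℕ) := hgt
      have h : (y k : ℕ) + 1 < D.M k := by
        have := i.isLt
        omega
      have e1 := _root_.Pool.Agent.H264R4.BA.t_next D y k h j hj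
      rcases Nat.lt_or_ge ((y k : ℕ) + 1) (i : ℕ) with h3 | h3
      · have e2 := D.pos_gap k (D.cl (k + 1) (y (k + 1))) ⟨(y k : ℕ) + 1, h⟩ i (by
          rw [Fin.lt_def]; exact h3)
        omega
      · have e3 : i = ⟨(y k : ℕ) + 1, h⟩ := Fin.ext (by simp; omega)
        rw [← e3] at e1
        omega

end Pool.Agent.H264R4.BA
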