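import Pool.Agent.H264R4.BA.Defs2

/-! Task O2: the odometer is a Borel automorphism. -/

namespace Pool.Agent.H264R4.BA

open MeasureTheory Set Filter Topology
open scoped ENNReal BigOperators Real

noncomputable section

variable (D : OD)

open Classical in
/-- subtraction of one -/
private def o2_inv (y : Bs D) : Bs D := fun k =>
  if ∀ j < k, (y j : ℕ) = 0 then
    (if (y k : ℕ) = 0 then ⟨D.M k - 1, by have := D.two_le k; omega⟩
      else ⟨(y k : ℕ) - 1, by have := (y k).2; omega⟩)
  else y k

private theorem o2_odo_all (y : Bs D) (k : ℕ) (h : ∀ j < k, Last D y j) :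
    odo D y k = if h : (y k : ℕ) + 1 < D.M k then ⟨(y k : ℕ) + 1, h⟩
      else ⟨0, lt_of_lt_of_le Nat.zero_lt_two (D.two_le k)⟩ := by
  unfold odo
  rw [if_pos h]

private theorem o2_odo_not (y : Bs D) (k : ℕ) (h : ¬ ∀ j < k, Last D y j) :
    odo D y k = y k := by
  unfold odo
  rw [if_neg h]

private theorem o2_inv_all (y : Bs D) (k : ℕ) (h : ∀ j < k, (y j : ℕ) = 0) :
    o2_inv D y k = if (y k : ℕ) = 0 then ⟨D.M k - 1, by have := D.two_le k; omega⟩
      else ⟨(y k : ℕ) - 1, by have := (y k).2; omega⟩ := by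
  unfold o2_inv
  rw [if_pos h]

private theorem o2_inv_not (y : Bs D) (k : ℕ) (h : ¬ ∀ j < k, (y j : ℕ) = 0) :
    o2_inv D y k = y k := by
  unfold o2_inv
  rw [if_neg h]

/-- a least counterexample -/
private theorem o2_least (P : ℕ → Prop) (k : ℕ) (h : ¬ ∀ j < k, P j) :
    ∃ j < k, ¬ P j ∧ ∀ i < j, P i := by
  classical
  push Not at h
  have h2 : ∃ j, ¬ P j := by
    obtain ⟨j, _, hj⟩ := h
    exact ⟨j, hj⟩
  refine ⟨Nat.find h2, ?_, Nat.find_spec h2, ?_⟩
  · obtain ⟨j, hjk, hj⟩ := h
    exact lt_of_le_of_lt (Nat.find_min' h2 hj) hjk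
  · intro i hi
    by_contra hc
    exact Nat.find_min h2 hi hc

private theorem o2_left (y : Bs D) : o2_inv D (odo D y) = y := by
  funext k
  by_cases h : ∀ j < k, Last D y j
  · have h1 : ∀ j < k, (odo D y j : ℕ) = 0 := by
      intro j hj
      rw [o2_odo_all D y j (fun i hi => h i (lt_trans hi hj))]
      have hl : (y j : ℕ) + 1 = D.M j := h j hj
      rw [dif_neg (by omega)]
    rw [o2_inv_all D _ k h1]
    have e := o2_odo_all D y k h
    by_cases hk : (y k : ℕ) + 1 < D.M k
    · rw [dif_pos hk] at e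
      have e2 : (odo D y k : ℕ) = (y k : ℕ) + 1 := by rw [e]
      rw [if_neg (by omega)]
      apply Fin.ext
      show (odo D y k : ℕ) - 1 = (y k : ℕ)
      omega
    · rw [dif_neg hk] at e
      have e2 : (odo D y k : ℕ) = 0 := by rw [e]
      rw [if_pos e2]
      apply Fin.ext
      show D.M k - 1 = (y k : ℕ)
      have := (y k).2
      omega
  · obtain ⟨j, hjk, hj, hi⟩ := o2_least (fun j => Last D y j) k h
    have h1 : ¬ ∀ j < k, (odo D y j : ℕ) = 0 := by
      intro hc
      have e := o2_odo_all D y j hi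
      have hl : ¬ ((y j : ℕ) + 1 = D.M j) := hj
      have hlt := (y j).2
      rw [dif_pos (by omega)] at e
      have e2 : (odo D y j : ℕ) = (y j : ℕ) + 1 := by rw [e]
      have := hc j hjk
      omega
    rw [o2_inv_not D _ k h1, o2_odo_not D y k h]

private theorem o2_right (y : Bs D) : odo D (o2_inv D y) = y := by
  funext k
  by_cases h : ∀ j < k, (y j : ℕ) = 0
  · have h1 : ∀ j < k, Last D (o2_inv D y) j := by
      intro j hj
      have e := o2_inv_all D y j (fun i hi => h i (lt_trans hi hj))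
      rw [if_pos (h j hj)] at e
      have e2 : (o2_inv D y j : ℕ) = D.M j - 1 := by rw [e]
      have := D.two_le j
      show (o2_inv D y j : ℕ) + 1 = D.M j
      omega
    rw [o2_odo_all D _ k h1]
    have e := o2_inv_all D y k h
    have hlt := (y k).2
    have h2 := D.two_le k
    by_cases hk : (y k : ℕ) = 0
    · rw [if_pos hk] at e
      have e2 : (o2_inv D y k : ℕ) = D.M k - 1 := by rw [e]
      rw [dif_neg (by omega)]
      apply Fin.ext
      show 0 = (y k : ℕ)
      omega
    · rw [if_neg hk] at e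
      have e2 : (o2_inv D y k : ℕ) = (y k : ℕ) - 1 := by rw [e]
      rw [dif_pos (by omega)]
      apply Fin.ext
      show (o2_inv D y k : ℕ) + 1 = (y k : ℕ)
      omega
  · obtain ⟨j, hjk, hj, hi⟩ := o2_least (fun j => (y j : ℕ) = 0) k h
    have h1 : ¬ ∀ j < k, Last D (o2_inv D y) j := by
      intro hc
      have e := o2_inv_all D y j hi
      rw [if_neg hj] at e
      have e2 : (o2_inv D y j : ℕ) = (y j : ℕ) - 1 := by rw [e]
      have h3 : (o2_inv D y j : ℕ) + 1 = D.M j := hc j hjk
      have hlt := (y j).2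
      omega
    rw [o2_odo_not D _ k h1, o2_inv_not D y k h]

private theorem o2_meas_forall (k : ℕ) (P : ∀ j, Fin (D.M j) → Prop) :
    MeasurableSet {y : Bs D | ∀ j < k, P j (y j)} := by
  have e : {y : Bs D | ∀ j < k, P j (y j)} = ⋂ j ∈ Finset.range k, (fun y : Bs D => y j) ⁻¹' {a | P j a} := by
    ext y
    simp
  rw [e]
  refine Finset.measurableSet_biInter _ fun j _ => ?_
  exact measurable_pi_apply j (MeasurableSet.of_discrete)

private theorem o2_meas : Measurable (odo D) := by
  rw [measurable_pi_iff]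
  intro k
  have hS : MeasurableSet {y : Bs D | ∀ j < k, Last D y j} :=
    o2_meas_forall D k (fun j a => (a : ℕ) + 1 = D.M j)
  have hf : Measurable (fun y : Bs D => (if h : (y k : ℕ) + 1 < D.M k then
      (⟨(y k : ℕ) + 1, h⟩ : Fin (D.M k))
      else ⟨0, lt_of_lt_of_le Nat.zero_lt_two (D.two_le k)⟩)) :=
    (Measurable.of_discrete (f := fun a : Fin (D.M k) => (if h : (a : ℕ) + 1 < D.M k then
      (⟨(a : ℕ) + 1, h⟩ : Fin (D.M k))
      else ⟨0, lt_of_lt_of_le Nat.zero_lt_two (D.two_le k)⟩))).comp (measurable_pi_apply k)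
  exact Measurable.ite hS hf (measurable_pi_apply k)

private theorem o2_meas_inv : Measurable (o2_inv D) := by
  rw [measurable_pi_iff]
  intro k
  have hS : MeasurableSet {y : Bs D | ∀ j < k, (y j : ℕ) = 0} :=
    o2_meas_forall D k (fun j a => (a : ℕ) = 0)
  have hf : Measurable (fun y : Bs D => (if (y k : ℕ) = 0 then
      (⟨D.M k - 1, by have := D.two_le k; omega⟩ : Fin (D.M k))
      else ⟨(y k : ℕ) - 1, by have := (y k).2; omega⟩)) :=
    (Measurable.of_discrete (f := fun a : Fin (D.M k) => (if (a : ℕ) = 0 then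
      (⟨D.M k - 1, by have := D.two_le k; omega⟩ : Fin (D.M k))
      else ⟨(a : ℕ) - 1, by have := a.2; omega⟩))).comp (measurable_pi_apply k)
  exact Measurable.ite hS hf (measurable_pi_apply k)

/-- O2: the odometer is a Borel automorphism -/
theorem odo_equiv : ∃ S : Bs D ≃ᵐ Bs D, ∀ y, S y = odo D y :=
  ⟨{ toFun := odo D
     invFun := o2_inv D
     left_inv := o2_left D
     right_inv := o2_right D
     measurable_toFun := o2_meas D
     measurable_invFun := o2_meas_inv D }, fun _ => rfl⟩

end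

end Pool.Agent.H264R4.BA
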