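import Pool.Agent.H264R4.BA.Defs2
import Pool.Agent.H264R4.BF.F_O2

/-! Banach part A, task C9 (helper539): measurability of the return time. -/

namespace Pool.Agent.H264R4.BA

open MeasureTheory Set Filter Topology
open scoped ENNReal BigOperators Real

noncomputable section

variable (D : OD)

/-- a set defined by one digit is measurable -/
theorem C9_digit (k : ℕ) (s : Set (Fin (D.M k))) : MeasurableSet {y : Bs D | y k ∈ s} :=
  (measurable_pi_apply k) (MeasurableSet.of_discrete (s := s))

theorem C9_last (k : ℕ) : MeasurableSet {y : Bs D | Last D y k} :=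
  C9_digit D k {i | (i : ℕ) + 1 = D.M k}

theorem C9_pp (k : ℕ) : Measurable (pp D k) := by
  have h1 : Measurable (fun q : Fin (D.M (k + 1)) × Fin (D.M k) =>
      D.pos k (D.cl (k + 1) q.1) q.2) := Measurable.of_discrete
  have h2 : Measurable (fun y : Bs D => (y (k + 1), y k)) :=
    (measurable_pi_apply (k + 1)).prodMk (measurable_pi_apply k)
  exact h1.comp h2

theorem C9_t (K : ℕ) : Measurable (t D K) := by
  unfold t
  exact Finset.measurable_sum _ fun j _ => C9_pp D j

theorem C9_odo : Measurable (odo D) := by
  obtain ⟨S, hS⟩ := _root_.Pool.Agent.H264R4.BA.odo_equiv D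
  have : odo D = S := funext fun y => (hS y).symm
  rw [this]
  exact S.measurable

/-- C9: measurability -/
theorem measurable_roof : Measurable (roof D) := by
  classical
  refine measurable_to_countable' fun m => ?_
  have hset : roof D ⁻¹' {m} =
      (⋃ k : ℕ, ((⋂ j : ℕ, ⋂ _ : j < k, {y : Bs D | Last D y j}) ∩ {y : Bs D | Last D y k}ᶜ) ∩
        {y : Bs D | t D (k + 1) (odo D y) - t D (k + 1) y = m}) ∪
      ((⋂ k : ℕ, {y : Bs D | Last D y k}) ∩ {_y : Bs D | m = 1}) := by
    ext y
    simp only [mem_preimage, mem_singleton_iff, mem_union, mem_iUnion, mem_inter_iff, mem_iInter,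
      mem_ofPred_eq, mem_compl_iff]
    by_cases h : ∃ k, ¬ Last D y k
    · have hr : roof D y = t D (Nat.find h + 1) (odo D y) - t D (Nat.find h + 1) y := by
        unfold roof
        rw [dif_pos h]
      rw [hr]
      constructor
      · intro hm
        refine Or.inl ⟨Nat.find h, ⟨fun j hj => ?_, Nat.find_spec h⟩, hm⟩
        exact not_not.1 (Nat.find_min h hj)
      · rintro (⟨k, ⟨h1, h2⟩, h3⟩ | ⟨h1, _⟩)
        · have hk : Nat.find h = k := by
            rw [Nat.find_eq_iff]
            exact ⟨h2, fun j hj => not_not.2 (h1 j hj)⟩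
          rw [hk]
          exact h3
        · obtain ⟨k, hk⟩ := h
          exact absurd (h1 k) hk
    · have hr : roof D y = 1 := by
        unfold roof
        rw [dif_neg h]
      rw [hr]
      constructor
      · intro hm
        refine Or.inr ⟨fun k => ?_, hm.symm⟩
        by_contra hk
        exact h ⟨k, hk⟩
      · rintro (⟨k, ⟨_, h2⟩, _⟩ | ⟨_, h2⟩)
        · exact absurd ⟨k, h2⟩ h
        · exact h2.symm
  rw [hset]
  refine MeasurableSet.union (MeasurableSet.iUnion fun k => MeasurableSet.inter
    (MeasurableSet.inter (MeasurableSet.iInter fun j => MeasurableSet.iInter fun _ =>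
      C9_last D j) (C9_last D k).compl) ?_) (MeasurableSet.inter
        (MeasurableSet.iInter fun j => C9_last D j) (MeasurableSet.const _))
  have h1 : Measurable fun y : Bs D => t D (k + 1) (odo D y) - t D (k + 1) y :=
    (Measurable.of_discrete (f := fun q : ℕ × ℕ => q.1 - q.2)).comp
      (((C9_t D (k + 1)).comp (C9_odo D)).prodMk (C9_t D (k + 1)))
  exact h1 (measurableSet_singleton m)

end

end Pool.Agent.H264R4.BA
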