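import Pool.Agent.H264R4.BA.Defs2

/-!
# P1: sets of levels stay inside the columns
-/

namespace Pool.Agent.H264R4.BA

open MeasureTheory Set Filter Topology Pool.Agent.H264R4.BA Pool.Agent.H728R2.BL
open scoped ENNReal BigOperators Real

noncomputable section

/-- P1: sets of levels stay inside the columns -/
theorem pushS_lt {L L' : Lev} (σ : DStep L L') (A : L.Θ → Finset ℕ)
    (hA : ∀ c, ∀ a ∈ A c, a < L.h) (c' : L'.Θ) : ∀ a ∈ σ.pushS A c', a < L'.h := by
  intro a ha
  unfold DStep.pushS at ha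
  rw [Finset.mem_biUnion] at ha
  obtain ⟨i, _, hi⟩ := ha
  rw [Finset.mem_image] at hi
  obtain ⟨b, hb, rfl⟩ := hi
  have h1 := hA (σ.cl i) b hb
  have h2 := σ.top c' i
  omega

theorem fset_lt (L : ℕ → Lev) (σ : ∀ k, DStep (L k) (L (k + 1))) (G : Good L σ) (k : ℕ)
    (c : (L k).Θ) : ∀ a ∈ Fset L σ k c, a < (L k).h := by
  induction k with
  | zero =>
    intro a ha
    have h1 : a = 0 := Finset.mem_singleton.mp ha
    rw [h1, G.h0]
    exact Nat.one_pos
  | succ k ih => exact pushS_lt (σ k) (Fset L σ k) ih c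

end

end Pool.Agent.H264R4.BA
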