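import Pool.Agent.H264R4.BA.Defs2

/-!
# Task P2: sums over `pushS`
-/

namespace Pool.Agent.H264R4.BA

open MeasureTheory Set Filter Topology Pool.Agent.H264R4.BA Pool.Agent.H728R2.BL
open scoped ENNReal BigOperators Real

noncomputable section

private theorem P2_e_add (s t : ℝ) : e (s + t) = e s * e t := by
  unfold e
  rw [← Complex.exp_add]
  congr 1
  push_cast
  ring

/-- P2: sums over `pushS` (the pieces are disjoint) -/
theorem sum_pushS {L L' : Lev} (σ : DStep L L') (A : L.Θ → Finset ℕ)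
    (hA : ∀ c, ∀ a ∈ A c, a < L.h) (c' : L'.Θ) {E : Type*} [AddCommMonoid E] (φ : ℕ → E) :
    ∑ n ∈ σ.pushS A c', φ n = ∑ i, ∑ a ∈ A (σ.cl i), φ (σ.pos c' i + a) := by
  classical
  have hlt : ∀ i j : Fin σ.M, i < j → ∀ a ∈ A (σ.cl i), ∀ b ∈ A (σ.cl j),
      σ.pos c' i + a ≠ σ.pos c' j + b := by
    intro i j hij a ha b _ h
    have h1 := σ.sep c' i j hij
    have h2 := hA _ a ha
    omega
  unfold DStep.pushS
  rw [Finset.sum_biUnion]
  · refine Finset.sum_congr rfl fun i _ => ?_
    rw [Finset.sum_image]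
    intro a _ b _ h
    exact Nat.add_left_cancel h
  · intro i _ j _ hij
    rw [Function.onFun, Finset.disjoint_left]
    intro x hx hx'
    rw [Finset.mem_image] at hx hx'
    obtain ⟨a, ha, hax⟩ := hx
    obtain ⟨b, hb, hbx⟩ := hx'
    rcases lt_or_gt_of_ne hij with h | h
    · exact hlt i j h a ha b hb (hax.trans hbx.symm)
    · exact hlt j i h b hb a ha (hbx.trans hax.symm)

theorem pol_pushS {L L' : Lev} (σ : DStep L L') (A : L.Θ → Finset ℕ)
    (hA : ∀ c, ∀ a ∈ A c, a < L.h) (c' : L'.Θ) (x : ℝ) :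
    pol (σ.pushS A c') x = σ.push (fun d => pol (A d)) c' x := by
  unfold pol DStep.push
  rw [sum_pushS σ A hA c' (fun a => e (a * x))]
  refine Finset.sum_congr rfl fun i _ => ?_
  rw [Finset.mul_sum]
  refine Finset.sum_congr rfl fun a _ => ?_
  rw [← P2_e_add]
  congr 1
  push_cast
  ring

theorem pol_push_sgl {L L' : Lev} (σ : DStep L L') (c : L.Θ) (c' : L'.Θ) (x : ℝ) :
    pol (σ.pushS (sgl c) c') x = σ.push (fun d _ => if d = c then 1 else 0) c' x := by
  have hA : ∀ d, ∀ a ∈ sgl c d, a < L.h := by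
    intro d a ha
    unfold sgl at ha
    split_ifs at ha with h
    · rw [Finset.mem_singleton.1 ha]
      exact L.hpos
    · exact absurd ha (Finset.notMem_empty a)
  rw [pol_pushS σ (sgl c) hA c' x]
  unfold DStep.push
  refine Finset.sum_congr rfl fun i _ => ?_
  congr 1
  unfold sgl pol
  simp only
  split_ifs with h
  · rw [Finset.sum_singleton]
    unfold e
    simp
  · simp

end

end Pool.Agent.H264R4.BA
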