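import Pool.Agent.H264R4.BA.Defs2
import Pool.Agent.H264R4.BF.F_P1
import Pool.Agent.H264R4.BF.F_P2

/-!
# Task H1: passage to the next level (helper9)
-/

set_option autoImplicit false

namespace Pool.Agent.H264R4.BA

open MeasureTheory Set Filter Topology Pool.Agent.H264R4.BA Pool.Agent.H728R2.BL
open scoped ENNReal BigOperators Real

noncomputable section

section Hilbert

variable {H : Type*} [NormedAddCommGroup H] [InnerProductSpace ℂ H] [CompleteSpace H]
variable {L : ℕ → Lev} {σ : ∀ k, DStep (L k) (L (k + 1))} {U : H ≃ₗᵢ[ℂ] H}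
  {v : (k : ℕ) → (L k).Θ → H} {one : H}

/-- H1 (uses P2): passage to the next level -/
theorem VS_push (hd : HD L σ U v one) (k : ℕ) (A : (L k).Θ → Finset ℕ)
    (hA : ∀ c, ∀ a ∈ A c, a < (L k).h) :
    VS U (v k) A = VS U (v (k + 1)) ((σ k).pushS A) := by
  have h1 : VS U (v k) A = ∑ c, ∑ n ∈ A c, ∑ c' : (L (k + 1)).Θ,
      ∑ i ∈ Finset.univ.filter (fun i => (σ k).cl i = c),
        (U ^ (((σ k).pos c' i + n : ℕ) : ℤ)) (v (k + 1) c') := by
    unfold VS
    refine Finset.sum_congr rfl fun c _ => Finset.sum_congr rfl fun n _ => ?_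
    rw [hd.refine k c, map_sum]
    refine Finset.sum_congr rfl fun c' _ => ?_
    rw [map_sum]
    refine Finset.sum_congr rfl fun i _ => ?_
    rw [← Pool.Agent.H750F.mul_ap, ← zpow_add]
    congr 2
    push_cast
    ring
  have h2 : ∀ c, (∑ n ∈ A c, ∑ c' : (L (k + 1)).Θ,
      ∑ i ∈ Finset.univ.filter (fun i => (σ k).cl i = c),
        (U ^ (((σ k).pos c' i + n : ℕ) : ℤ)) (v (k + 1) c')) =
      ∑ c' : (L (k + 1)).Θ, ∑ i ∈ Finset.univ.filter (fun i => (σ k).cl i = c),
        ∑ n ∈ A ((σ k).cl i), (U ^ (((σ k).pos c' i + n : ℕ) : ℤ)) (v (k + 1) c') := by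
    intro c
    rw [Finset.sum_comm]
    refine Finset.sum_congr rfl fun c' _ => ?_
    rw [Finset.sum_comm]
    refine Finset.sum_congr rfl fun i hi => ?_
    rw [(Finset.mem_filter.1 hi).2]
  rw [h1, Finset.sum_congr rfl fun c _ => h2 c, Finset.sum_comm]
  unfold VS
  refine Finset.sum_congr rfl fun c' _ => ?_
  rw [_root_.Pool.Agent.H264R4.BA.sum_pushS (σ k) A hA c' (fun n => (U ^ (n : ℤ)) (v (k + 1) c'))]
  exact Finset.sum_fiberwise Finset.univ (σ k).cl (fun i => ∑ n ∈ A ((σ k).cl i),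
    (U ^ (((σ k).pos c' i + n : ℕ) : ℤ)) (v (k + 1) c'))

theorem VS_sgl (k : ℕ) (c : (L k).Θ) : VS U (v k) (sgl c) = v k c := by
  unfold VS sgl
  rw [Finset.sum_eq_single c]
  · simp
  · intro d _ hd
    rw [if_neg hd, Finset.sum_empty]
  · intro h
    exact absurd (Finset.mem_univ c) h

theorem VS_fset (G : Good L σ) (hd : HD L σ U v one) (k : ℕ) (c0 : (L 0).Θ) :
    VS U (v k) (Fset L σ k) = v 0 c0 := by
  induction k with
  | zero =>
    obtain ⟨x, hx⟩ := Fintype.card_eq_one_iff.1 G.card0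
    unfold VS Fset
    rw [Finset.sum_eq_single c0]
    · simp
    · intro d _ hne
      exact absurd ((hx d).trans (hx c0).symm) hne
    · intro h
      exact absurd (Finset.mem_univ c0) h
  | succ k ih =>
    rw [← ih, VS_push hd k (Fset L σ k) (fun c => _root_.Pool.Agent.H264R4.BA.fset_lt L σ G k c)]
    rfl

end Hilbert

end

end Pool.Agent.H264R4.BA
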