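import Pool.Agent.H264R4.BA.Defs2

/-!
# H2: correlations for integer times
-/

namespace Pool.Agent.H264R4.BA

open MeasureTheory Set Filter Topology Pool.Agent.H728R2.BL
open scoped ENNReal BigOperators Real

noncomputable section

section Hilbert

variable {H : Type*} [NormedAddCommGroup H] [InnerProductSpace ℂ H] [CompleteSpace H]
variable {L : ℕ → Lev} {σ : ∀ k, DStep (L k) (L (k + 1))} {U : H ≃ₗᵢ[ℂ] H}
  {v : (k : ℕ) → (L k).Θ → H} {one : H}

private theorem h2_card (A B : Finset ℕ) (m : ℕ) :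
    ((A ×ˢ B).filter (fun q => (q.1 : ℤ) + (m : ℤ) = (q.2 : ℤ))).card
      = (A.filter (fun a => a + m ∈ B)).card := by
  symm
  refine Finset.card_bij (fun a _ => (a, a + m)) ?_ ?_ ?_
  · intro a ha
    rw [Finset.mem_filter] at ha
    rw [Finset.mem_filter, Finset.mem_product]
    exact ⟨⟨ha.1, ha.2⟩, by push_cast; ring⟩
  · intro a _ b _ hab
    exact congrArg Prod.fst hab
  · rintro ⟨a, b⟩ hab
    rw [Finset.mem_filter, Finset.mem_product] at hab
    obtain ⟨⟨ha, hb⟩, hm⟩ := hab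
    have hb' : b = a + m := by
      simp only at hm
      omega
    refine ⟨a, ?_, ?_⟩
    · rw [Finset.mem_filter]
      refine ⟨ha, ?_⟩
      rw [← hb']
      exact hb
    · rw [hb']

private theorem h2_nat (hd : HD L σ U v one) (k : ℕ) (A B : (L k).Θ → Finset ℕ)
    (hA : ∀ c, ∀ a ∈ A c, a < (L k).h) (hB : ∀ c, ∀ b ∈ B c, b < (L k).h) (m : ℕ) :
    ‖inner ℂ ((U ^ (m : ℤ)) (VS U (v k) A)) (VS U (v k) B)
      - (L k).β * (∑ c, (((A c) ×ˢ (B c)).filter
          (fun q => (q.1 : ℤ) + (m : ℤ) = (q.2 : ℤ))).card : ℕ)‖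
      ≤ (m : ℝ) / ((L k).h : ℝ) := by
  obtain ⟨δ, h0, h1, h2⟩ := hd.corr k A B hA hB m
  have h3 : (∑ c, (((A c) ×ˢ (B c)).filter
          (fun q => (q.1 : ℤ) + (m : ℤ) = (q.2 : ℤ))).card)
      = ∑ c, ((A c).filter (fun a => a + m ∈ B c)).card :=
    Finset.sum_congr rfl fun c _ => h2_card (A c) (B c) m
  rw [h2, h3]
  have h4 : (((L k).β * (∑ c, ((A c).filter (fun a => a + m ∈ B c)).card : ℕ) + δ : ℝ) : ℂ)
      - ((L k).β : ℂ) * ((∑ c, ((A c).filter (fun a => a + m ∈ B c)).card : ℕ) : ℂ)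
      = ((δ : ℝ) : ℂ) := by
    push_cast
    ring
  rw [h4, Complex.norm_real, Real.norm_eq_abs, abs_of_nonneg h0]
  exact h1

private theorem h2_shift (hd : HD L σ U v one) (k : ℕ) (A B : (L k).Θ → Finset ℕ)
    (hA : ∀ c, ∀ a ∈ A c, a < (L k).h) (hB : ∀ c, ∀ b ∈ B c, b < (L k).h) (n n' : ℤ)
    (hn : n' ≤ n) :
    ‖inner ℂ ((U ^ n) (VS U (v k) A)) ((U ^ n') (VS U (v k) B))
      - (L k).β * (∑ c, (((A c) ×ˢ (B c)).filter
          (fun q => (q.1 : ℤ) + n = (q.2 : ℤ) + n')).card : ℕ)‖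
      ≤ |((n - n' : ℤ) : ℝ)| / ((L k).h : ℝ) := by
  obtain ⟨m, hm⟩ := Int.eq_ofNat_of_zero_le (sub_nonneg.2 hn)
  have h1 := h2_nat hd k A B hA hB m
  have h2 : (∑ c, (((A c) ×ˢ (B c)).filter
          (fun q => (q.1 : ℤ) + n = (q.2 : ℤ) + n')).card)
      = ∑ c, (((A c) ×ˢ (B c)).filter
          (fun q => (q.1 : ℤ) + (m : ℤ) = (q.2 : ℤ))).card := by
    refine Finset.sum_congr rfl fun c _ => ?_
    congr 1
    refine Finset.filter_congr fun q _ => ?_
    constructor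
    · intro h; omega
    · intro h; omega
  rw [Pool.Agent.H750F.inner_zpow, hm, h2]
  have h3 : |(((m : ℕ) : ℤ) : ℝ)| = (m : ℝ) := by
    rw [Int.cast_natCast, abs_of_nonneg (Nat.cast_nonneg m)]
  rw [h3]
  exact h1

/-- H2: correlations for integer times -/
theorem corr_int (hd : HD L σ U v one) (k : ℕ) (A B : (L k).Θ → Finset ℕ)
    (hA : ∀ c, ∀ a ∈ A c, a < (L k).h) (hB : ∀ c, ∀ b ∈ B c, b < (L k).h) (n n' : ℤ) :
    ‖inner ℂ ((U ^ n) (VS U (v k) A)) ((U ^ n') (VS U (v k) B))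
      - (L k).β * (∑ c, (((A c) ×ˢ (B c)).filter
          (fun q => (q.1 : ℤ) + n = (q.2 : ℤ) + n')).card : ℕ)‖
      ≤ |((n - n' : ℤ) : ℝ)| / ((L k).h : ℝ) := by
  rcases le_total n' n with hn | hn
  · exact h2_shift hd k A B hA hB n n' hn
  · have h1 := h2_shift hd k B A hB hA n' n hn
    have h2 : (∑ c, (((B c) ×ˢ (A c)).filter
          (fun q => (q.1 : ℤ) + n' = (q.2 : ℤ) + n)).card)
        = ∑ c, (((A c) ×ˢ (B c)).filter
          (fun q => (q.1 : ℤ) + n = (q.2 : ℤ) + n')).card := by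
      refine Finset.sum_congr rfl fun c _ => ?_
      refine Finset.card_bij (fun q _ => (q.2, q.1)) ?_ ?_ ?_
      · intro q hq
        rw [Finset.mem_filter, Finset.mem_product] at hq ⊢
        exact ⟨⟨hq.1.2, hq.1.1⟩, hq.2.symm⟩
      · intro q _ q' _ h
        have ha := congrArg Prod.fst h
        have hb := congrArg Prod.snd h
        exact Prod.ext hb ha
      · intro q hq
        rw [Finset.mem_filter, Finset.mem_product] at hq
        refine ⟨(q.2, q.1), ?_, rfl⟩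
        rw [Finset.mem_filter, Finset.mem_product]
        exact ⟨⟨hq.1.2, hq.1.1⟩, hq.2.symm⟩
    rw [h2] at h1
    have h3 : |((n - n' : ℤ) : ℝ)| = |((n' - n : ℤ) : ℝ)| := by
      rw [Int.cast_sub, Int.cast_sub, abs_sub_comm]
    rw [h3]
    refine le_trans (le_of_eq ?_) h1
    rw [← inner_conj_symm]
    have h4 : (starRingEnd ℂ) (inner ℂ ((U ^ n') (VS U (v k) B)) ((U ^ n) (VS U (v k) A)))
        - ((L k).β : ℂ) * ((∑ c, (((A c) ×ˢ (B c)).filter
          (fun q => (q.1 : ℤ) + n = (q.2 : ℤ) + n')).card : ℕ) : ℂ)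
        = (starRingEnd ℂ) (inner ℂ ((U ^ n') (VS U (v k) B)) ((U ^ n) (VS U (v k) A))
        - ((L k).β : ℂ) * ((∑ c, (((A c) ×ˢ (B c)).filter
          (fun q => (q.1 : ℤ) + n = (q.2 : ℤ) + n')).card : ℕ) : ℂ)) := by
      rw [map_sub, map_mul, Complex.conj_ofReal, Complex.conj_natCast]
    rw [h4, RCLike.norm_conj]

end Hilbert

end

end Pool.Agent.H264R4.BA
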