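import Pool.Agent.H264R4.BA.Defs2

/-! Task P3 (helper617): orthogonality of characters. -/

namespace Pool.Agent.H264R4.BA

open MeasureTheory Set Filter Topology Pool.Agent.H728R2.BL
open scoped ENNReal BigOperators Real

noncomputable section

private lemma P3_e_add (s t : ℝ) : e (s + t) = e s * e t := by
  unfold e
  rw [← Complex.exp_add]
  congr 1
  push_cast
  ring

private lemma P3_e_conj (t : ℝ) : starRingEnd ℂ (e t) = e (-t) := by
  unfold e
  rw [← Complex.exp_conj]
  congr 1
  rw [map_mul, map_mul, map_mul, Complex.conj_I, Complex.conj_ofReal, Complex.conj_ofReal,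
    Complex.conj_ofNat]
  push_cast
  ring

private lemma P3_e_zero : e 0 = 1 := by
  unfold e
  simp

private lemma P3_e_cont (t : ℝ) : Continuous (fun x : ℝ => e (t * x)) := by
  unfold e
  fun_prop

/-- P3: orthogonality of characters -/
theorem int_e (n : ℤ) : ∫ x in (0:ℝ)..1, e (n * x) = if n = 0 then 1 else 0 := by
  by_cases hn : n = 0
  · subst hn
    rw [if_pos rfl]
    have h1 : ∀ x : ℝ, e (((0 : ℤ) : ℝ) * x) = 1 := by
      intro x
      rw [Int.cast_zero, zero_mul, P3_e_zero]
    simp only [h1]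
    simp
  · rw [if_neg hn]
    have hc : (2 * π * n * Complex.I : ℂ) ≠ 0 := by
      have h2 : (n : ℂ) ≠ 0 := Int.cast_ne_zero.2 hn
      have h3 : (π : ℂ) ≠ 0 := Complex.ofReal_ne_zero.2 Real.pi_ne_zero
      exact mul_ne_zero (mul_ne_zero (mul_ne_zero two_ne_zero h3) h2) Complex.I_ne_zero
    have h1 : ∀ x : ℝ, e ((n : ℝ) * x) = Complex.exp ((2 * π * n * Complex.I : ℂ) * x) := by
      intro x
      unfold e
      congr 1
      push_cast
      ring
    simp only [h1]
    rw [integral_exp_mul_complex hc]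
    have h4 : Complex.exp ((2 * π * n * Complex.I : ℂ) * ((1 : ℝ) : ℂ)) = 1 := by
      rw [Complex.exp_eq_one_iff]
      exact ⟨n, by push_cast; ring⟩
    rw [h4]
    simp

theorem int_pol (A B : Finset ℕ) (n n' : ℤ) :
    ∫ x in (0:ℝ)..1, starRingEnd ℂ (e (n * x) * pol A x) * (e (n' * x) * pol B x)
      = (((A ×ˢ B).filter (fun q => (q.1 : ℤ) + n = (q.2 : ℤ) + n')).card : ℂ) := by
  have h1 : ∀ x : ℝ, starRingEnd ℂ (e (n * x) * pol A x) * (e (n' * x) * pol B x) =
      ∑ q ∈ A ×ˢ B, e (((n' + (q.2 : ℤ) - n - (q.1 : ℤ) : ℤ) : ℝ) * x) := by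
    intro x
    unfold pol
    rw [map_mul, map_sum, Finset.sum_product, Finset.mul_sum, Finset.sum_mul]
    apply Finset.sum_congr rfl
    intro a _
    rw [Finset.mul_sum, Finset.mul_sum]
    apply Finset.sum_congr rfl
    intro b _
    rw [P3_e_conj, P3_e_conj, ← P3_e_add, ← P3_e_add, ← P3_e_add]
    congr 1
    push_cast
    ring
  simp only [h1]
  rw [intervalIntegral.integral_finset_sum
    (fun q _ => (P3_e_cont _).intervalIntegrable _ _), Finset.card_filter]
  rw [Nat.cast_sum]
  apply Finset.sum_congr rfl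
  intro q _
  rw [int_e, Nat.cast_ite, Nat.cast_one, Nat.cast_zero]
  by_cases h : (q.1 : ℤ) + n = (q.2 : ℤ) + n'
  · rw [if_pos h, if_pos (by omega)]
  · rw [if_neg h, if_neg (by omega)]

end

end Pool.Agent.H264R4.BA
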