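import Pool.Agent.H264R4.BA.Defs2
import Pool.Agent.H264R4.BF.F_H2
import Pool.Agent.H264R4.BF.F_P3

/-!
# H3: norms of linear combinations
-/

namespace Pool.Agent.H264R4.BA

open MeasureTheory Set Filter Topology Pool.Agent.H728R2.BL
open scoped ENNReal BigOperators Real

noncomputable section

theorem h3_cont_e (n : ℤ) : Continuous (fun x : ℝ => e (n * x)) := by
  unfold e
  fun_prop

theorem h3_cont_pol (A : Finset ℕ) : Continuous (fun x : ℝ => pol A x) := by
  unfold pol e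
  fun_prop

section Hilbert

variable {H : Type*} [NormedAddCommGroup H] [InnerProductSpace ℂ H] [CompleteSpace H]
variable {L : ℕ → Lev} {σ : ∀ k, DStep (L k) (L (k + 1))} {U : H ≃ₗᵢ[ℂ] H}
  {v : (k : ℕ) → (L k).Θ → H} {one : H}

theorem h3_int (k : ℕ) {ι : Type} [Fintype ι] (z : ι → ℂ) (n : ι → ℤ)
    (A : ι → (L k).Θ → Finset ℕ) :
    (((∫ x in (0:ℝ)..1, (L k).E (fun c x => ∑ j, z j * (e (n j * x) * pol (A j c) x)) x) : ℝ) : ℂ)
      = ∑ j, ∑ l, (starRingEnd ℂ) (z j) * z l * ((L k).β * (∑ c, (((A j c) ×ˢ (A l c)).filter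
          (fun q => (q.1 : ℤ) + n j = (q.2 : ℤ) + n l)).card : ℕ)) := by
  have hcont : ∀ (c : (L k).Θ) (j l : ι), Continuous (fun x : ℝ =>
      (starRingEnd ℂ) (e (n j * x) * pol (A j c) x) * (e (n l * x) * pol (A l c) x)) := by
    intro c j l
    have h1 := (h3_cont_e (n j)).mul (h3_cont_pol (A j c))
    have h2 := (h3_cont_e (n l)).mul (h3_cont_pol (A l c))
    exact (Complex.continuous_conj.comp h1).mul h2
  rw [← intervalIntegral.integral_ofReal]
  have h1 : ∀ x : ℝ, (((L k).E (fun c x => ∑ j, z j * (e (n j * x) * pol (A j c) x)) x : ℝ) : ℂ)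
      = ∑ c, ∑ j, ∑ l, (((L k).β : ℂ) * ((starRingEnd ℂ) (z j) * z l)) *
        ((starRingEnd ℂ) (e (n j * x) * pol (A j c) x) * (e (n l * x) * pol (A l c) x)) := by
    intro x
    unfold Lev.E
    push_cast
    rw [Finset.mul_sum]
    refine Finset.sum_congr rfl fun c _ => ?_
    rw [← Complex.conj_mul', map_sum, Finset.sum_mul_sum, Finset.mul_sum]
    refine Finset.sum_congr rfl fun j _ => ?_
    rw [Finset.mul_sum]
    refine Finset.sum_congr rfl fun l _ => ?_
    rw [map_mul]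
    ring
  simp only [h1]
  rw [intervalIntegral.integral_finsetSum]
  · have h2 : ∀ c : (L k).Θ, (∫ x in (0:ℝ)..1, ∑ j, ∑ l, (((L k).β : ℂ) *
        ((starRingEnd ℂ) (z j) * z l)) *
        ((starRingEnd ℂ) (e (n j * x) * pol (A j c) x) * (e (n l * x) * pol (A l c) x)))
        = ∑ j, ∑ l, (((L k).β : ℂ) * ((starRingEnd ℂ) (z j) * z l)) *
          ((((A j c) ×ˢ (A l c)).filter
          (fun q => (q.1 : ℤ) + n j = (q.2 : ℤ) + n l)).card : ℂ) := by
      intro c
      rw [intervalIntegral.integral_finsetSum]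
      · refine Finset.sum_congr rfl fun j _ => ?_
        rw [intervalIntegral.integral_finsetSum]
        · refine Finset.sum_congr rfl fun l _ => ?_
          rw [intervalIntegral.integral_const_mul, _root_.Pool.Agent.H264R4.BA.int_pol]
        · intro l _
          exact (continuous_const.mul (hcont c j l)).intervalIntegrable _ _
      · intro j _
        apply Continuous.intervalIntegrable
        exact continuous_finsetSum _ fun l _ => continuous_const.mul (hcont c j l)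
    simp only [h2]
    rw [Finset.sum_comm]
    refine Finset.sum_congr rfl fun j _ => ?_
    rw [Finset.sum_comm]
    refine Finset.sum_congr rfl fun l _ => ?_
    push_cast
    rw [← Finset.mul_sum]
    ring
  · intro c _
    apply Continuous.intervalIntegrable
    exact continuous_finsetSum _ fun j _ => continuous_finsetSum _ fun l _ =>
      continuous_const.mul (hcont c j l)

/-- H3 (uses H2, P3): norms -/
theorem norm_bound (hd : HD L σ U v one) (k : ℕ) {ι : Type} [Fintype ι] (z : ι → ℂ) (n : ι → ℤ)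
    (A : ι → (L k).Θ → Finset ℕ) (hA : ∀ j c, ∀ a ∈ A j c, a < (L k).h) (m : ℕ)
    (hm : ∀ j l, |n j - n l| ≤ m) :
    ‖∑ j, z j • (U ^ (n j)) (VS U (v k) (A j))‖ ^ 2
      ≤ (∫ x in (0:ℝ)..1, (L k).E (fun c x => ∑ j, z j * (e (n j * x) * pol (A j c) x)) x)
        + (∑ j, ‖z j‖) ^ 2 * m / (L k).h := by
  have hh : (0 : ℝ) < (L k).h := by exact_mod_cast (L k).hpos
  have h1 := h3_int (L := L) k z n A
  set S : H := ∑ j, z j • (U ^ (n j)) (VS U (v k) (A j)) with hS
  have h2 : ((‖S‖ ^ 2 : ℝ) : ℂ) = ∑ j, ∑ l, (starRingEnd ℂ) (z j) * z l *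
      inner ℂ ((U ^ (n j)) (VS U (v k) (A j))) ((U ^ (n l)) (VS U (v k) (A l))) := by
    have h3 := inner_self_eq_norm_sq_to_K (𝕜 := ℂ) S
    have h4 : ((‖S‖ ^ 2 : ℝ) : ℂ) = inner ℂ S S := by
      rw [h3]
      push_cast
      rfl
    rw [h4, hS, sum_inner]
    refine Finset.sum_congr rfl fun j _ => ?_
    rw [inner_sum]
    refine Finset.sum_congr rfl fun l _ => ?_
    rw [inner_smul_left, inner_smul_right]
    ring
  set J : ℝ := ∫ x in (0:ℝ)..1, (L k).E (fun c x => ∑ j, z j * (e (n j * x) * pol (A j c) x)) x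
    with hJ
  have h5 : ((‖S‖ ^ 2 - J : ℝ) : ℂ) = ∑ j, ∑ l, (starRingEnd ℂ) (z j) * z l *
      (inner ℂ ((U ^ (n j)) (VS U (v k) (A j))) ((U ^ (n l)) (VS U (v k) (A l))) -
        (L k).β * (∑ c, (((A j c) ×ˢ (A l c)).filter
          (fun q => (q.1 : ℤ) + n j = (q.2 : ℤ) + n l)).card : ℕ)) := by
    rw [Complex.ofReal_sub, h2, h1, ← Finset.sum_sub_distrib]
    refine Finset.sum_congr rfl fun j _ => ?_
    rw [← Finset.sum_sub_distrib]
    refine Finset.sum_congr rfl fun l _ => ?_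
    rw [mul_sub]
  have h6 : ‖S‖ ^ 2 - J ≤ ∑ j, ∑ l, ‖z j‖ * ‖z l‖ * (m / (L k).h) := by
    have h7 : ‖S‖ ^ 2 - J ≤ ‖((‖S‖ ^ 2 - J : ℝ) : ℂ)‖ := by
      rw [Complex.norm_real]
      exact le_abs_self _
    refine h7.trans ?_
    rw [h5]
    refine (norm_sum_le _ _).trans (Finset.sum_le_sum fun j _ => ?_)
    refine (norm_sum_le _ _).trans (Finset.sum_le_sum fun l _ => ?_)
    rw [norm_mul, norm_mul, RCLike.norm_conj]
    refine mul_le_mul_of_nonneg_left ?_ (by positivity)
    refine (_root_.Pool.Agent.H264R4.BA.corr_int hd k (A j) (A l) (hA j) (hA l) (n j) (n l)).trans ?_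
    rw [div_le_div_iff_of_pos_right hh]
    have h8 := hm j l
    have h9 : (|((n j - n l : ℤ) : ℝ)|) = ((|n j - n l| : ℤ) : ℝ) := by
      rw [Int.cast_abs]
    rw [h9]
    exact_mod_cast h8
  have h10 : ∑ j, ∑ l, ‖z j‖ * ‖z l‖ * ((m : ℝ) / (L k).h) = (∑ j, ‖z j‖) ^ 2 * m / (L k).h := by
    rw [sq, Finset.sum_mul_sum, mul_div_assoc, Finset.sum_mul]
    refine Finset.sum_congr rfl fun j _ => ?_
    rw [Finset.sum_mul]
  rw [h10] at h6
  linarith

end Hilbert

end

end Pool.Agent.H264R4.BA
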