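import Pool.Agent.H264R4.BA.Defs2
import Pool.Agent.H264R4.BF.F_H1
import Pool.Agent.H264R4.BF.F_H3
import Pool.Agent.H264R4.BF.F_P1
import Pool.Agent.H264R4.BF.F_P2

/-!
# Banach's problem, part A: task H4 (decoding in the Hilbert space)
-/

namespace Pool.Agent.H264R4.BA

open MeasureTheory Set Filter Topology Pool.Agent.H264R4.BA Pool.Agent.H728R2.BL
open scoped ENNReal BigOperators Real

noncomputable section

section Hilbert

variable {H : Type*} [NormedAddCommGroup H] [InnerProductSpace ℂ H] [CompleteSpace H]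
variable {L : ℕ → Lev} {σ : ∀ k, DStep (L k) (L (k + 1))} {U : H ≃ₗᵢ[ℂ] H}
  {v : (k : ℕ) → (L k).Θ → H} {one : H}

private def h4z (p : ℤ →₀ ℂ) : ((p.support × Bool) ⊕ Bool) → ℂ :=
  Sum.elim (fun q => if q.2 then p q.1 else - p q.1) (fun b => if b then -1 else 1)

private def h4n (p : ℤ →₀ ℂ) : ((p.support × Bool) ⊕ Bool) → ℤ :=
  Sum.elim (fun q => if q.2 then (q.1 : ℤ) + 1 else q.1) (fun b => if b then 1 else 0)

private def h4A (p : ℤ →₀ ℂ) {Θ : Type} (F B : Θ → Finset ℕ) :
    ((p.support × Bool) ⊕ Bool) → Θ → Finset ℕ :=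
  Sum.elim (fun _ => F) (fun _ => B)

private theorem h4_sum {E : Type*} [AddCommMonoid E] (p : ℤ →₀ ℂ)
    (φ : ((p.support × Bool) ⊕ Bool) → E) :
    ∑ j, φ j = (∑ x : p.support, (φ (Sum.inl (x, true)) + φ (Sum.inl (x, false))))
      + (φ (Sum.inr true) + φ (Sum.inr false)) := by
  rw [Fintype.sum_sum_type, Fintype.sum_prod_type, Fintype.sum_bool]
  simp only [Fintype.sum_bool]

/-- H4 (uses H1, H3, P1, P2): decoding in the Hilbert space -/
theorem dec_dist (G : Good L σ) (hd : HD L σ U v one) (c0 : (L 0).Θ) (k : ℕ) (c : (L k).Θ)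
    (p : ℤ →₀ ℂ) (m : ℕ) (hp : ∀ n ∈ p.support, |n| ≤ m) :
    ‖PU U p (U (v 0 c0) - v 0 c0) - (U (v k c) - v k c)‖ ^ 2
      ≤ decErr (σ k) (Fset L σ k) c p m := by
  set F : (L (k + 1)).Θ → Finset ℕ := Fset L σ (k + 1) with hFdef
  set B : (L (k + 1)).Θ → Finset ℕ := (σ k).pushS (sgl c) with hBdef
  have hsgl : ∀ d, ∀ a ∈ (sgl c : (L k).Θ → Finset ℕ) d, a < (L k).h := by
    intro d a ha
    unfold sgl at ha
    split_ifs at ha with h
    · rw [Finset.mem_singleton] at ha
      rw [ha]
      exact (L k).hpos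
    · simp at ha
  have hVF : VS U (v (k + 1)) F = v 0 c0 := _root_.Pool.Agent.H264R4.BA.VS_fset G hd (k + 1) c0
  have hVB : VS U (v (k + 1)) B = v k c := by
    rw [← _root_.Pool.Agent.H264R4.BA.VS_sgl (U := U) (v := v) k c, _root_.Pool.Agent.H264R4.BA.VS_push hd k (sgl c) hsgl]
  have hAF : ∀ d, ∀ a ∈ F d, a < (L (k + 1)).h := fun d => _root_.Pool.Agent.H264R4.BA.fset_lt L σ G (k + 1) d
  have hAB : ∀ d, ∀ a ∈ B d, a < (L (k + 1)).h := fun d => _root_.Pool.Agent.H264R4.BA.pushS_lt (σ k) (sgl c) hsgl d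
  have hA : ∀ j d, ∀ a ∈ h4A p F B j d, a < (L (k + 1)).h := by
    rintro (j | j) d a ha
    · exact hAF d a ha
    · exact hAB d a ha
  have hrange : ∀ j, -(m : ℤ) ≤ h4n p j ∧ h4n p j ≤ m + 1 := by
    rintro (⟨⟨x, hx⟩, b⟩ | b)
    · have h1 := abs_le.1 (hp x hx)
      cases b
      · show -(m : ℤ) ≤ (if (false : Bool) = true then x + 1 else x) ∧
          (if (false : Bool) = true then x + 1 else x) ≤ m + 1
        simp only [Bool.false_eq_true, if_false]
        omega
      · show -(m : ℤ) ≤ (if (true : Bool) = true then x + 1 else x) ∧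
          (if (true : Bool) = true then x + 1 else x) ≤ m + 1
        simp only [if_true]
        omega
    · cases b
      · show -(m : ℤ) ≤ (if (false : Bool) = true then 1 else 0) ∧
          (if (false : Bool) = true then (1 : ℤ) else 0) ≤ m + 1
        simp only [Bool.false_eq_true, if_false]
        omega
      · show -(m : ℤ) ≤ (if (true : Bool) = true then 1 else 0) ∧
          (if (true : Bool) = true then (1 : ℤ) else 0) ≤ m + 1
        simp only [if_true]
        omega
  have hm : ∀ j l, |h4n p j - h4n p l| ≤ ((2 * m + 1 : ℕ) : ℤ) := by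
    intro j l
    have h1 := hrange j
    have h2 := hrange l
    rw [abs_le]
    push_cast
    constructor <;> linarith [h1.1, h1.2, h2.1, h2.2]
  have key := _root_.Pool.Agent.H264R4.BA.norm_bound hd (k + 1) (h4z p) (h4n p) (h4A p F B) hA (2 * m + 1) hm
  -- the vector
  have hvec : ∑ j, h4z p j • (U ^ (h4n p j)) (VS U (v (k + 1)) (h4A p F B j))
      = PU U p (U (v 0 c0) - v 0 c0) - (U (v k c) - v k c) := by
    rw [h4_sum]
    have e1 : ∀ x : p.support, h4z p (Sum.inl (x, true)) •
        (U ^ (h4n p (Sum.inl (x, true)))) (VS U (v (k + 1)) (h4A p F B (Sum.inl (x, true))))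
        + h4z p (Sum.inl (x, false)) •
        (U ^ (h4n p (Sum.inl (x, false)))) (VS U (v (k + 1)) (h4A p F B (Sum.inl (x, false))))
        = p x • (U ^ (x : ℤ)) (U (v 0 c0) - v 0 c0) := by
      intro x
      show p x • (U ^ ((x : ℤ) + 1)) (VS U (v (k + 1)) F)
        + (-p x) • (U ^ (x : ℤ)) (VS U (v (k + 1)) F) = _
      rw [hVF, zpow_add_one, map_sub, smul_sub, neg_smul, ← sub_eq_add_neg]
      rfl
    rw [Finset.sum_congr rfl fun x _ => e1 x]
    have e2 : ∑ x : p.support, p x • (U ^ (x : ℤ)) (U (v 0 c0) - v 0 c0)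
        = PU U p (U (v 0 c0) - v 0 c0) := by
      unfold PU Finsupp.sum
      exact Finset.sum_coe_sort p.support (fun n => p n • (U ^ n) (U (v 0 c0) - v 0 c0))
    rw [e2]
    have e3 : h4z p (Sum.inr true) • (U ^ (h4n p (Sum.inr true)))
          (VS U (v (k + 1)) (h4A p F B (Sum.inr true)))
        + h4z p (Sum.inr false) • (U ^ (h4n p (Sum.inr false)))
          (VS U (v (k + 1)) (h4A p F B (Sum.inr false)))
        = - (U (v k c) - v k c) := by
      show (-1 : ℂ) • (U ^ (1 : ℤ)) (VS U (v (k + 1)) B)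
        + (1 : ℂ) • (U ^ (0 : ℤ)) (VS U (v (k + 1)) B) = _
      rw [hVB, zpow_one, zpow_zero, neg_one_smul, one_smul, neg_sub]
      show - U (v k c) + v k c = v k c - U (v k c)
      abel
    rw [e3]
    exact (sub_eq_add_neg _ _).symm
  -- the coefficients
  have hcoef : ∑ j, ‖h4z p j‖ = 2 * (l1 p + 1) := by
    rw [h4_sum]
    have e1 : ∀ x : p.support, ‖h4z p (Sum.inl (x, true))‖ + ‖h4z p (Sum.inl (x, false))‖
        = 2 * ‖p x‖ := by
      intro x
      show ‖p x‖ + ‖-p x‖ = _
      rw [norm_neg]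
      ring
    rw [Finset.sum_congr rfl fun x _ => e1 x, ← Finset.mul_sum]
    have e2 : ∑ x : p.support, ‖p x‖ = l1 p := by
      unfold l1 Finsupp.sum
      exact Finset.sum_coe_sort p.support (fun n => ‖p n‖)
    rw [e2]
    show 2 * l1 p + (‖(-1 : ℂ)‖ + ‖(1 : ℂ)‖) = _
    rw [norm_neg, norm_one]
    ring
  -- the integrand
  have hint : ∀ x : ℝ, (L (k + 1)).E (fun c x => ∑ j, h4z p j *
      (e (h4n p j * x) * pol (h4A p F B j c) x)) x
      = W x * (L (k + 1)).E (fun c' x => ev p x * (σ k).push (fun d => pol (Fset L σ k d)) c' x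
      - (σ k).push (fun d _ => if d = c then 1 else 0) c' x) x := by
    intro x
    have e0 : e ((0 : ℤ) * x) = 1 := by
      unfold e
      simp
    have eadd : ∀ s t : ℝ, e (s + t) = e s * e t := by
      intro s t
      unfold e
      rw [← Complex.exp_add]
      congr 1
      push_cast
      ring
    have e1 : ∀ c' : (L (k + 1)).Θ, ∑ j, h4z p j *
        (e (h4n p j * x) * pol (h4A p F B j c') x)
        = (e x - 1) * (ev p x * (σ k).push (fun d => pol (Fset L σ k d)) c' x
      - (σ k).push (fun d _ => if d = c then 1 else 0) c' x) := by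
      intro c'
      have f1 : pol (F c') x = (σ k).push (fun d => pol (Fset L σ k d)) c' x :=
        _root_.Pool.Agent.H264R4.BA.pol_pushS (σ k) (Fset L σ k) (fun d => _root_.Pool.Agent.H264R4.BA.fset_lt L σ G k d) c' x
      have f2 : pol (B c') x = (σ k).push (fun d _ => if d = c then 1 else 0) c' x :=
        _root_.Pool.Agent.H264R4.BA.pol_push_sgl (σ k) c c' x
      rw [← f1, ← f2, h4_sum]
      have g1 : ∀ y : p.support, h4z p (Sum.inl (y, true)) *
          (e (h4n p (Sum.inl (y, true)) * x) * pol (h4A p F B (Sum.inl (y, true)) c') x)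
          + h4z p (Sum.inl (y, false)) *
          (e (h4n p (Sum.inl (y, false)) * x) * pol (h4A p F B (Sum.inl (y, false)) c') x)
          = (p y * e ((y : ℤ) * x)) * ((e x - 1) * pol (F c') x) := by
        intro y
        show p y * (e (((y : ℤ) + 1 : ℤ) * x) * pol (F c') x)
          + (-p y) * (e ((y : ℤ) * x) * pol (F c') x) = _
        have : (((y : ℤ) + 1 : ℤ) : ℝ) * x = ((y : ℤ) : ℝ) * x + x := by
          push_cast
          ring
        rw [this, eadd]
        ring
      rw [Finset.sum_congr rfl fun y _ => g1 y, ← Finset.sum_mul]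
      have g2 : ∑ y : p.support, p y * e ((y : ℤ) * x) = ev p x := by
        unfold ev Finsupp.sum
        exact Finset.sum_coe_sort p.support (fun n => p n * e (n * x))
      rw [g2]
      have g3 : h4z p (Sum.inr true) *
          (e (h4n p (Sum.inr true) * x) * pol (h4A p F B (Sum.inr true) c') x)
          + h4z p (Sum.inr false) *
          (e (h4n p (Sum.inr false) * x) * pol (h4A p F B (Sum.inr false) c') x)
          = - ((e x - 1) * pol (B c') x) := by
        show (-1) * (e ((1 : ℤ) * x) * pol (B c') x)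
          + 1 * (e ((0 : ℤ) * x) * pol (B c') x) = _
        rw [e0]
        have : ((1 : ℤ) : ℝ) * x = x := by push_cast; ring
        rw [this]
        ring
      rw [g3]
      ring
    have e2 : ∀ c' : (L (k + 1)).Θ, ‖∑ j, h4z p j *
        (e (h4n p j * x) * pol (h4A p F B j c') x)‖ ^ 2
        = ‖e x - 1‖ ^ 2 * ‖ev p x * (σ k).push (fun d => pol (Fset L σ k d)) c' x
      - (σ k).push (fun d _ => if d = c then 1 else 0) c' x‖ ^ 2 := by
      intro c'
      rw [e1 c', norm_mul, mul_pow]
    unfold Lev.E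
    beta_reduce
    simp only [e2]
    rw [← Finset.mul_sum]
    unfold W
    ring
  rw [hvec, hcoef] at key
  unfold decErr
  refine key.trans (le_of_eq ?_)
  rw [intervalIntegral.integral_congr (fun x _ => hint x)]
  congr 1
  push_cast
  ring

end Hilbert

end

end Pool.Agent.H264R4.BA
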