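import Pool.Agent.H264R4.BA.Defs2

/-! H5: polynomials in `U` and the cyclic space. -/

namespace Pool.Agent.H264R4.BA

open MeasureTheory Set Filter Topology Pool.Agent.H728R2.BL
open scoped ENNReal BigOperators Real

noncomputable section

section Hilbert

variable {H : Type*} [NormedAddCommGroup H] [InnerProductSpace ℂ H] [CompleteSpace H]
variable {L : ℕ → Lev} {σ : ∀ k, DStep (L k) (L (k + 1))} {U : H ≃ₗᵢ[ℂ] H}
  {v : (k : ℕ) → (L k).Θ → H} {one : H}

/-- H5: polynomials in `U` and the cyclic space -/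
theorem PU_mem (g : H) (p : ℤ →₀ ℂ) : PU U p g ∈ Pool.Agent.H750F.Z U g := by
  unfold PU Finsupp.sum
  exact Submodule.sum_mem _ fun n _ => Submodule.smul_mem _ _
    (Submodule.le_topologicalClosure _ (Submodule.subset_span ⟨n, rfl⟩))

theorem Z_zpow_mem (g w : H) (hw : w ∈ Pool.Agent.H750F.Z U g) (n : ℤ) :
    (U ^ n) w ∈ Pool.Agent.H750F.Z U g := by
  have h1 : ∀ w ∈ Submodule.span ℂ (range fun n : ℤ => (U ^ n) g),
      (U ^ n) w ∈ Submodule.span ℂ (range fun n : ℤ => (U ^ n) g) := by
    intro w hw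
    induction hw using Submodule.span_induction with
    | mem x hx =>
      obtain ⟨m, rfl⟩ := hx
      refine Submodule.subset_span ⟨n + m, ?_⟩
      show (U ^ (n + m)) g = (U ^ n) ((U ^ m) g)
      rw [← Pool.Agent.H750F.mul_ap, ← zpow_add]
    | zero => rw [map_zero]; exact Submodule.zero_mem _
    | add x y _ _ hx hy => rw [map_add]; exact Submodule.add_mem _ hx hy
    | smul a x _ hx => rw [map_smul]; exact Submodule.smul_mem _ _ hx
  have hw' : w ∈ closure ((Submodule.span ℂ (range fun n : ℤ => (U ^ n) g) : Submodule ℂ H) : Set H) := hw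
  show (U ^ n) w ∈ closure ((Submodule.span ℂ (range fun n : ℤ => (U ^ n) g) : Submodule ℂ H) : Set H)
  exact map_mem_closure (U ^ n).continuous hw' (fun x hx => h1 x hx)

end Hilbert

end

end Pool.Agent.H264R4.BA
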