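import Pool.Agent.H264R4.BA.Defs2
import Pool.Agent.H264R4.BF.F_H1
import Pool.Agent.H264R4.BF.F_H4
import Pool.Agent.H264R4.BF.F_H5
import Pool.Agent.H264R4.BF.F_P1

/-!
# Banach's problem on a probability space, part A, task H6
-/

namespace Pool.Agent.H264R4.BA

open MeasureTheory Set Filter Topology Pool.Agent.H264R4.BA Pool.Agent.H728R2.BL
open scoped ENNReal BigOperators Real

noncomputable section

section Hilbert

variable {H : Type*} [NormedAddCommGroup H] [InnerProductSpace ℂ H] [CompleteSpace H]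
variable {L : ℕ → Lev} {σ : ∀ k, DStep (L k) (L (k + 1))} {U : H ≃ₗᵢ[ℂ] H}
  {v : (k : ℕ) → (L k).Θ → H} {one : H}

/-- the base vectors are sums of levels of all later stages -/
private lemma H6_lift (hd : HD L σ U v one) (j : ℕ) (c : (L j).Θ) (k : ℕ) (hk : j ≤ k) :
    ∃ A : (L k).Θ → Finset ℕ, (∀ c2, ∀ a ∈ A c2, a < (L k).h) ∧ v j c = VS U (v k) A := by
  induction k, hk using Nat.le_induction with
  | base =>
    refine ⟨sgl c, ?_, (_root_.Pool.Agent.H264R4.BA.VS_sgl (U := U) (v := v) j c).symm⟩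
    intro c2 a ha
    unfold sgl at ha
    split_ifs at ha with h
    · rw [Finset.mem_singleton] at ha
      rw [ha]
      exact (L j).hpos
    · simp at ha
  | succ k hk ih =>
    obtain ⟨A, hA, he⟩ := ih
    refine ⟨(σ k).pushS A, _root_.Pool.Agent.H264R4.BA.pushS_lt (σ k) A hA, ?_⟩
    rw [he]
    exact _root_.Pool.Agent.H264R4.BA.VS_push hd k A hA

omit [CompleteSpace H] in
private lemma H6_comm (n : ℤ) (w : H) : U ((U ^ n) w) = (U ^ n) (U w) := by
  have h1 : U ((U ^ n) w) = (U * U ^ n) w := rfl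
  have h2 : (U ^ n) (U w) = (U ^ n * U) w := rfl
  rw [h1, h2, ← zpow_one_add, ← zpow_add_one, add_comm]

omit [CompleteSpace H] in
private lemma H6_split (k : ℕ) (A : (L k).Θ → Finset ℕ) :
    U (VS U (v k) A) - VS U (v k) A =
      ∑ c2, ∑ n ∈ A c2, (U ^ (n : ℤ)) (U (v k c2) - v k c2) := by
  unfold VS
  rw [map_sum, ← Finset.sum_sub_distrib]
  apply Finset.sum_congr rfl
  intro c2 _
  rw [map_sum, ← Finset.sum_sub_distrib]
  apply Finset.sum_congr rfl
  intro n _
  rw [map_sub, H6_comm]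

/-- approximation of the increment at stage `k` -/
private lemma H6_approx (G : Good L σ) (hd : HD L σ U v one) (c0 : (L 0).Θ) (j : ℕ) (c : (L j).Θ)
    (k : ℕ) (hk : j ≤ k) : ∃ z ∈ Pool.Agent.H750F.Z U (U (v 0 c0) - v 0 c0),
      ‖(U (v j c) - v j c) - z‖ ≤ 1 / ((k : ℝ) + 1) := by
  obtain ⟨A, hA, he⟩ := H6_lift hd j c k hk
  choose p m hp hdec using G.dec k
  set g := U (v 0 c0) - v 0 c0 with hg
  set δ : ℝ := 1 / (((k : ℝ) + 1) * (L k).h * Fintype.card (L k).Θ) with hδ
  have hh : (0 : ℝ) < (L k).h := by exact_mod_cast (L k).hpos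
  have hc : (0 : ℝ) < Fintype.card (L k).Θ := by exact_mod_cast Fintype.card_pos
  have hδ0 : 0 < δ := by positivity
  have hbd : ∀ c2, ‖PU U (p c2) g - (U (v k c2) - v k c2)‖ ≤ δ := by
    intro c2
    have h1 := (_root_.Pool.Agent.H264R4.BA.dec_dist G hd c0 k c2 (p c2) (m c2) (hp c2)).trans (hdec c2)
    exact le_of_sq_le_sq h1 hδ0.le
  refine ⟨∑ c2, ∑ n ∈ A c2, (U ^ (n : ℤ)) (PU U (p c2) g), ?_, ?_⟩
  · apply Submodule.sum_mem
    intro c2 _
    apply Submodule.sum_mem
    intro n _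
    exact _root_.Pool.Agent.H264R4.BA.Z_zpow_mem g _ (_root_.Pool.Agent.H264R4.BA.PU_mem g (p c2)) n
  · rw [he, H6_split, ← Finset.sum_sub_distrib]
    refine (norm_sum_le _ _).trans ?_
    have h1 : ∀ c2 ∈ (Finset.univ : Finset (L k).Θ), ‖∑ n ∈ A c2, (U ^ (n : ℤ)) (U (v k c2) - v k c2) -
        ∑ n ∈ A c2, (U ^ (n : ℤ)) (PU U (p c2) g)‖ ≤ (L k).h * δ := by
      intro c2 _
      rw [← Finset.sum_sub_distrib]
      refine (norm_sum_le _ _).trans ?_
      have h2 : ∀ n ∈ A c2, ‖(U ^ (n : ℤ)) (U (v k c2) - v k c2) - (U ^ (n : ℤ)) (PU U (p c2) g)‖ ≤ δ := by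
        intro n _
        rw [← map_sub, LinearIsometryEquiv.norm_map, norm_sub_rev]
        exact hbd c2
      refine (Finset.sum_le_sum h2).trans ?_
      rw [Finset.sum_const, nsmul_eq_mul]
      apply mul_le_mul_of_nonneg_right _ hδ0.le
      have h3 : (A c2).card ≤ (L k).h := by
        have : A c2 ⊆ Finset.range (L k).h := fun a ha => Finset.mem_range.2 (hA c2 a ha)
        calc (A c2).card ≤ (Finset.range (L k).h).card := Finset.card_le_card this
          _ = (L k).h := Finset.card_range _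
      exact_mod_cast h3
    refine (Finset.sum_le_sum h1).trans (le_of_eq ?_)
    rw [Finset.sum_const, Finset.card_univ, nsmul_eq_mul, hδ]
    field_simp

/-- H6 (uses H1, H4, H5): all increments are in the cyclic space -/
theorem incr_mem (G : Good L σ) (hd : HD L σ U v one) (c0 : (L 0).Θ) (j : ℕ) (c : (L j).Θ) :
    U (v j c) - v j c ∈ Pool.Agent.H750F.Z U (U (v 0 c0) - v 0 c0) := by
  have hcl : IsClosed (Pool.Agent.H750F.Z U (U (v 0 c0) - v 0 c0) : Set H) :=
    Submodule.isClosed_topologicalClosure _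
  rw [← SetLike.mem_coe, ← hcl.closure_eq, Metric.mem_closure_iff]
  intro ε hε
  obtain ⟨K, hK⟩ := exists_nat_one_div_lt hε
  obtain ⟨z, hz, hz2⟩ := H6_approx G hd c0 j c (max j K) (le_max_left _ _)
  refine ⟨z, hz, ?_⟩
  rw [dist_eq_norm]
  refine lt_of_le_of_lt hz2 (lt_of_le_of_lt ?_ hK)
  apply one_div_le_one_div_of_le (by positivity)
  have : (K : ℝ) ≤ ((max j K : ℕ) : ℝ) := by exact_mod_cast le_max_right _ _
  linarith

end Hilbert

end

end Pool.Agent.H264R4.BA
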