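import Pool.Agent.H264R4.BA.Defs2
import Pool.Agent.H264R4.BF.F_H5
import Pool.Agent.H264R4.BF.F_H6

/-!
# H7: the cyclic space is the orthogonal complement of the constants
-/

namespace Pool.Agent.H264R4.BA

open MeasureTheory Set Filter Topology Pool.Agent.H728R2.BL
open scoped ENNReal BigOperators Real

noncomputable section

section Hilbert

variable {H : Type*} [NormedAddCommGroup H] [InnerProductSpace ℂ H] [CompleteSpace H]
variable {L : ℕ → Lev} {σ : ∀ k, DStep (L k) (L (k + 1))} {U : H ≃ₗᵢ[ℂ] H}
  {v : (k : ℕ) → (L k).Θ → H} {one : H}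

/-- H7 (uses H5, H6): the cyclic space is the orthogonal complement of the constants -/
theorem cyclic (G : Good L σ) (hd : HD L σ U v one) (c0 : (L 0).Θ) (u : H)
    (hu : inner ℂ one u = 0) : u ∈ Pool.Agent.H750F.Z U (U (v 0 c0) - v 0 c0) := by
  set g : H := U (v 0 c0) - v 0 c0 with hg
  set K : Submodule ℂ H := Pool.Agent.H750F.Z U g with hK
  have hclosed : IsClosed (K : Set H) := by
    rw [hK]
    exact Submodule.isClosed_topologicalClosure _
  haveI : CompleteSpace K := hclosed.completeSpace_coe
  -- vectors orthogonal to `K` are multiples of `one`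
  have key : ∀ w ∈ Kᗮ, ∃ a : ℂ, w = a • one := by
    intro w hw
    have hfix : U w = w := by
      have h0 : U.symm w - w = 0 := by
        refine hd.total _ fun k c n => ?_
        have h1 : (U ^ n) (U (v k c) - v k c) ∈ K :=
          _root_.Pool.Agent.H264R4.BA.Z_zpow_mem g _ (_root_.Pool.Agent.H264R4.BA.incr_mem G hd c0 k c) n
        have h2 : inner ℂ ((U ^ n) (U (v k c) - v k c)) w = 0 := by
          exact Submodule.inner_right_of_mem_orthogonal h1 hw
        have h3 : (U ^ n) (U (v k c)) = U ((U ^ n) (v k c)) := by
          have : (U ^ n * U) (v k c) = (U * U ^ n) (v k c) := by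
            rw [(Commute.refl U).zpow_left n |>.eq]
          exact this
        rw [map_sub, h3, inner_sub_left] at h2
        have h4 : inner ℂ (U ((U ^ n) (v k c))) w = inner ℂ ((U ^ n) (v k c)) (U.symm w) := by
          have := U.inner_map_map ((U ^ n) (v k c)) (U.symm w)
          rw [U.apply_symm_apply] at this
          exact this
        rw [inner_sub_right, ← h4]
        exact h2
      have h5 : U.symm w = w := sub_eq_zero.1 h0
      calc U w = U (U.symm w) := by rw [h5]
        _ = w := U.apply_symm_apply w
    refine ⟨inner ℂ one w, ?_⟩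
    have h6 : w - inner ℂ one w • one = 0 := by
      refine hd.fixed _ ?_ ?_
      · rw [map_sub, map_smul, hfix, hd.one_fix]
      · rw [inner_sub_right, inner_smul_right, inner_self_eq_norm_sq_to_K, hd.one_norm]
        simp
    exact sub_eq_zero.1 h6
  have hmem : u ∈ Kᗮᗮ := by
    rw [Submodule.mem_orthogonal]
    intro w hw
    obtain ⟨a, rfl⟩ := key w hw
    rw [inner_smul_left, hu, mul_zero]
  rwa [Submodule.orthogonal_orthogonal] at hmem

end Hilbert

end

end Pool.Agent.H264R4.BA
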