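import Pool.Agent.H264R4.BA.Defs2
import Pool.Agent.H264R4.BF.F_H1
import Pool.Agent.H264R4.BF.F_H2
import Pool.Agent.H264R4.BF.F_P1
import Pool.Agent.H264R4.BF.F_P3

/-!
# H8: the spectral density of `g = (U-1) f`
-/

namespace Pool.Agent.H264R4.BA

open MeasureTheory Set Filter Topology Pool.Agent.H728R2.BL
open scoped ENNReal BigOperators Real

noncomputable section

private theorem H8_cont_e (a : ℝ) : Continuous fun x : ℝ => e (a * x) := by
  unfold e; fun_prop

private theorem H8_cont_pol (A : Finset ℕ) : Continuous fun x : ℝ => pol A x := by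
  unfold pol
  exact continuous_finsetSum _ fun a _ => H8_cont_e a

private theorem H8_cont_rho (L : ℕ → Lev) (σ : ∀ k, DStep (L k) (L (k + 1))) (k : ℕ) :
    Continuous fun x : ℝ => rho L σ k x := by
  unfold rho Lev.E
  exact continuous_const.mul (continuous_finsetSum _ fun c _ => ((H8_cont_pol _).norm.pow 2))

private theorem H8_cont_W : Continuous fun x : ℝ => W x := by
  unfold W
  have h := H8_cont_e 1
  simp only [one_mul] at h
  exact ((h.sub continuous_const).norm.pow 2)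

private theorem H8_swap (A : Finset ℕ) (a b : ℤ) :
    ((A ×ˢ A).filter (fun q => (q.1 : ℤ) + a = (q.2 : ℤ) + b)).card
      = ((A ×ˢ A).filter (fun q => (q.1 : ℤ) + b = (q.2 : ℤ) + a)).card := by
  refine Finset.card_nbij' Prod.swap Prod.swap ?_ ?_ ?_ ?_
  · intro q hq
    simp only [Finset.coe_filter, Finset.mem_product, Set.mem_ofPred_eq, Prod.fst_swap,
      Prod.snd_swap] at hq ⊢
    exact ⟨⟨hq.1.2, hq.1.1⟩, hq.2.symm⟩
  · intro q hq
    simp only [Finset.coe_filter, Finset.mem_product, Set.mem_ofPred_eq, Prod.fst_swap,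
      Prod.snd_swap] at hq ⊢
    exact ⟨⟨hq.1.2, hq.1.1⟩, hq.2.symm⟩
  · intro q _
    exact Prod.swap_swap q
  · intro q _
    exact Prod.swap_swap q

private theorem H8_T (L : ℕ → Lev) (σ : ∀ k, DStep (L k) (L (k + 1))) (k : ℕ) (a b : ℤ) :
    (((L k).β : ℂ) * ((∑ c, (((Fset L σ k c) ×ˢ (Fset L σ k c)).filter
        (fun q => (q.1 : ℤ) + a = (q.2 : ℤ) + b)).card : ℕ) : ℂ))
      = ∫ x in (0:ℝ)..1, (e (a * x) * starRingEnd ℂ (e (b * x))) * (rho L σ k x : ℂ) := by
  have h1 : ∀ c, ((((Fset L σ k c) ×ˢ (Fset L σ k c)).filter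
        (fun q => (q.1 : ℤ) + a = (q.2 : ℤ) + b)).card : ℂ)
      = ∫ x in (0:ℝ)..1, starRingEnd ℂ (e (b * x) * pol (Fset L σ k c) x)
          * (e (a * x) * pol (Fset L σ k c) x) := by
    intro c
    rw [_root_.Pool.Agent.H264R4.BA.int_pol, H8_swap]
  have h2 : ∀ x : ℝ, (e (a * x) * starRingEnd ℂ (e (b * x))) * (rho L σ k x : ℂ)
      = ((L k).β : ℂ) * ∑ c, starRingEnd ℂ (e (b * x) * pol (Fset L σ k c) x)
          * (e (a * x) * pol (Fset L σ k c) x) := by
    intro x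
    have h3 : (rho L σ k x : ℂ) = ((L k).β : ℂ) * ∑ c, starRingEnd ℂ (pol (Fset L σ k c) x)
          * pol (Fset L σ k c) x := by
      unfold rho Lev.E
      push_cast
      congr 1
      refine Finset.sum_congr rfl fun c _ => ?_
      rw [← Complex.conj_mul']
    rw [h3, mul_left_comm, Finset.mul_sum]
    congr 1
    refine Finset.sum_congr rfl fun c _ => ?_
    rw [map_mul]
    ring
  simp only [h2]
  rw [intervalIntegral.integral_const_mul, intervalIntegral.integral_finsetSum]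
  · push_cast
    congr 1
    exact Finset.sum_congr rfl fun c _ => h1 c
  · intro c _
    apply Continuous.intervalIntegrable
    exact (Complex.continuous_conj.comp ((H8_cont_e _).mul (H8_cont_pol _))).mul
      ((H8_cont_e _).mul (H8_cont_pol _))

private theorem H8_e_add (s t : ℝ) : e (s + t) = e s * e t := by
  unfold e
  rw [← Complex.exp_add]
  congr 1
  push_cast
  ring

private theorem H8_norm_e (s : ℝ) : ‖e s‖ = 1 := by
  unfold e
  rw [show 2 * (π:ℂ) * (s:ℂ) * Complex.I = ((2 * π * s : ℝ) : ℂ) * Complex.I by push_cast; ring]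
  exact Complex.norm_exp_ofReal_mul_I _

private theorem H8_W (x : ℝ) : (W x : ℂ) = starRingEnd ℂ (e x - 1) * (e x - 1) := by
  unfold W
  push_cast
  rw [← Complex.conj_mul']

private theorem H8_e_zero : e 0 = 1 := by
  unfold e; simp

section Hilbert

variable {H : Type*} [NormedAddCommGroup H] [InnerProductSpace ℂ H] [CompleteSpace H]
variable {L : ℕ → Lev} {σ : ∀ k, DStep (L k) (L (k + 1))} {U : H ≃ₗᵢ[ℂ] H}
  {v : (k : ℕ) → (L k).Θ → H} {one : H}

private theorem H8_corr (G : Good L σ) (hd : HD L σ U v one) (c0 : (L 0).Θ) (k : ℕ) (a b : ℤ) :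
    ‖inner ℂ ((U ^ a) (v 0 c0)) ((U ^ b) (v 0 c0))
      - ∫ x in (0:ℝ)..1, (e (a * x) * starRingEnd ℂ (e (b * x))) * (rho L σ k x : ℂ)‖
      ≤ |((a - b : ℤ) : ℝ)| / ((L k).h : ℝ) := by
  have h := _root_.Pool.Agent.H264R4.BA.corr_int hd k (Fset L σ k) (Fset L σ k) (_root_.Pool.Agent.H264R4.BA.fset_lt L σ G k)
    (_root_.Pool.Agent.H264R4.BA.fset_lt L σ G k) a b
  rw [_root_.Pool.Agent.H264R4.BA.VS_fset G hd k c0, H8_T L σ k a b] at h
  exact h

/-- H8 (uses H1, H2, P3): the spectral density of `g = (U-1) f` -/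
theorem density (G : Good L σ) (hd : HD L σ U v one) (c0 : (L 0).Θ) (r : ℝ → ℝ)
    (hr : IntervalIntegrable r volume 0 1)
    (hlim : Tendsto (fun k => ∫ x in (0:ℝ)..1, |W x * rho L σ k x - r x|) atTop (𝓝 0)) (n : ℕ) :
    inner ℂ ((U ^ (n : ℤ)) (U (v 0 c0) - v 0 c0)) (U (v 0 c0) - v 0 c0)
      = ∫ x in (0:ℝ)..1, (r x : ℂ) * Complex.exp (2 * π * Complex.I * (n : ℂ) * (x : ℂ)) := by
  have hexp : ∀ x : ℝ, Complex.exp (2 * π * Complex.I * (n : ℂ) * (x : ℂ)) = e ((n : ℤ) * x) := by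
    intro x
    unfold e
    congr 1
    push_cast
    ring
  simp only [hexp]
  -- expansion of the inner product
  have hexpand : inner ℂ ((U ^ (n : ℤ)) (U (v 0 c0) - v 0 c0)) (U (v 0 c0) - v 0 c0)
      = inner ℂ ((U ^ ((n : ℤ) + 1)) (v 0 c0)) ((U ^ (1 : ℤ)) (v 0 c0))
        - inner ℂ ((U ^ ((n : ℤ) + 1)) (v 0 c0)) ((U ^ (0 : ℤ)) (v 0 c0))
        - inner ℂ ((U ^ (n : ℤ)) (v 0 c0)) ((U ^ (1 : ℤ)) (v 0 c0))
        + inner ℂ ((U ^ (n : ℤ)) (v 0 c0)) ((U ^ (0 : ℤ)) (v 0 c0)) := by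
    have e1 : (U ^ ((n : ℤ) + 1)) (v 0 c0) = (U ^ (n : ℤ)) (U (v 0 c0)) := by
      rw [zpow_add_one]; rfl
    have e2 : (U ^ (1 : ℤ)) (v 0 c0) = U (v 0 c0) := by rw [zpow_one]
    have e3 : (U ^ (0 : ℤ)) (v 0 c0) = v 0 c0 := by rw [zpow_zero]; rfl
    rw [e1, e2, e3, map_sub, inner_sub_left, inner_sub_right, inner_sub_right]
    ring
  -- the main estimate
  have hmain : ∀ k, ‖inner ℂ ((U ^ (n : ℤ)) (U (v 0 c0) - v 0 c0)) (U (v 0 c0) - v 0 c0)
      - ∫ x in (0:ℝ)..1, (r x : ℂ) * e ((n : ℤ) * x)‖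
      ≤ 4 * ((n : ℝ) + 1) / ((L k).h : ℝ) + ∫ x in (0:ℝ)..1, |W x * rho L σ k x - r x| := by
    intro k
    have hcρ := H8_cont_rho L σ k
    have hI : ∀ a b : ℤ, IntervalIntegrable (fun x : ℝ =>
        (e (a * x) * starRingEnd ℂ (e (b * x))) * (rho L σ k x : ℂ)) volume 0 1 := by
      intro a b
      apply Continuous.intervalIntegrable
      exact ((H8_cont_e _).mul (Complex.continuous_conj.comp (H8_cont_e _))).mul
        (Complex.continuous_ofReal.comp hcρ)
    have hcomb : (∫ x in (0:ℝ)..1, (W x : ℂ) * (rho L σ k x : ℂ) * e ((n : ℤ) * x))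
        = (∫ x in (0:ℝ)..1, (e (((n : ℤ) + 1 : ℤ) * x) * starRingEnd ℂ (e ((1 : ℤ) * x)))
            * (rho L σ k x : ℂ))
          - (∫ x in (0:ℝ)..1, (e (((n : ℤ) + 1 : ℤ) * x) * starRingEnd ℂ (e ((0 : ℤ) * x)))
            * (rho L σ k x : ℂ))
          - (∫ x in (0:ℝ)..1, (e ((n : ℤ) * x) * starRingEnd ℂ (e ((1 : ℤ) * x)))
            * (rho L σ k x : ℂ))
          + (∫ x in (0:ℝ)..1, (e ((n : ℤ) * x) * starRingEnd ℂ (e ((0 : ℤ) * x)))
            * (rho L σ k x : ℂ)) := by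
      rw [← intervalIntegral.integral_sub (hI _ _) (hI _ _),
        ← intervalIntegral.integral_sub ((hI _ _).sub (hI _ _)) (hI _ _),
        ← intervalIntegral.integral_add (((hI _ _).sub (hI _ _)).sub (hI _ _)) (hI _ _)]
      refine intervalIntegral.integral_congr fun x _ => ?_
      have q1 : e ((((n : ℤ) + 1 : ℤ) : ℝ) * x) = e (((n : ℤ) : ℝ) * x) * e x := by
        rw [← H8_e_add]
        congr 1
        push_cast
        ring
      have q2 : e (((1 : ℤ) : ℝ) * x) = e x := by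
        congr 1
        push_cast
        ring
      have q3 : e (((0 : ℤ) : ℝ) * x) = 1 := by
        rw [show (((0 : ℤ) : ℝ) * x) = 0 by push_cast; ring]
        exact H8_e_zero
      simp only [q1, q2, q3, H8_W, map_sub, map_one]
      ring
    have b1 := H8_corr G hd c0 k ((n : ℤ) + 1) 1
    have b2 := H8_corr G hd c0 k ((n : ℤ) + 1) 0
    have b3 := H8_corr G hd c0 k (n : ℤ) 1
    have b4 := H8_corr G hd c0 k (n : ℤ) 0
    have hh : (0 : ℝ) < ((L k).h : ℝ) := by exact_mod_cast (L k).hpos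
    have hbd : ∀ z : ℤ, |(z : ℝ)| ≤ (n : ℝ) + 1 → |(z : ℝ)| / ((L k).h : ℝ)
        ≤ ((n : ℝ) + 1) / ((L k).h : ℝ) := fun z hz => by gcongr
    have c1 := b1.trans (hbd _ (by
      rw [abs_le]; constructor <;> push_cast <;> linarith [(n.cast_nonneg : (0:ℝ) ≤ n)]))
    have c2 := b2.trans (hbd _ (by
      rw [abs_le]; constructor <;> push_cast <;> linarith [(n.cast_nonneg : (0:ℝ) ≤ n)]))
    have c3 := b3.trans (hbd _ (by
      rw [abs_le]; constructor <;> push_cast <;> linarith [(n.cast_nonneg : (0:ℝ) ≤ n)]))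
    have c4 := b4.trans (hbd _ (by
      rw [abs_le]; constructor <;> push_cast <;> linarith [(n.cast_nonneg : (0:ℝ) ≤ n)]))
    -- first difference
    have d1 : ‖inner ℂ ((U ^ (n : ℤ)) (U (v 0 c0) - v 0 c0)) (U (v 0 c0) - v 0 c0)
        - ∫ x in (0:ℝ)..1, (W x : ℂ) * (rho L σ k x : ℂ) * e ((n : ℤ) * x)‖
        ≤ 4 * ((n : ℝ) + 1) / ((L k).h : ℝ) := by
      rw [hexpand, hcomb]
      have tri : ∀ a1 a2 a3 a4 t1 t2 t3 t4 : ℂ,
          ‖(a1 - a2 - a3 + a4) - (t1 - t2 - t3 + t4)‖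
            ≤ ‖a1 - t1‖ + ‖a2 - t2‖ + ‖a3 - t3‖ + ‖a4 - t4‖ := by
        intro a1 a2 a3 a4 t1 t2 t3 t4
        rw [show (a1 - a2 - a3 + a4) - (t1 - t2 - t3 + t4)
          = (a1 - t1) - (a2 - t2) - (a3 - t3) + (a4 - t4) by ring]
        refine (norm_add_le _ _).trans ?_
        gcongr
        refine (norm_sub_le _ _).trans ?_
        gcongr
        exact norm_sub_le _ _
      refine (tri _ _ _ _ _ _ _ _).trans ?_
      calc _ ≤ ((n : ℝ) + 1) / ((L k).h : ℝ) + ((n : ℝ) + 1) / ((L k).h : ℝ)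
            + ((n : ℝ) + 1) / ((L k).h : ℝ) + ((n : ℝ) + 1) / ((L k).h : ℝ) := by
            gcongr
        _ = _ := by ring
    -- second difference
    have hWρ : IntervalIntegrable (fun x : ℝ => W x * rho L σ k x) volume 0 1 :=
      (H8_cont_W.mul hcρ).intervalIntegrable _ _
    have i1 : IntervalIntegrable (fun x : ℝ => (W x : ℂ) * (rho L σ k x : ℂ) * e ((n : ℤ) * x))
        volume 0 1 := by
      apply Continuous.intervalIntegrable
      exact ((Complex.continuous_ofReal.comp H8_cont_W).mul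
        (Complex.continuous_ofReal.comp hcρ)).mul (H8_cont_e _)
    have i2 : IntervalIntegrable (fun x : ℝ => (r x : ℂ) * e ((n : ℤ) * x)) volume 0 1 := by
      refine IntervalIntegrable.mul_continuousOn ?_ (H8_cont_e _).continuousOn
      rw [intervalIntegrable_iff] at hr ⊢
      exact hr.ofReal
    have d2 : ‖(∫ x in (0:ℝ)..1, (W x : ℂ) * (rho L σ k x : ℂ) * e ((n : ℤ) * x))
        - ∫ x in (0:ℝ)..1, (r x : ℂ) * e ((n : ℤ) * x)‖
        ≤ ∫ x in (0:ℝ)..1, |W x * rho L σ k x - r x| := by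
      rw [← intervalIntegral.integral_sub i1 i2]
      refine (intervalIntegral.norm_integral_le_integral_norm zero_le_one).trans (le_of_eq ?_)
      refine intervalIntegral.integral_congr fun x _ => ?_
      have : (W x : ℂ) * (rho L σ k x : ℂ) * e ((n : ℤ) * x) - (r x : ℂ) * e ((n : ℤ) * x)
          = ((W x * rho L σ k x - r x : ℝ) : ℂ) * e ((n : ℤ) * x) := by
        push_cast
        ring
      simp only [this, norm_mul, H8_norm_e, mul_one, Complex.norm_real, Real.norm_eq_abs]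
    refine (norm_sub_le_norm_sub_add_norm_sub _
      (∫ x in (0:ℝ)..1, (W x : ℂ) * (rho L σ k x : ℂ) * e ((n : ℤ) * x)) _).trans ?_
    exact add_le_add d1 d2
  -- the limit
  have hl1 : Tendsto (fun k => 4 * ((n : ℝ) + 1) / ((L k).h : ℝ)) atTop (𝓝 0) :=
    Tendsto.div_atTop tendsto_const_nhds (tendsto_natCast_atTop_atTop.comp G.height)
  have hl2 : Tendsto (fun k => 4 * ((n : ℝ) + 1) / ((L k).h : ℝ)
      + ∫ x in (0:ℝ)..1, |W x * rho L σ k x - r x|) atTop (𝓝 0) := by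
    have := hl1.add hlim
    rwa [add_zero] at this
  have h0 := ge_of_tendsto' hl2 hmain
  have h1 : inner ℂ ((U ^ (n : ℤ)) (U (v 0 c0) - v 0 c0)) (U (v 0 c0) - v 0 c0)
      - ∫ x in (0:ℝ)..1, (r x : ℂ) * e ((n : ℤ) * x) = 0 := by
    rw [← norm_le_zero_iff]
    exact h0
  exact sub_eq_zero.mp h1

end Hilbert

end

end Pool.Agent.H264R4.BA
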