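import Pool.Agent.H264R4.BA.Defs2
import Pool.Agent.H264R4.BF.F_C9

/-! Banach part A, task L1 (helper539): measurability of the levels. -/

namespace Pool.Agent.H264R4.BA

open MeasureTheory Set Filter Topology
open scoped ENNReal BigOperators Real

noncomputable section

variable (D : OD)

private theorem L1_pp (k : ℕ) : Measurable (pp D k) := by
  have h1 : Measurable (fun q : Fin (D.M (k + 1)) × Fin (D.M k) =>
      D.pos k (D.cl (k + 1) q.1) q.2) := Measurable.of_discrete
  have h2 : Measurable (fun y : Bs D => (y (k + 1), y k)) :=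
    (measurable_pi_apply (k + 1)).prodMk (measurable_pi_apply k)
  exact h1.comp h2

private theorem L1_t (K : ℕ) : Measurable (t D K) := by
  unfold t
  exact Finset.measurable_sum _ fun j _ => L1_pp D j

/-- L1 (uses C9) -/
theorem measurable_Lv (k : ℕ) (c : D.Th k) (n : ℕ) : MeasurableSet (Lv D k c n) := by
  have h1 : MeasurableSet {p : Bs D × ℕ | p.2 < roof D p.1} :=
    measurableSet_lt measurable_snd ((_root_.Pool.Agent.H264R4.BA.measurable_roof D).comp measurable_fst)
  have h2 : MeasurableSet {p : Bs D × ℕ | D.cl k (p.1 k) = c} := by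
    have h5 : Measurable fun p : Bs D × ℕ => p.1 k :=
      (measurable_pi_apply k).comp measurable_fst
    exact h5 (MeasurableSet.of_discrete (s := {i : Fin (D.M k) | D.cl k i = c}))
  have h3 : MeasurableSet {p : Bs D × ℕ | t D k p.1 + p.2 = n} := by
    have h4 : Measurable fun p : Bs D × ℕ => t D k p.1 + p.2 :=
      ((L1_t D k).comp measurable_fst).add measurable_snd
    exact h4 (measurableSet_singleton n)
  exact h1.inter (h2.inter h3)

end

end Pool.Agent.H264R4.BA
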