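import Pool.Agent.H264R4.BA.Defs2
import Pool.Agent.H264R4.BF.F_C1
import Pool.Agent.H264R4.BF.F_C2
import Pool.Agent.H264R4.BF.F_O1

/-! Task L3: one step back. -/

namespace Pool.Agent.H264R4.BA

open MeasureTheory Set Filter Topology
open scoped ENNReal BigOperators Real

noncomputable section

variable (D : OD)

/-- L3 (uses C2): one step back -/
theorem step_back (M : Model D) (k : ℕ) (c : D.Th k) (n : ℕ) (p : Bs D × ℕ)
    (h : M.T p ∈ Lv D k c (n + 1)) : p ∈ Lv D k c n := by
  rw [M.hT p] at h
  split_ifs at h with h1 h2
  · obtain ⟨a1, a2, a3⟩ := h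
    exact ⟨h1, a2, by simp only at a3; omega⟩
  · obtain ⟨a1, a2, a3⟩ := h
    simp only at a1 a2 a3
    set y := p.1 with hy
    have hroof : roof D y = p.2 + 1 := by omega
    have hne : ¬ ∀ j < k, (odo D y j : ℕ) = 0 := by
      intro hc
      have := (_root_.Pool.Agent.H264R4.BA.t_zero_iff D (odo D y) k).2 hc
      omega
    by_cases hall : ∀ j, Last D y j
    · exfalso
      apply hne
      intro j _
      unfold odo
      rw [if_pos (fun i _ => hall i), dif_neg]
      have := hall j
      unfold Last at this
      omega
    · have hex : ∃ l, ¬ Last D y l := by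
        by_contra hc
        exact hall fun j => by
          by_contra hj
          exact hc ⟨j, hj⟩
      classical
      have hl := Nat.find_spec hex
      have hlt : ∀ j < Nat.find hex, Last D y j := fun j hj => by
        by_contra hc
        exact Nat.find_min hex hj hc
      set l := Nat.find hex with hl'
      have hd := _root_.Pool.Agent.H264R4.BA.odo_digits D y l hlt hl
      have hlk : l < k := by
        by_contra hc
        exact hne fun j hj => hd.1 j (by omega)
      have hyl : (y l : ℕ) + 1 < D.M l := by
        have := (y l).2
        unfold Last at hl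
        omega
      have ht := (_root_.Pool.Agent.H264R4.BA.t_odo D y l hlt hyl).1 k hlk
      refine ⟨h1, ?_, ?_⟩
      · rw [← a2, hd.2.2 k hlk]
      · rw [ht, hroof] at a3
        change t D k y + p.2 = n
        omega
  · exact absurd h.1 h1

end

end Pool.Agent.H264R4.BA
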