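import Pool.Agent.H264R4.BA.Defs2
import Pool.Agent.H264R4.BF.F_C2
import Pool.Agent.H264R4.BF.F_C3
import Pool.Agent.H264R4.BF.F_C5
import Pool.Agent.H264R4.BF.F_O1

/-!
# L4: one step forward
-/

namespace Pool.Agent.H264R4.BA

open MeasureTheory Set Filter Topology
open scoped ENNReal BigOperators Real

noncomputable section

variable (D : OD)

/-- L4 (uses C2, C5): one step forward -/
theorem step_fwd (M : Model D) (k : ℕ) (c : D.Th k) (n : ℕ) (hn : n + 1 < D.h k) (p : Bs D × ℕ)
    (hp : ∃ l, ¬ Last D p.1 l) (h : p ∈ Lv D k c n) : M.T p ∈ Lv D k c (n + 1) := by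
  classical
  obtain ⟨y, j⟩ := p
  obtain ⟨h1, h2, h3⟩ := h
  simp only at h1 h2 h3 hp
  rw [M.hT]
  simp only [h1, if_true]
  by_cases hj : j + 1 < roof D y
  · simp only [hj, if_true]
    refine ⟨hj, h2, ?_⟩
    simp only
    omega
  · simp only [hj, if_false]
    have hjr : j + 1 = roof D y := by omega
    obtain ⟨l, hspec, hmin⟩ : ∃ l, ¬ Last D y l ∧ ∀ i < l, Last D y i :=
      ⟨Nat.find hp, Nat.find_spec hp, fun i hi => by
        have := Nat.find_min hp hi
        simpa using this⟩
    have hlt : (y l : ℕ) + 1 < D.M l := by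
      have h5 := (y l).isLt
      unfold Last at hspec
      omega
    by_cases hk : k ≤ l
    · exfalso
      have h6 := _root_.Pool.Agent.H264R4.BA.roof_large D y k (fun i hi => hmin i (lt_of_lt_of_le hi hk)) hp
      omega
    · have hk' : l < k := by omega
      have h7 := (_root_.Pool.Agent.H264R4.BA.t_odo D y (l) hmin hlt).1 k hk'
      have h8 := (_root_.Pool.Agent.H264R4.BA.odo_digits D y (l) hmin hspec).2.2 k hk'
      refine ⟨?_, ?_, ?_⟩
      · simp only
        exact _root_.Pool.Agent.H264R4.BA.roof_pos D _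
      · simp only
        rw [h8]
        exact h2
      · simp only
        omega

end

end Pool.Agent.H264R4.BA
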