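import Pool.Agent.H264R4.BA.Defs2

/-! Task O3 (helper617): measure of cylinders. -/

namespace Pool.Agent.H264R4.BA

open MeasureTheory Set Filter Topology
open scoped ENNReal BigOperators Real

noncomputable section

variable (D : OD)

/-- O3: measure of cylinders -/
theorem pm_cyl (k : ℕ) (w : Bs D) :
    pm D {y | ∀ j < k, y j = w j} = ∏ j ∈ Finset.range k, (D.M j : ℝ≥0∞)⁻¹ := by
  have h1 : {y : Bs D | ∀ j < k, y j = w j} =
      Set.pi (↑(Finset.range k)) (fun j => ({w j} : Set (Fin (D.M j)))) := by
    ext y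
    simp [Set.mem_pi]
  rw [h1, pm, Measure.infinitePi_pi (μ := un D) (fun i _ => MeasurableSet.of_discrete)]
  apply Finset.prod_congr rfl
  intro j _
  simp [un]

end

end Pool.Agent.H264R4.BA
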