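import Pool.Agent.H264R4.BA.Defs2
import Pool.Agent.H264R4.BF.F_O3

/-!
# O9: no atoms
-/

namespace Pool.Agent.H264R4.BA

open MeasureTheory Set Filter Topology
open scoped ENNReal BigOperators Real

noncomputable section

variable (D : OD)

/-- cylinders are small -/
theorem pm_cyl_le (k : ℕ) (y : Bs D) : pm D {z | ∀ j < k, z j = y j} ≤ (2⁻¹ : ℝ≥0∞) ^ k := by
  rw [_root_.Pool.Agent.H264R4.BA.pm_cyl D k y]
  calc ∏ j ∈ Finset.range k, (D.M j : ℝ≥0∞)⁻¹ ≤ ∏ _j ∈ Finset.range k, (2⁻¹ : ℝ≥0∞) := by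
        refine Finset.prod_le_prod' fun j _ => ?_
        rw [ENNReal.inv_le_inv]
        exact_mod_cast D.two_le j
    _ = (2⁻¹ : ℝ≥0∞) ^ k := by rw [Finset.prod_const, Finset.card_range]

/-- O9 (uses O3): no atoms -/
theorem pm_singleton (y : Bs D) : pm D {y} = 0 := by
  have h1 : ∀ k : ℕ, pm D {y} ≤ (2⁻¹ : ℝ≥0∞) ^ k := by
    intro k
    refine le_trans (measure_mono ?_) (pm_cyl_le D k y)
    intro z hz
    rw [mem_singleton_iff] at hz
    subst hz
    exact fun _ _ => rfl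
  have h2 : Tendsto (fun k : ℕ => (2⁻¹ : ℝ≥0∞) ^ k) atTop (𝓝 0) :=
    ENNReal.tendsto_pow_atTop_nhds_zero_of_lt_one (by
      rw [ENNReal.inv_lt_one]
      norm_num)
  exact le_antisymm (ge_of_tendsto' h2 h1) bot_le

end

end Pool.Agent.H264R4.BA
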