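import Pool.Agent.H264R4.BA.Defs2
import Pool.Agent.H264R4.BF.F_O9

namespace Pool.Agent.H264R4.BA

open MeasureTheory Set Filter Topology
open scoped ENNReal BigOperators Real

/-- O10 (uses O9) -/
theorem ae_notLast (D : OD) : ∀ᵐ y ∂(pm D), ∃ k, ¬ Last D y k := by
  rw [ae_iff]
  have hlast : ∀ k, D.M k - 1 < D.M k := fun k => by
    have := D.two_le k
    omega
  refine measure_mono_null ?_ (_root_.Pool.Agent.H264R4.BA.pm_singleton D (fun k => ⟨D.M k - 1, hlast k⟩))
  intro y hy
  simp only [not_exists, not_not, mem_setOf_eq] at hy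
  rw [mem_singleton_iff]
  funext k
  apply Fin.ext
  have h1 : (y k : ℕ) + 1 = D.M k := hy k
  show (y k : ℕ) = D.M k - 1
  omega

end Pool.Agent.H264R4.BA
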