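import Pool.Agent.H264R4.BA.Defs2
import Pool.Agent.H264R4.BF.F_L3
import Pool.Agent.H264R4.BF.F_L4
import Pool.Agent.H264R4.BF.F_O10

/-!
# L5: one step of the skyscraper map, almost everywhere
-/

namespace Pool.Agent.H264R4.BA

open MeasureTheory Set Filter Topology
open scoped ENNReal BigOperators Real

noncomputable section

variable (D : OD)

theorem ae_notLast_mu : ∀ᵐ p ∂(mu D), ∃ k, ¬ Last D p.1 k := by
  unfold mu Pool.Agent.H750F.Sky.mu
  apply Measure.ae_smul_measure
  apply ae_restrict_of_ae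
  exact Measure.quasiMeasurePreserving_fst.ae (_root_.Pool.Agent.H264R4.BA.ae_notLast D)



/-- L5 (uses L3, L4, O10) -/
theorem step_ae (M : Model D) (k : ℕ) (c : D.Th k) (n : ℕ) (hn : n + 1 < D.h k) :
    Lv D k c n =ᵐ[mu D] (M.T ⁻¹' Lv D k c (n + 1) : Set (Bs D × ℕ)) := by
  filter_upwards [ae_notLast_mu D] with p hp
  apply propext
  constructor
  · intro h
    exact _root_.Pool.Agent.H264R4.BA.step_fwd D M k c n hn p hp h
  · intro h
    exact _root_.Pool.Agent.H264R4.BA.step_back D M k c n p h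

end

end Pool.Agent.H264R4.BA
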