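import Pool.Agent.H264R4.BA.Defs2

/-!
# Task O5: cylinders determine a finite measure
-/

namespace Pool.Agent.H264R4.BA

open MeasureTheory Set Filter Topology Pool.Agent.H264R4.BA
open scoped ENNReal BigOperators Real

noncomputable section

variable (D : OD)

/-- the set of all cylinders -/
def o5_cyls : Set (Set (Bs D)) := {A | ∃ (k : ℕ) (w : Bs D), A = {y | ∀ j < k, y j = w j}}

theorem o5_pi : IsPiSystem (o5_cyls D) := by
  rintro _ ⟨k, w, rfl⟩ _ ⟨k', w', rfl⟩ ⟨z, hz, hz'⟩
  refine ⟨max k k', z, ?_⟩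
  ext y
  simp only [mem_inter_iff, mem_ofPred_eq]
  constructor
  · rintro ⟨h1, h2⟩ j hj
    rcases lt_max_iff.1 hj with h3 | h3
    · rw [h1 j h3, hz j h3]
    · rw [h2 j h3, hz' j h3]
  · intro h
    refine ⟨fun j hj => ?_, fun j hj => ?_⟩
    · rw [h j (lt_max_of_lt_left hj), hz j hj]
    · rw [h j (lt_max_of_lt_right hj), hz' j hj]

theorem o5_gen : (MeasurableSpace.pi : MeasurableSpace (Bs D)) =
    MeasurableSpace.generateFrom (o5_cyls D) := by
  apply le_antisymm
  · unfold MeasurableSpace.pi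
    refine iSup_le fun j => ?_
    rw [← measurable_iff_comap_le]
    refine @measurable_to_countable' _ _ _ _ (_) _ (fun a => ?_)
    let ext : (∀ i : Fin (j + 1), Fin (D.M i)) → Bs D := fun v i =>
      if h : i < j + 1 then v ⟨i, h⟩ else ⟨0, lt_of_lt_of_le Nat.zero_lt_two (D.two_le i)⟩
    have h1 : ((fun y : Bs D => y j) ⁻¹' {a}) =
        ⋃ v : (∀ i : Fin (j + 1), Fin (D.M i)), ⋃ (_ : v (Fin.last j) = a),
          {y : Bs D | ∀ i < j + 1, y i = ext v i} := by
      ext y
      simp only [mem_preimage, mem_singleton_iff, mem_iUnion, mem_ofPred_eq, exists_prop]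
      constructor
      · intro hy
        refine ⟨fun i => y i, hy, fun i hi => ?_⟩
        simp only [ext]
        rw [dif_pos hi]
      · rintro ⟨v, hv, h2⟩
        have h3 := h2 j (Nat.lt_succ_self j)
        rw [h3]
        simp only [ext]
        rw [dif_pos (Nat.lt_succ_self j)]
        exact hv
    rw [h1]
    refine @MeasurableSet.iUnion _ _ (_) _ _ (fun v => ?_)
    refine @MeasurableSet.iUnion _ _ (_) _ _ (fun _ => ?_)
    exact MeasurableSpace.measurableSet_generateFrom ⟨j + 1, ext v, rfl⟩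
  · refine MeasurableSpace.generateFrom_le ?_
    rintro _ ⟨k, w, rfl⟩
    have h1 : {y : Bs D | ∀ j < k, y j = w j} =
        ⋂ j ∈ Finset.range k, (fun y : Bs D => y j) ⁻¹' {w j} := by
      ext y
      simp
    rw [h1]
    exact Finset.measurableSet_biInter _ fun j _ => measurable_pi_apply j (measurableSet_singleton _)

/-- O5: cylinders determine a finite measure -/
theorem cyl_ext (ν ν' : Measure (Bs D)) [IsFiniteMeasure ν]
    (h : ∀ k (w : Bs D), ν {y | ∀ j < k, y j = w j} = ν' {y | ∀ j < k, y j = w j}) : ν = ν' := by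
  refine MeasureTheory.ext_of_generate_finite (o5_cyls D) (o5_gen D) (o5_pi D) ?_ ?_
  · rintro _ ⟨k, w, rfl⟩
    exact h k w
  · have := h 0 (fun k => ⟨0, lt_of_lt_of_le Nat.zero_lt_two (D.two_le k)⟩)
    simpa using this

end

end Pool.Agent.H264R4.BA
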