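import Pool.Agent.H264R4.BA.Defs2
import Pool.Agent.H264R4.BF.F_O3
import Pool.Agent.H264R4.BF.F_O5

namespace Pool.Agent.H264R4.BA

open MeasureTheory Set Filter Topology
open scoped ENNReal BigOperators Real

noncomputable section

variable (D : OD)

/-- the odometer acts injectively on words of length `k` -/
private theorem o6_inj (k : ℕ) (y w : Bs D) :
    (∀ j < k, odo D y j = odo D w j) ↔ (∀ j < k, y j = w j) := by
  induction k with
  | zero => simp
  | succ k ih =>
    constructor
    · intro h j hj
      have hlow : ∀ j < k, y j = w j := ih.mp (fun i hi => h i (by omega))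
      rcases Nat.lt_succ_iff_lt_or_eq.mp hj with hj' | rfl
      · exact hlow j hj'
      have hk := h j hj
      have hL : (∀ i < j, Last D y i) ↔ (∀ i < j, Last D w i) := by
        constructor
        · intro h1 i hi
          have := h1 i hi
          unfold Last at this ⊢
          rwa [← hlow i hi]
        · intro h1 i hi
          have := h1 i hi
          unfold Last at this ⊢
          rwa [hlow i hi]
      unfold odo at hk
      by_cases hc : ∀ i < j, Last D y i
      · have hc' := hL.mp hc
        rw [if_pos hc, if_pos hc'] at hk
        by_cases hy : (y j : ℕ) + 1 < D.M j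
        · by_cases hw : (w j : ℕ) + 1 < D.M j
          · rw [dif_pos hy, dif_pos hw] at hk
            have := Fin.mk.inj hk
            exact Fin.ext (by omega)
          · rw [dif_pos hy, dif_neg hw] at hk
            have := Fin.mk.inj hk
            omega
        · by_cases hw : (w j : ℕ) + 1 < D.M j
          · rw [dif_neg hy, dif_pos hw] at hk
            have := Fin.mk.inj hk
            omega
          · have h1 := (y j).isLt
            have h2 := (w j).isLt
            exact Fin.ext (by omega)
      · have hc' : ¬ ∀ i < j, Last D w i := fun h' => hc (hL.mpr h')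
        rw [if_neg hc, if_neg hc'] at hk
        exact hk
    · intro h j hj
      have hL : (∀ i < j, Last D y i) ↔ (∀ i < j, Last D w i) := by
        constructor
        · intro h1 i hi
          have := h1 i hi
          unfold Last at this ⊢
          rwa [← h i (by omega)]
        · intro h1 i hi
          have := h1 i hi
          unfold Last at this ⊢
          rwa [h i (by omega)]
      unfold odo
      by_cases hc : ∀ i < j, Last D y i
      · rw [if_pos hc, if_pos (hL.mp hc), h j hj]
      · rw [if_neg hc, if_neg (fun h' => hc (hL.mpr h')), h j hj]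

theorem odo_mp (S : Bs D ≃ᵐ Bs D) (hS : ∀ y, S y = odo D y) :
    MeasurePreserving S (pm D) (pm D) := by
  refine ⟨S.measurable, ?_⟩
  have : IsProbabilityMeasure ((pm D).map S) :=
    Measure.isProbabilityMeasure_map S.measurable.aemeasurable
  refine _root_.Pool.Agent.H264R4.BA.cyl_ext D _ _ ?_ 
  intro k w
  have hm : MeasurableSet {y : Bs D | ∀ j < k, y j = w j} := by
    have : {y : Bs D | ∀ j < k, y j = w j} = ⋂ j ∈ Finset.range k, {y : Bs D | y j = w j} := by
      ext y; simp
    rw [this]
    refine Finset.measurableSet_biInter _ fun j _ => ?_
    have hj : Measurable (fun y : Bs D => y j) := measurable_pi_apply j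
    exact hj (measurableSet_singleton (w j))
  rw [Measure.map_apply S.measurable hm, _root_.Pool.Agent.H264R4.BA.pm_cyl]
  have : S ⁻¹' {y : Bs D | ∀ j < k, y j = w j} = {y : Bs D | ∀ j < k, y j = S.symm w j} := by
    ext y
    simp only [mem_preimage, mem_setOf_eq]
    rw [hS]
    have h1 : w = odo D (S.symm w) := by rw [← hS, S.apply_symm_apply]
    conv_lhs => rw [h1]
    exact o6_inj D k y (S.symm w)
  rw [this, _root_.Pool.Agent.H264R4.BA.pm_cyl]

end

end Pool.Agent.H264R4.BA
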