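import Pool.Agent.H264R4.BA.Defs2
import Pool.Agent.H264R4.BF.F_C3
import Pool.Agent.H264R4.BF.F_C9
import Pool.Agent.H264R4.BF.F_O2
import Pool.Agent.H264R4.BF.F_O6

/-! Task L2 (helper617): existence of the model. -/

namespace Pool.Agent.H264R4.BA

open MeasureTheory Set Filter Topology
open scoped ENNReal BigOperators Real

noncomputable section

variable (D : OD)

/-- L2 (uses O2, O6, C3, C9 and `Pool.Agent.H750F.Sky.tower`, `mp_tower`) -/
theorem exists_model : Nonempty (Model D) := by
  obtain ⟨S, hS⟩ := _root_.Pool.Agent.H264R4.BA.odo_equiv D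
  have hmp := Pool.Agent.H750F.Sky.mp_tower (pm D) S (_root_.Pool.Agent.H264R4.BA.odo_mp D S hS) (roof D)
    (_root_.Pool.Agent.H264R4.BA.roof_pos D) (_root_.Pool.Agent.H264R4.BA.measurable_roof D)
  refine ⟨{
    S := S
    hS := hS
    T := Pool.Agent.H750F.Sky.tower S (roof D) (_root_.Pool.Agent.H264R4.BA.roof_pos D) (_root_.Pool.Agent.H264R4.BA.measurable_roof D)
    hT := ?_
    mp := ?_ }⟩
  · intro p
    change Pool.Agent.H750F.Sky.up S (roof D) p = _
    unfold Pool.Agent.H750F.Sky.up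
    rw [hS]
  · exact hmp.smul_measure (ENNReal.ofReal (D.β 0))

end

end Pool.Agent.H264R4.BA
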