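import Pool.Agent.H264R4.BA.Defs2

/-! Task O4: measure of cylinders with a prescribed class -/

namespace Pool.Agent.H264R4.BA

open MeasureTheory Set Filter Topology
open scoped ENNReal BigOperators Real

variable (D : OD)

private theorem O4_box (k : ℕ) (w : Bs D) (c : D.Th k) :
    {y : Bs D | (∀ j < k, y j = w j) ∧ D.cl k (y k) = c} =
      Set.pi (Finset.range (k + 1) : Set ℕ) (fun j => {i : Fin (D.M j) | (j < k → i = w j) ∧
        ∀ h : j = k, D.cl k (h ▸ i) = c}) := by
  ext y
  simp only [Set.mem_setOf_eq, Set.mem_pi, Finset.coe_range, Set.mem_Iio]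
  constructor
  · rintro ⟨h1, h2⟩ j hj
    refine ⟨fun h => h1 j h, fun h => ?_⟩
    subst h
    exact h2
  · intro h
    refine ⟨fun j hj => (h j (by omega)).1 hj, ?_⟩
    exact (h k (by omega)).2 rfl

private theorem O4_beta (k : ℕ) : D.β k * (Fintype.card (D.Th k) : ℝ) *
    ∏ j ∈ Finset.range k, (D.M j : ℝ) = D.β 0 := by
  induction k with
  | zero => simp [D.card_zero]
  | succ k ih =>
    rw [Finset.prod_range_succ]
    have h := D.β_succ k
    calc D.β (k + 1) * (Fintype.card (D.Th (k + 1)) : ℝ) *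
          ((∏ j ∈ Finset.range k, (D.M j : ℝ)) * (D.M k : ℝ)) =
        (D.β (k + 1) * (D.M k : ℝ) * (Fintype.card (D.Th (k + 1)) : ℝ)) *
          ∏ j ∈ Finset.range k, (D.M j : ℝ) := by ring
      _ = D.β 0 := by rw [h, ih]

private theorem O4_un (k : ℕ) (s : Finset (Fin (D.M k))) :
    un D k (s : Set (Fin (D.M k))) = ENNReal.ofReal ((s.card : ℝ) / (D.M k : ℝ)) := by
  have h2 := D.two_le k
  have h3 : (0 : ℝ) < (D.M k : ℝ) := by exact_mod_cast (by omega : 0 < D.M k)
  unfold un
  rw [Measure.smul_apply, Measure.count_apply_finset, smul_eq_mul,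
    ENNReal.ofReal_div_of_pos h3, ENNReal.ofReal_natCast, ENNReal.ofReal_natCast,
    ENNReal.div_eq_inv_mul]

/-- O4: measure of cylinders with a prescribed class -/
theorem pm_cyl_class (k : ℕ) (w : Bs D) (c : D.Th k) :
    pm D {y | (∀ j < k, y j = w j) ∧ D.cl k (y k) = c} = ENNReal.ofReal (D.β k / D.β 0) := by
  classical
  rw [O4_box]
  unfold pm
  rw [Measure.infinitePi_pi _ (fun i _ => MeasurableSet.of_discrete), Finset.prod_range_succ]
  have h1 : ∀ j ∈ Finset.range k, un D j {i : Fin (D.M j) | (j < k → i = w j) ∧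
      ∀ h : j = k, D.cl k (h ▸ i) = c} = ENNReal.ofReal ((D.M j : ℝ)⁻¹) := by
    intro j hj
    have hjk := Finset.mem_range.1 hj
    have e : {i : Fin (D.M j) | (j < k → i = w j) ∧ ∀ h : j = k, D.cl k (h ▸ i) = c} =
        (({w j} : Finset (Fin (D.M j))) : Set (Fin (D.M j))) := by
      ext i
      simp only [Set.mem_setOf_eq, Finset.coe_singleton, Set.mem_singleton_iff]
      constructor
      · rintro ⟨h1, -⟩
        exact h1 hjk
      · intro h
        exact ⟨fun _ => h, fun h' => absurd h' hjk.ne⟩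
    rw [e, O4_un, Finset.card_singleton, Nat.cast_one, one_div]
  have h2 : un D k {i : Fin (D.M k) | (k < k → i = w k) ∧ ∀ h : k = k, D.cl k (h ▸ i) = c} =
      ENNReal.ofReal (((Finset.univ.filter (fun i => D.cl k i = c)).card : ℝ) / (D.M k : ℝ)) := by
    have e : {i : Fin (D.M k) | (k < k → i = w k) ∧ ∀ h : k = k, D.cl k (h ▸ i) = c} =
        ((Finset.univ.filter (fun i => D.cl k i = c) : Finset (Fin (D.M k))) :
          Set (Fin (D.M k))) := by
      ext i
      simp
    rw [e, O4_un]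
  rw [Finset.prod_congr rfl h1, h2, ← ENNReal.ofReal_prod_of_nonneg (fun j _ => by positivity),
    ← ENNReal.ofReal_mul (Finset.prod_nonneg fun j _ => by positivity)]
  congr 1
  have hb := O4_beta D k
  have hβ := D.β_pos
  have hM : ∀ j, (0 : ℝ) < (D.M j : ℝ) := fun j => by
    have := D.two_le j
    exact_mod_cast (by omega : 0 < D.M j)
  have hP : (0 : ℝ) < ∏ j ∈ Finset.range k, (D.M j : ℝ) := Finset.prod_pos fun j _ => hM j
  have hbal : ((Finset.univ.filter (fun i => D.cl k i = c)).card : ℝ) *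
      (Fintype.card (D.Th k) : ℝ) = (D.M k : ℝ) := by exact_mod_cast D.bal k c
  have hT : (Fintype.card (D.Th k) : ℝ) ≠ 0 := by
    intro h
    rw [h, mul_zero] at hbal
    exact (hM k).ne hbal
  rw [Finset.prod_inv_distrib, ← hb]
  rw [← hbal]
  have hF : ((Finset.univ.filter (fun i => D.cl k i = c)).card : ℝ) ≠ 0 := by
    intro h
    rw [h, zero_mul] at hbal
    exact (hM k).ne hbal
  have hβk : D.β k ≠ 0 := by
    intro h
    rw [h, zero_mul, zero_mul] at hb
    exact hβ.ne hb
  field_simp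

end Pool.Agent.H264R4.BA
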