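import Pool.Agent.H264R4.BA.Defs2
import Pool.Agent.H264R4.BF.F_C1
import Pool.Agent.H264R4.BF.F_C3
import Pool.Agent.H264R4.BF.F_C9
import Pool.Agent.H264R4.BF.F_L1
import Pool.Agent.H264R4.BF.F_L2
import Pool.Agent.H264R4.BF.F_L5
import Pool.Agent.H264R4.BF.F_O4

/-!
# Task L6: measure of a level
-/

namespace Pool.Agent.H264R4.BA

open MeasureTheory Set Filter Topology
open scoped ENNReal BigOperators Real

noncomputable section

variable (D : OD)

/-- the zero of the odometer -/
private def l6_zero : Bs D := fun k => ⟨0, lt_of_lt_of_le Nat.zero_lt_two (D.two_le k)⟩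

private theorem l6_base (k : ℕ) (c : D.Th k) : mu D (Lv D k c 0) = ENNReal.ofReal (D.β k) := by
  have hpos : (0:ℝ) < D.β 0 := D.β_pos
  have hset : {b : Bs D | 0 < roof D b ∧ ((b, 0) : Bs D × ℕ) ∈ Lv D k c 0} =
      {y : Bs D | (∀ j < k, y j = l6_zero D j) ∧ D.cl k (y k) = c} := by
    ext b
    constructor
    · rintro ⟨-, -, h2, h3⟩
      have h4 : t D k b = 0 := h3
      refine ⟨fun j hj => ?_, h2⟩
      exact Fin.ext ((_root_.Pool.Agent.H264R4.BA.t_zero_iff D b k).1 h4 j hj)
    · rintro ⟨h1, h2⟩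
      have h4 : t D k b = 0 := (_root_.Pool.Agent.H264R4.BA.t_zero_iff D b k).2 (fun j hj => by rw [h1 j hj]; rfl)
      have h5 : 0 < roof D b := _root_.Pool.Agent.H264R4.BA.roof_pos D b
      exact ⟨h5, h5, h2, h4⟩
  unfold mu
  rw [Measure.smul_apply, Pool.Agent.H750F.Sky.mu_apply _ _ (_root_.Pool.Agent.H264R4.BA.measurable_roof D)
    (_root_.Pool.Agent.H264R4.BA.measurable_Lv D k c 0), tsum_eq_single 0, hset, _root_.Pool.Agent.H264R4.BA.pm_cyl_class D k _ c, smul_eq_mul,
    ← ENNReal.ofReal_mul hpos.le]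
  · congr 1
    field_simp
  · intro j hj
    have hempty : {b : Bs D | j < roof D b ∧ ((b, j) : Bs D × ℕ) ∈ Lv D k c 0} = ∅ := by
      ext b
      simp only [mem_empty_iff_false, iff_false]
      rintro ⟨-, -, -, h3⟩
      have h4 : t D k b + j = 0 := h3
      omega
    rw [hempty, measure_empty]

/-- L6 (uses L1, L5, O4, C1): measure of a level -/
theorem mu_Lv (k : ℕ) (c : D.Th k) (n : ℕ) (hn : n < D.h k) :
    mu D (Lv D k c n) = ENNReal.ofReal (D.β k) := by
  obtain ⟨M⟩ := _root_.Pool.Agent.H264R4.BA.exists_model D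
  induction n with
  | zero => exact l6_base D k c
  | succ n ih =>
    rw [← ih (by omega), measure_congr (_root_.Pool.Agent.H264R4.BA.step_ae D M k c n hn)]
    exact (M.mp.measure_preimage (_root_.Pool.Agent.H264R4.BA.measurable_Lv D k c (n+1)).nullMeasurableSet).symm

end

end Pool.Agent.H264R4.BA
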