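import Pool.Agent.H264R4.BA.Defs2
import Pool.Agent.H264R4.BF.F_C7
import Pool.Agent.H264R4.BF.F_C9
import Pool.Agent.H264R4.BF.F_L1
import Pool.Agent.H264R4.BF.F_L6
import Pool.Agent.H264R4.BF.F_O10

namespace Pool.Agent.H264R4.BA

open MeasureTheory Set Filter Topology
open scoped ENNReal BigOperators Real

noncomputable section

variable (D : OD)

/-- the part of the skyscraper seen by the towers of level `k` -/
private def L8W (k : ℕ) : Set (Bs D × ℕ) := {p | p.2 < roof D p.1 ∧ t D k p.1 + p.2 < D.h k}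

private lemma L8_eq (k : ℕ) : L8W D k =
    ⋃ q ∈ (Finset.univ ×ˢ Finset.range (D.h k) : Finset (D.Th k × ℕ)), Lv D k q.1 q.2 := by
  ext p
  simp only [L8W, mem_iUnion, Lv, mem_ofPred_eq, Finset.mem_product, Finset.mem_univ, true_and,
    Finset.mem_range, exists_prop, Prod.exists]
  constructor
  · rintro ⟨h1, h2⟩
    exact ⟨D.cl k (p.1 k), t D k p.1 + p.2, h2, h1, rfl, rfl⟩
  · rintro ⟨c, n, h2, h1, _, h3⟩
    exact ⟨h1, by omega⟩

private lemma L8_meas (k : ℕ) : mu D (L8W D k) =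
    ENNReal.ofReal (D.β k * (Fintype.card (D.Th k) : ℝ) * (D.h k : ℝ)) := by
  have hβ : ∀ k, 0 ≤ D.β k := by
    intro k
    induction k with
    | zero => exact D.β_pos.le
    | succ k ih =>
      have h1 := D.β_succ k
      have hM : (0 : ℝ) < D.M k := by exact_mod_cast (lt_of_lt_of_le Nat.zero_lt_two (D.two_le k))
      have hM' : 0 < D.M (k + 1) := lt_of_lt_of_le Nat.zero_lt_two (D.two_le (k + 1))
      have hc : (0 : ℝ) < Fintype.card (D.Th (k + 1)) := by
        exact_mod_cast Fintype.card_pos_iff.2 ⟨D.cl (k + 1) ⟨0, hM'⟩⟩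
      have h2 : 0 ≤ D.β (k + 1) * ((D.M k : ℝ) * (Fintype.card (D.Th (k + 1)) : ℝ)) := by
        rw [← mul_assoc, h1]
        exact mul_nonneg ih (Nat.cast_nonneg _)
      exact nonneg_of_mul_nonneg_left h2 (mul_pos hM hc)
  rw [L8_eq, measure_biUnion_finset]
  · have : ∀ q ∈ (Finset.univ ×ˢ Finset.range (D.h k) : Finset (D.Th k × ℕ)),
        mu D (Lv D k q.1 q.2) = ENNReal.ofReal (D.β k) := by
      intro q hq
      rw [Finset.mem_product, Finset.mem_range] at hq
      exact _root_.Pool.Agent.H264R4.BA.mu_Lv D k q.1 q.2 hq.2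
    rw [Finset.sum_congr rfl this, Finset.sum_const, Finset.card_product, Finset.card_univ,
      Finset.card_range, nsmul_eq_mul, mul_assoc, ENNReal.ofReal_mul (hβ k), mul_comm]
    congr 1
    rw [← Nat.cast_mul, ENNReal.ofReal_natCast]
  · intro q _ q' _ hqq
    rw [Function.onFun, Set.disjoint_left]
    rintro p ⟨_, h1, h2⟩ ⟨_, h3, h4⟩
    exact hqq (Prod.ext (h1.symm.trans h3) (h2.symm.trans h4))
  · intro q _
    exact _root_.Pool.Agent.H264R4.BA.measurable_Lv D k q.1 q.2

private lemma L8_mono : Monotone (L8W D) := by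
  apply monotone_nat_of_le_succ
  rintro k p ⟨h1, h2⟩
  refine ⟨h1, ?_⟩
  have h3 : t D (k + 1) p.1 = t D k p.1 + pp D k p.1 := by
    unfold t; rw [Finset.sum_range_succ]
  have h4 := D.pos_top k (D.cl (k + 1) (p.1 (k + 1))) (p.1 k)
  have h5 : pp D k p.1 = D.pos k (D.cl (k + 1) (p.1 (k + 1))) (p.1 k) := rfl
  omega

private lemma L8_measurable (k : ℕ) : MeasurableSet (L8W D k) := by
  rw [L8_eq]
  exact Finset.measurableSet_biUnion _ fun q _ => _root_.Pool.Agent.H264R4.BA.measurable_Lv D k q.1 q.2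

private lemma L8_compl : mu D (⋃ k, L8W D k)ᶜ = 0 := by
  have hm : MeasurableSet (⋃ k, L8W D k)ᶜ := (MeasurableSet.iUnion (L8_measurable D)).compl
  unfold mu
  rw [Measure.smul_apply, Pool.Agent.H750F.Sky.mu_apply _ _ (_root_.Pool.Agent.H264R4.BA.measurable_roof D) hm]
  have : ∀ j : ℕ, pm D {b | j < roof D b ∧ (b, j) ∈ (⋃ k, L8W D k)ᶜ} = 0 := by
    intro j
    have h0 := _root_.Pool.Agent.H264R4.BA.ae_notLast D
    rw [ae_iff] at h0
    refine measure_mono_null ?_ h0
    rintro b ⟨h1, h2⟩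
    rw [mem_ofPred_eq]
    intro h3
    obtain ⟨K0, hK⟩ := _root_.Pool.Agent.H264R4.BA.cover D b h3
    apply h2
    rw [mem_iUnion]
    exact ⟨K0, h1, hK K0 le_rfl j h1⟩
  rw [ENNReal.tsum_eq_zero.2 this, smul_zero]

/-- L8 (uses C7, L6): total mass one -/
theorem mu_univ : mu D Set.univ = 1 := by
  have h1 : mu D (⋃ k, L8W D k) = 1 := by
    have t1 := tendsto_measure_iUnion_atTop (μ := mu D) (L8_mono D)
    have t2 : Tendsto (mu D ∘ L8W D) atTop (𝓝 1) := by
      have h3 : mu D ∘ L8W D = fun k =>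
          ENNReal.ofReal (D.β k * (Fintype.card (D.Th k) : ℝ) * (D.h k : ℝ)) := by
        funext k
        exact L8_meas D k
      rw [h3, ← ENNReal.ofReal_one]
      exact ENNReal.tendsto_ofReal D.mass
    exact tendsto_nhds_unique t1 t2
  have h2 := L8_compl D
  rw [← h1, ← Set.union_compl_self (⋃ k, L8W D k)]
  exact le_antisymm ((measure_union_le _ _).trans (by rw [h2, add_zero])) (measure_mono Set.subset_union_left)

end

end Pool.Agent.H264R4.BA
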