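import Pool.Agent.H264R4.BA.Defs2
import Pool.Agent.H264R4.BF.F_L1
import Pool.Agent.H264R4.BF.F_L5
import Pool.Agent.H264R4.BF.F_L8

namespace Pool.Agent.H264R4.BA

open MeasureTheory Set Filter Topology Pool.Agent.H264R4.BA Pool.Agent.H728R2.BL
open scoped ENNReal BigOperators Real

noncomputable section

private theorem K1_ind_congr {X : Type*} [MeasurableSpace X] {μ : Measure X} [IsFiniteMeasure μ]
    {E F : Set X} (hE : MeasurableSet E) (hF : MeasurableSet F) (h : E =ᵐ[μ] F) :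
    Pool.Agent.H750F.Sky.ind μ E = Pool.Agent.H750F.Sky.ind μ F := by
  rw [Pool.Agent.H750F.Sky.ind_eq hE (measure_ne_top _ _),
    Pool.Agent.H750F.Sky.ind_eq hF (measure_ne_top _ _)]
  refine Lp.ext ?_
  refine (indicatorConstLp_coeFn (hs := hE) (hμs := measure_ne_top _ _)).trans ?_
  refine Filter.EventuallyEq.trans ?_
    (indicatorConstLp_coeFn (hs := hF) (hμs := measure_ne_top _ _)).symm
  exact indicator_ae_eq_of_ae_eq_set h

/-- K1 (uses L5): powers of the Koopman operator and levels -/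
theorem koop_Lv (D : OD) (M : Model D) (k : ℕ) (c : D.Th k) (n : ℕ) (hn : n < D.h k) :
    ((Pool.Agent.H750F.Sky.koop M.T M.mp) ^ (n : ℤ)) (Pool.Agent.H750F.Sky.ind (mu D) (Lv D k c 0))
      = Pool.Agent.H750F.Sky.ind (mu D) (Lv D k c n) := by
  have hfin : IsFiniteMeasure (mu D) := ⟨by rw [_root_.Pool.Agent.H264R4.BA.mu_univ]; exact ENNReal.one_lt_top⟩
  induction n with
  | zero => rfl
  | succ n ih =>
    have h1 : ((Pool.Agent.H750F.Sky.koop M.T M.mp) ^ ((n + 1 : ℕ) : ℤ))
        (Pool.Agent.H750F.Sky.ind (mu D) (Lv D k c 0))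
        = (Pool.Agent.H750F.Sky.koop M.T M.mp)
          (((Pool.Agent.H750F.Sky.koop M.T M.mp) ^ (n : ℤ))
            (Pool.Agent.H750F.Sky.ind (mu D) (Lv D k c 0))) := by
      rw [show ((n + 1 : ℕ) : ℤ) = 1 + (n : ℤ) by push_cast; ring, zpow_add, zpow_one,
        Pool.Agent.H750F.mul_ap]
    rw [h1, ih (by omega), Pool.Agent.H750F.Sky.koop_ind]
    have hm := _root_.Pool.Agent.H264R4.BA.measurable_Lv D k c n
    have hm' := _root_.Pool.Agent.H264R4.BA.measurable_Lv D k c (n + 1)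
    refine K1_ind_congr (M.T.symm.measurable hm) hm' ?_
    have h2 := _root_.Pool.Agent.H264R4.BA.step_ae D M k c n hn
    have h3 := (M.mp.symm M.T).quasiMeasurePreserving.preimage_ae_eq h2
    refine h3.trans ?_
    rw [← Set.preimage_comp]
    have h4 : (⇑M.T ∘ ⇑M.T.symm) = id := by
      funext x; simp
    rw [h4, Set.preimage_id]
    all_goals exact ae_eq_refl _

end

end Pool.Agent.H264R4.BA
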