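import Pool.Agent.H264R4.BA.Defs2
import Pool.Agent.H264R4.BF.F_C8

namespace Pool.Agent.H264R4.BA

open MeasureTheory Set Filter Topology
open scoped ENNReal BigOperators Real

noncomputable section

variable (D : OD)

/-- L7 (uses C8): levels split -/
theorem Lv_split (k : ℕ) (c : D.Th k) (n : ℕ) (hn : n < D.h k) :
    Lv D k c n = ⋃ c' : D.Th (k + 1), ⋃ i ∈ {i : Fin (D.M k) | D.cl k i = c},
      Lv D (k + 1) c' (D.pos k c' i + n) := by
  ext p
  simp only [mem_iUnion, Lv, mem_ofPred_eq]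
  constructor
  · rintro ⟨h1, h2⟩
    obtain ⟨i, hi, hp⟩ := (_root_.Pool.Agent.H264R4.BA.split D k c n hn p.1 p.2 h1).1 h2
    exact ⟨D.cl (k + 1) (p.1 (k + 1)), i, hi, h1, rfl, hp⟩
  · rintro ⟨c', i, hi, h1, hc', hp⟩
    refine ⟨h1, (_root_.Pool.Agent.H264R4.BA.split D k c n hn p.1 p.2 h1).2 ⟨i, hi, ?_⟩⟩
    rw [hc']
    exact hp

end

end Pool.Agent.H264R4.BA
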