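import Pool.Agent.H264R4.BA.Defs2
import Pool.Agent.H264R4.BF.F_C1
import Pool.Agent.H264R4.BF.F_K1
import Pool.Agent.H264R4.BF.F_L1
import Pool.Agent.H264R4.BF.F_L7
import Pool.Agent.H264R4.BF.F_L8

/-!
# K2: splitting of the base vectors
-/

namespace Pool.Agent.H264R4.BA

open MeasureTheory Set Filter Topology Pool.Agent.H728R2.BL
open scoped ENNReal BigOperators Real

noncomputable section

private theorem K2_ind_biUnion {X : Type*} [MeasurableSpace X] (μ : Measure X) [IsFiniteMeasure μ]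
    {ι : Type*} [DecidableEq ι] (E : ι → Set X) (hE : ∀ i, MeasurableSet (E i))
    (s : Finset ι) (hd : ∀ i ∈ s, ∀ j ∈ s, i ≠ j → Disjoint (E i) (E j)) :
    Pool.Agent.H750F.Sky.ind μ (⋃ i ∈ s, E i)
      = ∑ i ∈ s, Pool.Agent.H750F.Sky.ind μ (E i) := by
  induction s using Finset.induction_on with
  | empty =>
    simp only [Finset.notMem_empty, iUnion_of_empty, iUnion_empty, Finset.sum_empty]
    rw [Pool.Agent.H750F.Sky.ind_eq MeasurableSet.empty (measure_ne_top μ ∅)]
    exact indicatorConstLp_empty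
  | insert a s ha ih =>
    rw [Finset.sum_insert ha, Finset.set_biUnion_insert, Pool.Agent.H750F.Sky.ind_union (hE a)
      (measure_ne_top μ _) (s.measurableSet_biUnion fun i _ => hE i) (measure_ne_top μ _)]
    · rw [ih fun i hi j hj => hd i (Finset.mem_insert_of_mem hi) j (Finset.mem_insert_of_mem hj)]
    · rw [disjoint_iUnion₂_right]
      intro i hi
      refine hd a (Finset.mem_insert_self a s) i (Finset.mem_insert_of_mem hi) ?_
      rintro rfl
      exact ha hi

private theorem K2_pos_inj (D : OD) (k : ℕ) (c' : D.Th (k + 1)) (i j : Fin (D.M k))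
    (h : D.pos k c' i = D.pos k c' j) : i = j := by
  have hp := _root_.Pool.Agent.H264R4.BA.h_pos D k
  rcases lt_trichotomy i j with h1 | h1 | h1
  · have := D.pos_gap k c' i j h1
    omega
  · exact h1
  · have := D.pos_gap k c' j i h1
    omega

/-- K2: splitting of the base vectors -/
theorem ind_split (D : OD) (M : Model D) (k : ℕ) (c : D.Th k) :
    Pool.Agent.H750F.Sky.ind (mu D) (Lv D k c 0)
      = ∑ c' : D.Th (k + 1), ∑ i ∈ Finset.univ.filter (fun i => D.cl k i = c),
        ((Pool.Agent.H750F.Sky.koop M.T M.mp) ^ (D.pos k c' i : ℤ))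
          (Pool.Agent.H750F.Sky.ind (mu D) (Lv D (k + 1) c' 0)) := by
  haveI : IsProbabilityMeasure (mu D) := ⟨_root_.Pool.Agent.H264R4.BA.mu_univ D⟩
  have hp := _root_.Pool.Agent.H264R4.BA.h_pos D k
  have h1 : Lv D k c 0 = ⋃ q ∈ (Finset.univ : Finset (D.Th (k + 1))) ×ˢ
      (Finset.univ.filter (fun i : Fin (D.M k) => D.cl k i = c)),
      Lv D (k + 1) q.1 (D.pos k q.1 q.2) := by
    rw [_root_.Pool.Agent.H264R4.BA.Lv_split D k c 0 hp]
    ext p
    simp only [mem_iUnion, Finset.mem_product, Finset.mem_univ, Finset.mem_filter, true_and,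
      add_zero, mem_setOf_eq]
    constructor
    · rintro ⟨c', i, hi, h⟩
      exact ⟨(c', i), hi, h⟩
    · rintro ⟨q, hq, h⟩
      exact ⟨q.1, q.2, hq, h⟩
  rw [h1, K2_ind_biUnion (mu D) (fun q : D.Th (k + 1) × Fin (D.M k) =>
    Lv D (k + 1) q.1 (D.pos k q.1 q.2)) (fun q => _root_.Pool.Agent.H264R4.BA.measurable_Lv D _ _ _), Finset.sum_product]
  · refine Finset.sum_congr rfl fun c' _ => Finset.sum_congr rfl fun i _ => ?_
    refine (_root_.Pool.Agent.H264R4.BA.koop_Lv D M (k + 1) c' (D.pos k c' i) ?_).symm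
    have := D.pos_top k c' i
    omega
  · intro q _ q' _ hne
    rw [Set.disjoint_left]
    intro p hp1 hp2
    apply hne
    obtain ⟨_, h2, h3⟩ := hp1
    obtain ⟨_, h5, h6⟩ := hp2
    obtain ⟨c1, i1⟩ := q
    obtain ⟨c2, i2⟩ := q'
    simp only at h2 h3 h5 h6
    have hc : c1 = c2 := h2.symm.trans h5
    subst hc
    rw [K2_pos_inj D k c1 i1 i2 (h3.symm.trans h6)]

end

end Pool.Agent.H264R4.BA
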