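import Pool.Agent.H264R4.BA.Defs2
import Pool.Agent.H264R4.BF.F_K1
import Pool.Agent.H264R4.BF.F_L1
import Pool.Agent.H264R4.BF.F_L8

/-! Project BANACH, part A, task K3: indicator vectors of unions of levels. -/

namespace Pool.Agent.H264R4.BA

open MeasureTheory Set Filter Topology Pool.Agent.H728R2.BL
open scoped ENNReal BigOperators Real

noncomputable section

private theorem K3_ind_empty {X : Type*} [MeasurableSpace X] (μ : Measure X) :
    Pool.Agent.H750F.Sky.ind μ (∅ : Set X) = 0 := by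
  rw [Pool.Agent.H750F.Sky.ind_eq MeasurableSet.empty (by simp)]
  exact indicatorConstLp_empty

private theorem K3_ind_biUnion {X : Type*} [MeasurableSpace X] (μ : Measure X)
    [IsFiniteMeasure μ] {ι : Type*} [DecidableEq ι] (s : Finset ι) (E : ι → Set X)
    (hE : ∀ i ∈ s, MeasurableSet (E i)) (hd : (s : Set ι).PairwiseDisjoint E) :
    Pool.Agent.H750F.Sky.ind μ (⋃ i ∈ s, E i) = ∑ i ∈ s, Pool.Agent.H750F.Sky.ind μ (E i) := by
  induction s using Finset.induction_on with
  | empty =>
    simp only [Finset.notMem_empty, Set.iUnion_of_empty, Set.iUnion_empty, Finset.sum_empty]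
    exact K3_ind_empty μ
  | insert a s ha ih =>
    have h1 : MeasurableSet (⋃ i ∈ s, E i) :=
      Finset.measurableSet_biUnion s fun i hi => hE i (Finset.mem_insert_of_mem hi)
    have h2 : Disjoint (E a) (⋃ i ∈ s, E i) := by
      rw [Set.disjoint_iUnion_right]
      intro i
      rw [Set.disjoint_iUnion_right]
      intro hi
      refine hd (by simp) (by simp [hi]) ?_
      rintro rfl
      exact ha hi
    rw [Finset.sum_insert ha, ← ih (fun i hi => hE i (Finset.mem_insert_of_mem hi))
      (hd.subset (by simp))]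
    rw [Finset.set_biUnion_insert]
    exact Pool.Agent.H750F.Sky.ind_union (hE a (Finset.mem_insert_self a s)) (measure_ne_top μ _)
      h1 (measure_ne_top μ _) h2

/-- K3 (uses K1, L1, L6): indicator vectors of unions of levels -/
theorem VS_ind (D : OD) (M : Model D) (k : ℕ) (A : D.Th k → Finset ℕ)
    (hA : ∀ c, ∀ a ∈ A c, a < D.h k) :
    VS (Pool.Agent.H750F.Sky.koop M.T M.mp)
        (fun c => Pool.Agent.H750F.Sky.ind (mu D) (Lv D k c 0)) A
      = Pool.Agent.H750F.Sky.ind (mu D) (LS D k A) := by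
  classical
  have : IsFiniteMeasure (mu D) := ⟨by rw [_root_.Pool.Agent.H264R4.BA.mu_univ]; exact ENNReal.one_lt_top⟩
  unfold VS
  have h1 : ∀ c, ∑ n ∈ A c, ((Pool.Agent.H750F.Sky.koop M.T M.mp) ^ (n : ℤ))
      ((fun c => Pool.Agent.H750F.Sky.ind (mu D) (Lv D k c 0)) c)
      = ∑ n ∈ A c, Pool.Agent.H750F.Sky.ind (mu D) (Lv D k c n) := by
    intro c
    refine Finset.sum_congr rfl fun n hn => ?_
    exact _root_.Pool.Agent.H264R4.BA.koop_Lv D M k c n (hA c n hn)
  rw [Finset.sum_congr rfl fun c _ => h1 c, Finset.sum_sigma']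
  rw [← K3_ind_biUnion (mu D) (Finset.univ.sigma A) (fun x => Lv D k x.1 x.2)
    (fun x _ => _root_.Pool.Agent.H264R4.BA.measurable_Lv D k x.1 x.2)]
  · congr 1
    ext p
    simp only [LS, Set.mem_iUnion, Finset.mem_sigma, Finset.mem_univ, true_and, exists_prop,
      Sigma.exists]
  · intro x _ y _ hxy
    rw [Function.onFun, Set.disjoint_left]
    rintro p ⟨_, hx2, hx3⟩ ⟨_, hy2, hy3⟩
    apply hxy
    obtain ⟨x1, x2⟩ := x
    obtain ⟨y1, y2⟩ := y
    simp only at hx2 hx3 hy2 hy3
    subst hx2 hx3 hy2 hy3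
    rfl

end

end Pool.Agent.H264R4.BA
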