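import Pool.Agent.H264R4.BA.Defs2
import Pool.Agent.H264R4.BF.F_C1
import Pool.Agent.H264R4.BF.F_L1
import Pool.Agent.H264R4.BF.F_L5
import Pool.Agent.H264R4.BF.F_L6
import Pool.Agent.H264R4.BF.F_L8

namespace Pool.Agent.H264R4.BA

open MeasureTheory Set Filter Topology
open scoped ENNReal BigOperators Real

noncomputable section

variable (D : OD)

private theorem L15_pos (k : ℕ) : 0 < D.β k ∧ (0 : ℝ) < (Fintype.card (D.Th k) : ℝ) := by
  induction k with
  | zero => exact ⟨D.β_pos, by rw [D.card_zero]; norm_num⟩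
  | succ k ih =>
    have h1 := D.β_succ k
    have h2 : 0 < D.β k * (Fintype.card (D.Th k) : ℝ) := mul_pos ih.1 ih.2
    rw [← h1] at h2
    have hM : (0 : ℝ) < (D.M k : ℝ) := by
      have := D.two_le k
      exact_mod_cast (by omega : 0 < D.M k)
    have hc0 : (0 : ℝ) ≤ (Fintype.card (D.Th (k + 1)) : ℝ) := Nat.cast_nonneg _
    have hc : (0 : ℝ) < (Fintype.card (D.Th (k + 1)) : ℝ) := by
      rcases hc0.eq_or_lt with h | h
      · rw [← h] at h2; simp at h2
      · exact h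
    refine ⟨?_, hc⟩
    have h3 : 0 < D.β (k + 1) * D.M k := (pos_iff_pos_of_mul_pos h2).2 hc
    exact (pos_iff_pos_of_mul_pos h3).2 hM

private theorem L15_disj {k : ℕ} {c c' : D.Th k} {n n' : ℕ} {p : Bs D × ℕ}
    (h : p ∈ Lv D k c n) (h' : p ∈ Lv D k c' n') : c = c' ∧ n = n' := by
  obtain ⟨_, h1, h2⟩ := h
  obtain ⟨_, h3, h4⟩ := h'
  exact ⟨h1 ▸ h3, h2 ▸ h4⟩

private theorem L15_iter (M : Model D) (k : ℕ) (c : D.Th k) (m : ℕ) : ∀ a : ℕ, a + m < D.h k →
    Lv D k c a =ᵐ[mu D] ((M.T^[m]) ⁻¹' Lv D k c (a + m) : Set (Bs D × ℕ)) := by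
  induction m with
  | zero => intro a _; simp only [Function.iterate_zero, Set.preimage_id, add_zero]; exact ae_eq_refl _
  | succ m ih =>
    intro a ha
    have h1 := _root_.Pool.Agent.H264R4.BA.step_ae D M k c a (by omega)
    have h2 := ih (a + 1) (by omega)
    have h3 := M.mp.quasiMeasurePreserving.preimage_ae_eq h2
    refine h1.trans ?_
    refine h3.trans ?_
    rw [← Set.preimage_comp, ← Function.iterate_succ]
    rw [show a + 1 + m = a + (m + 1) by ring]
    all_goals exact ae_eq_refl _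

private theorem L15_LS (k : ℕ) (A : D.Th k → Finset ℕ) :
    LS D k A = ⋃ x ∈ (Finset.univ.sigma A : Finset (Σ _ : D.Th k, ℕ)), Lv D k x.1 x.2 := by
  ext p
  simp only [LS, mem_iUnion, Finset.mem_sigma, Finset.mem_univ, true_and]
  constructor
  · rintro ⟨c, n, hn, hp⟩
    exact ⟨⟨c, n⟩, hn, hp⟩
  · rintro ⟨⟨c, n⟩, hn, hp⟩
    exact ⟨c, n, hn, hp⟩

private theorem L15_mLS (k : ℕ) (A : D.Th k → Finset ℕ) : MeasurableSet (LS D k A) := by
  rw [L15_LS]
  exact Finset.measurableSet_biUnion _ fun x _ => _root_.Pool.Agent.H264R4.BA.measurable_Lv D k x.1 x.2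

private theorem L15_sum (k : ℕ) (A : D.Th k → Finset ℕ) (X : Set (Bs D × ℕ))
    (hX : MeasurableSet X) :
    (mu D (LS D k A ∩ X)) = ∑ x ∈ (Finset.univ.sigma A : Finset (Σ _ : D.Th k, ℕ)),
      mu D (Lv D k x.1 x.2 ∩ X) := by
  rw [L15_LS, Set.iUnion₂_inter]
  refine measure_biUnion_finset ?_ fun x _ => (_root_.Pool.Agent.H264R4.BA.measurable_Lv D k x.1 x.2).inter hX
  intro x _ y _ hxy
  refine Set.disjoint_left.2 fun p hp hp' => hxy ?_
  obtain ⟨h1, h2⟩ := L15_disj D hp.1 hp'.1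
  rcases x with ⟨c, a⟩
  rcases y with ⟨c', a'⟩
  simp only at h1 h2
  subst h1
  subst h2
  rfl

/-- L15 (uses L1, L5, L6, L8): correlations -/
theorem corr (M : Model D) (k : ℕ) (A B : D.Th k → Finset ℕ) (hA : ∀ c, ∀ a ∈ A c, a < D.h k)
    (hB : ∀ c, ∀ b ∈ B c, b < D.h k) (m : ℕ) :
    ∃ δ : ℝ, 0 ≤ δ ∧ δ ≤ (m : ℝ) / (D.h k : ℝ) ∧
      (mu D (LS D k A ∩ (M.T^[m]) ⁻¹' (LS D k B))).toReal
        = D.β k * (∑ c, ((A c).filter (fun a => a + m ∈ B c)).card : ℕ) + δ := by
  classical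
  have hfin : IsFiniteMeasure (mu D) := ⟨by rw [_root_.Pool.Agent.H264R4.BA.mu_univ]; exact ENNReal.one_lt_top⟩
  obtain ⟨hβ, hcard⟩ := L15_pos D k
  have hh : 0 < D.h k := _root_.Pool.Agent.H264R4.BA.h_pos D k
  have hmpm := M.mp.iterate m
  have hmX : MeasurableSet ((M.T^[m]) ⁻¹' (LS D k B)) := hmpm.measurable (L15_mLS D k B)
  set X := (M.T^[m]) ⁻¹' (LS D k B) with hXdef
  have hval : ∀ x : (Σ _ : D.Th k, ℕ), x.2 < D.h k → x.2 + m < D.h k →
      (mu D (Lv D k x.1 x.2 ∩ X)).toReal = if x.2 + m ∈ B x.1 then D.β k else 0 := by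
    rintro ⟨c, a⟩ ha ham
    simp only at ha ham ⊢
    have h1 : (Lv D k c a ∩ X : Set (Bs D × ℕ)) =ᵐ[mu D]
        ((M.T^[m]) ⁻¹' (Lv D k c (a + m) ∩ LS D k B) : Set (Bs D × ℕ)) := by
      rw [Set.preimage_inter]
      exact (L15_iter D M k c m a ham).inter (ae_eq_refl _)
    rw [measure_congr h1, hmpm.measure_preimage
      (((_root_.Pool.Agent.H264R4.BA.measurable_Lv D k c (a + m)).inter (L15_mLS D k B)).nullMeasurableSet)]
    split_ifs with hb
    · have h2 : Lv D k c (a + m) ∩ LS D k B = Lv D k c (a + m) := by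
        refine Set.inter_eq_left.2 fun p hp => ?_
        simp only [LS, mem_iUnion]
        exact ⟨c, a + m, hb, hp⟩
      rw [h2, _root_.Pool.Agent.H264R4.BA.mu_Lv D k c (a + m) ham, ENNReal.toReal_ofReal hβ.le]
    · have h2 : Lv D k c (a + m) ∩ LS D k B = ∅ := by
        refine Set.eq_empty_of_forall_notMem fun p hp => hb ?_
        obtain ⟨hp1, hp2⟩ := hp
        simp only [LS, mem_iUnion] at hp2
        obtain ⟨c', n', hn', hp'⟩ := hp2
        obtain ⟨h3, h4⟩ := L15_disj D hp1 hp'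
        subst h3
        rw [h4]
        exact hn'
      rw [h2]
      simp
  have hle : ∀ x : (Σ _ : D.Th k, ℕ), x.2 < D.h k →
      (mu D (Lv D k x.1 x.2 ∩ X)).toReal ≤ D.β k := by
    rintro ⟨c, a⟩ ha
    simp only at ha ⊢
    have h1 : mu D (Lv D k c a ∩ X) ≤ mu D (Lv D k c a) := measure_mono Set.inter_subset_left
    have h2 := ENNReal.toReal_mono (measure_ne_top _ _) h1
    rw [_root_.Pool.Agent.H264R4.BA.mu_Lv D k c a ha, ENNReal.toReal_ofReal hβ.le] at h2
    exact h2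
  -- total mass
  have htot : D.β k * ((Fintype.card (D.Th k) : ℝ) * (D.h k : ℝ)) ≤ 1 := by
    have h1 : mu D (LS D k (fun _ => Finset.range (D.h k)) ∩ Set.univ) ≤ 1 := by
      rw [← _root_.Pool.Agent.H264R4.BA.mu_univ D]
      exact measure_mono (Set.subset_univ _)
    rw [L15_sum D k _ _ MeasurableSet.univ] at h1
    have h2 : ∀ x ∈ (Finset.univ.sigma (fun _ => Finset.range (D.h k)) :
        Finset (Σ _ : D.Th k, ℕ)), mu D (Lv D k x.1 x.2 ∩ Set.univ) = ENNReal.ofReal (D.β k) := by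
      intro x hx
      rw [Set.inter_univ]
      refine _root_.Pool.Agent.H264R4.BA.mu_Lv D k x.1 x.2 ?_
      simpa using hx
    rw [Finset.sum_congr rfl h2, Finset.sum_const, Finset.card_sigma] at h1
    simp only [Finset.card_range, Finset.sum_const, Finset.card_univ, smul_eq_mul] at h1
    have h3 := ENNReal.toReal_mono ENNReal.one_ne_top h1
    rw [ENNReal.toReal_nsmul, ENNReal.toReal_ofReal hβ.le, ENNReal.toReal_one, nsmul_eq_mul] at h3
    push_cast at h3
    linarith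
  -- the sum
  set F : Finset (Σ _ : D.Th k, ℕ) := Finset.univ.sigma A with hF
  have hFlt : ∀ x ∈ F, x.2 < D.h k := by
    intro x hx
    rw [hF, Finset.mem_sigma] at hx
    exact hA x.1 x.2 hx.2
  refine ⟨∑ x ∈ F with ¬ (x.2 + m < D.h k), (mu D (Lv D k x.1 x.2 ∩ X)).toReal,
    Finset.sum_nonneg fun x _ => ENNReal.toReal_nonneg, ?_, ?_⟩
  · have h1 : ∑ x ∈ F with ¬ (x.2 + m < D.h k), (mu D (Lv D k x.1 x.2 ∩ X)).toReal
        ≤ ∑ x ∈ F with ¬ (x.2 + m < D.h k), D.β k := by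
      refine Finset.sum_le_sum fun x hx => hle x ?_
      exact hFlt x (Finset.mem_filter.1 hx).1
    refine h1.trans ?_
    rw [Finset.sum_const, nsmul_eq_mul]
    have h2 : (F.filter fun x => ¬ (x.2 + m < D.h k)).card ≤ Fintype.card (D.Th k) * m := by
      have h3 : (F.filter fun x => ¬ (x.2 + m < D.h k)) ⊆
          (Finset.univ.sigma fun _ => Finset.Ico (D.h k - m) (D.h k) :
            Finset (Σ _ : D.Th k, ℕ)) := by
        intro x hx
        rw [Finset.mem_filter] at hx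
        have h4 := hFlt x hx.1
        rw [Finset.mem_sigma]
        refine ⟨Finset.mem_univ _, ?_⟩
        rw [Finset.mem_Ico]
        exact ⟨by have := hx.2; omega, h4⟩
      refine (Finset.card_le_card h3).trans ?_
      rw [Finset.card_sigma]
      simp only [Nat.card_Ico, Finset.sum_const, Finset.card_univ, smul_eq_mul]
      exact Nat.mul_le_mul_left _ (by omega)
    have h3 : (((F.filter fun x => ¬ (x.2 + m < D.h k)).card : ℕ) : ℝ)
        ≤ (Fintype.card (D.Th k) : ℝ) * m := by exact_mod_cast h2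
    have hh' : (0 : ℝ) < D.h k := by exact_mod_cast hh
    rw [le_div_iff₀ hh']
    have hm : (0 : ℝ) ≤ m := Nat.cast_nonneg m
    calc (((F.filter fun x => ¬ (x.2 + m < D.h k)).card : ℕ) : ℝ) * D.β k * D.h k
        ≤ ((Fintype.card (D.Th k) : ℝ) * m) * D.β k * D.h k := by gcongr
      _ = (m : ℝ) * (D.β k * ((Fintype.card (D.Th k) : ℝ) * (D.h k : ℝ))) := by ring
      _ ≤ (m : ℝ) * 1 := by gcongr
      _ = m := mul_one _
  · rw [L15_sum D k A X hmX, ENNReal.toReal_sum (fun x _ => measure_ne_top _ _),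
      ← Finset.sum_filter_add_sum_filter_not F (fun x => x.2 + m < D.h k)]
    congr 1
    have h1 : ∑ x ∈ F with x.2 + m < D.h k, (mu D (Lv D k x.1 x.2 ∩ X)).toReal
        = ∑ x ∈ F with x.2 + m < D.h k, if x.2 + m ∈ B x.1 then D.β k else 0 := by
      refine Finset.sum_congr rfl fun x hx => ?_
      rw [Finset.mem_filter] at hx
      exact hval x (hFlt x hx.1) hx.2
    rw [h1]
    have h2 : ∑ x ∈ F with x.2 + m < D.h k, (if x.2 + m ∈ B x.1 then D.β k else 0)
        = ∑ x ∈ F, if x.2 + m ∈ B x.1 then D.β k else 0 := by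
      rw [Finset.sum_filter]
      refine Finset.sum_congr rfl fun x _ => ?_
      by_cases hb : x.2 + m ∈ B x.1
      · rw [if_pos (hB _ _ hb)]
      · rw [if_neg hb]; simp
    rw [h2, hF, Finset.sum_sigma]
    push_cast
    rw [Finset.mul_sum]
    refine Finset.sum_congr rfl fun c _ => ?_
    rw [← Finset.sum_filter, Finset.sum_const, nsmul_eq_mul, mul_comm]

end

end Pool.Agent.H264R4.BA
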