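import Pool.Agent.H264R4.BA.Defs2
import Pool.Agent.H264R4.BF.F_K3
import Pool.Agent.H264R4.BF.F_L1
import Pool.Agent.H264R4.BF.F_L15
import Pool.Agent.H264R4.BF.F_L8

namespace Pool.Agent.H264R4.BA

open MeasureTheory Set Filter Topology Pool.Agent.H728R2.BL
open scoped ENNReal BigOperators Real

noncomputable section

private lemma K4_shneg {X : Type*} [MeasurableSpace X] (T : X ≃ᵐ X) (m : ℕ) (E : Set X) :
    Pool.Agent.H750F.Sky.sh T (-(m : ℤ)) E = ((⇑T)^[m]) ⁻¹' E := by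
  induction m with
  | zero => simp [Pool.Agent.H750F.Sky.sh_zero]
  | succ m ih =>
    have h : -((m + 1 : ℕ) : ℤ) = -1 + -(m : ℤ) := by push_cast; ring
    rw [h, Pool.Agent.H750F.Sky.sh_add, ih, Pool.Agent.H750F.Sky.sh_neg_one, ← preimage_comp,
      Function.iterate_succ]

private lemma K4_measLS (D : OD) (k : ℕ) (A : D.Th k → Finset ℕ) : MeasurableSet (LS D k A) := by
  unfold LS
  exact MeasurableSet.iUnion fun c => Finset.measurableSet_biUnion _ fun n _ => _root_.Pool.Agent.H264R4.BA.measurable_Lv D k c n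

private lemma K4_fin (D : OD) (E : Set (Bs D × ℕ)) : mu D E ≠ ∞ := by
  have h1 : mu D E ≤ 1 := by
    rw [← _root_.Pool.Agent.H264R4.BA.mu_univ D]; exact measure_mono (subset_univ _)
  exact ne_top_of_le_ne_top ENNReal.one_ne_top h1

/-- K4 (uses K3, L15): correlations in `L²` -/
theorem corr_ind (D : OD) (M : Model D) (k : ℕ) (A B : D.Th k → Finset ℕ)
    (hA : ∀ c, ∀ a ∈ A c, a < D.h k) (hB : ∀ c, ∀ b ∈ B c, b < D.h k) (m : ℕ) :
    ∃ δ : ℝ, 0 ≤ δ ∧ δ ≤ (m : ℝ) / (D.h k : ℝ) ∧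
      inner ℂ (((Pool.Agent.H750F.Sky.koop M.T M.mp) ^ (m : ℤ))
          (VS (Pool.Agent.H750F.Sky.koop M.T M.mp)
            (fun c => Pool.Agent.H750F.Sky.ind (mu D) (Lv D k c 0)) A))
        (VS (Pool.Agent.H750F.Sky.koop M.T M.mp)
            (fun c => Pool.Agent.H750F.Sky.ind (mu D) (Lv D k c 0)) B)
        = ((D.β k * (∑ c, ((A c).filter (fun a => a + m ∈ B c)).card : ℕ) + δ : ℝ) : ℂ) := by
  obtain ⟨δ, h0, h1, h2⟩ := _root_.Pool.Agent.H264R4.BA.corr D M k A B hA hB m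
  refine ⟨δ, h0, h1, ?_⟩
  have hmA := K4_measLS D k A
  have hmB := K4_measLS D k B
  rw [_root_.Pool.Agent.H264R4.BA.VS_ind D M k A hA, _root_.Pool.Agent.H264R4.BA.VS_ind D M k B hB, Pool.Agent.H750F.Sky.koop_zpow_ind,
    Pool.Agent.H750F.Sky.ind_inner (Pool.Agent.H750F.Sky.measurable_sh M.T m hmA) (K4_fin D _)
      hmB (K4_fin D _), ← h2]
  congr 1
  show (mu D _).toReal = (mu D _).toReal
  congr 1
  have hm := Pool.Agent.H750F.Sky.measurable_sh M.T m hmA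
  rw [← Pool.Agent.H750F.Sky.measure_sh M.T M.mp (-(m : ℤ)) (hm.inter hmB),
    Pool.Agent.H750F.Sky.sh_inter, ← Pool.Agent.H750F.Sky.sh_add, K4_shneg,
    neg_add_cancel, Pool.Agent.H750F.Sky.sh_zero]

end

end Pool.Agent.H264R4.BA
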