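import Pool.Agent.H264R4.BA.Defs2
import Pool.Agent.H264R4.BF.F_C1
import Pool.Agent.H264R4.BF.F_C2
import Pool.Agent.H264R4.BF.F_C6

/-! L11: levels are cylinders. -/

namespace Pool.Agent.H264R4.BA

open MeasureTheory Set Filter Topology
open scoped ENNReal BigOperators Real

noncomputable section

variable (D : OD)

private theorem L11_pp (k : ℕ) (y w : Bs D) (h : ∀ l < k, y l = w l)
    (hc : D.cl k (y k) = D.cl k (w k)) (j : ℕ) (hj : j < k) : pp D j y = pp D j w := by
  have h1 : D.cl (j+1) (y (j+1)) = D.cl (j+1) (w (j+1)) := by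
    rcases Nat.lt_or_ge (j+1) k with h2 | h2
    · rw [h (j+1) h2]
    · have e : j + 1 = k := by omega
      subst e
      exact hc
  unfold pp
  rw [h1, h j hj]

private theorem L11_t (k : ℕ) (y w : Bs D) (h : ∀ l < k, y l = w l)
    (hc : D.cl k (y k) = D.cl k (w k)) (K : ℕ) (hK : K ≤ k) : t D K y = t D K w := by
  unfold t
  apply Finset.sum_congr rfl
  intro j hj
  exact L11_pp D k y w h hc j (by have := Finset.mem_range.1 hj; omega)

theorem cyl_level (k : ℕ) (c : D.Th k) (w : Bs D) (hw : ∃ l < k, ¬ Last D w l)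
    (hc : D.cl k (w k) = c) :
    (∀ y : Bs D, (∀ l < k, y l = w l) → D.cl k (y k) = c → roof D y = roof D w ∧
      t D k y = t D k w) ∧
    (∀ j < roof D w, {p : Bs D × ℕ | (∀ l < k, p.1 l = w l) ∧ D.cl k (p.1 k) = c ∧ p.2 = j}
      = Lv D k c (t D k w + j)) ∧
    (∀ j < roof D w, t D k w + j < D.h k) := by
  classical
  -- the first non-last digit
  have hw' : ∃ l, l < k ∧ ¬ Last D w l := hw
  obtain ⟨hl1, hl2⟩ := Nat.find_spec hw'
  have hl3 : ∀ j < Nat.find hw', Last D w j := by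
    intro j hj
    by_contra hn
    exact Nat.find_min hw' hj ⟨by omega, hn⟩
  generalize Nat.find hw' = l at hl1 hl2 hl3
  have hwl : (w l : ℕ) + 1 < D.M l := by
    have h1 := (w l).2
    unfold Last at hl2
    omega
  have P1 : ∀ y : Bs D, (∀ l < k, y l = w l) → D.cl k (y k) = c → roof D y = roof D w ∧
      t D k y = t D k w := by
    intro y hy hyc
    have hcc : D.cl k (y k) = D.cl k (w k) := by rw [hyc, hc]
    refine ⟨?_, L11_t D k y w hy hcc k le_rfl⟩
    have hyl : (y l : ℕ) + 1 < D.M l := by rw [hy l hl1]; exact hwl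
    have hyL : ∀ j < l, Last D y j := by
      intro j hj
      have := hl3 j hj
      unfold Last at this ⊢
      rw [hy j (by omega)]
      exact this
    obtain ⟨_, a1, _⟩ := _root_.Pool.Agent.H264R4.BA.t_odo D y l hyL hyl
    obtain ⟨_, b1, _⟩ := _root_.Pool.Agent.H264R4.BA.t_odo D w l hl3 hwl
    have e1 : t D (l+1) y = t D (l+1) w := L11_t D k y w hy hcc (l+1) (by omega)
    have e2 : D.cl (l+1) (y (l+1)) = D.cl (l+1) (w (l+1)) := by
      rcases Nat.lt_or_ge (l+1) k with h2 | h2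
      · rw [hy (l+1) h2]
      · have e : l + 1 = k := by omega
        subst e
        exact hcc
    have e3 : (⟨(y l : ℕ) + 1, hyl⟩ : Fin (D.M l)) = ⟨(w l : ℕ) + 1, hwl⟩ := by
      apply Fin.ext
      show (y l : ℕ) + 1 = (w l : ℕ) + 1
      rw [hy l hl1]
    rw [e1, e2, e3] at a1
    omega
  refine ⟨P1, ?_, ?_⟩
  · intro j hj
    ext p
    simp only [Lv, Set.mem_setOf_eq]
    constructor
    · rintro ⟨h1, h2, h3⟩
      obtain ⟨r1, r2⟩ := P1 p.1 h1 h2
      exact ⟨by rw [r1, h3]; exact hj, h2, by rw [r2, h3]⟩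
    · rintro ⟨h1, h2, h3⟩
      obtain ⟨r1, r2⟩ := _root_.Pool.Agent.H264R4.BA.inj D k p.1 w (by rw [h2, hc]) p.2 j h1 hj h3
      exact ⟨r2, h2, r1⟩
  · intro j hj
    obtain ⟨a1, _, _⟩ := _root_.Pool.Agent.H264R4.BA.t_odo D w l hl3 hwl
    have a2 := a1 k hl1
    have a3 := _root_.Pool.Agent.H264R4.BA.t_le D (odo D w) 0 k (Nat.zero_le k)
    have a4 : t D 0 (odo D w) = 0 := by simp [t]
    rw [a4, D.h_zero, a2] at a3
    omega

end

end Pool.Agent.H264R4.BA
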