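import Pool.Agent.H264R4.BA.Defs2
import Pool.Agent.H264R4.BF.F_O5
import Pool.Agent.H264R4.BF.F_O9

/-!
# L12: an integrable function on the base with vanishing integrals
-/

namespace Pool.Agent.H264R4.BA

open MeasureTheory Set Filter Topology
open scoped ENNReal BigOperators Real

noncomputable section

variable (D : OD)

private theorem L12_meas (k : ℕ) (w : Bs D) : MeasurableSet {y : Bs D | ∀ j < k, y j = w j} := by
  have : {y : Bs D | ∀ j < k, y j = w j} = ⋂ j, ⋂ (_ : j < k), (fun y : Bs D => y j) ⁻¹' {w j} := by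
    ext; simp
  rw [this]
  exact MeasurableSet.iInter fun j => MeasurableSet.iInter fun _ =>
    measurable_pi_apply j (measurableSet_singleton (w j))

private theorem L12_real (f : Bs D → ℝ) (hf : Integrable f (pm D))
    (h : ∀ k (w : Bs D), ∫ y in {y : Bs D | ∀ j < k, y j = w j}, f y ∂(pm D) = 0) :
    f =ᵐ[pm D] 0 := by
  have key : (pm D).withDensity (fun y => ENNReal.ofReal (f y)) =
      (pm D).withDensity (fun y => ENNReal.ofReal (-f y)) := by
    have : IsFiniteMeasure ((pm D).withDensity (fun y => ENNReal.ofReal (f y))) :=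
      isFiniteMeasure_withDensity_ofReal hf.2
    have : IsFiniteMeasure ((pm D).withDensity (fun y => ENNReal.ofReal (-f y))) :=
      isFiniteMeasure_withDensity_ofReal hf.neg.2
    apply _root_.Pool.Agent.H264R4.BA.cyl_ext D _ _
    intro k w
    rw [withDensity_apply _ (L12_meas D k w), withDensity_apply _ (L12_meas D k w)]
    have h1 := h k w
    rw [integral_eq_lintegral_pos_part_sub_lintegral_neg_part hf.integrableOn] at h1
    have h2 : ∫⁻ y in {y : Bs D | ∀ j < k, y j = w j}, ENNReal.ofReal (f y) ∂(pm D) ≠ ⊤ := by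
      rw [← withDensity_apply _ (L12_meas D k w)]
      exact measure_ne_top _ _
    have h3 : ∫⁻ y in {y : Bs D | ∀ j < k, y j = w j}, ENNReal.ofReal (-f y) ∂(pm D) ≠ ⊤ := by
      rw [← withDensity_apply _ (L12_meas D k w)]
      exact measure_ne_top _ _
    exact (ENNReal.toReal_eq_toReal_iff' h2 h3).1 (sub_eq_zero.1 h1)
  apply hf.ae_eq_zero_of_forall_setIntegral_eq_zero
  intro s hs _
  rw [integral_eq_lintegral_pos_part_sub_lintegral_neg_part hf.integrableOn,
    ← withDensity_apply _ hs, ← withDensity_apply _ hs, key, sub_self]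

/-- the word of last digits -/
private def L12_last : Bs D := fun k => ⟨D.M k - 1, by have := D.two_le k; omega⟩

private theorem L12_last_iff (y : Bs D) (k : ℕ) : Last D y k ↔ y k = L12_last D k := by
  have := D.two_le k
  unfold Last L12_last
  constructor
  · intro h
    apply Fin.ext
    simp only
    omega
  · intro h
    rw [h]
    simp only
    omega

private theorem L12_nonlast (v : Bs D → ℂ) (hv : Integrable v (pm D))
    (h : ∀ k (c : D.Th k) (w : Bs D), (∃ l < k, ¬ Last D w l) →
      ∫ y in {y : Bs D | (∀ l < k, y l = w l) ∧ D.cl k (y k) = c}, v y ∂(pm D) = 0)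
    (k : ℕ) (w : Bs D) (hw : ∃ l < k, ¬ Last D w l) :
    ∫ y in {y : Bs D | ∀ j < k, y j = w j}, v y ∂(pm D) = 0 := by
  have e : {y : Bs D | ∀ j < k, y j = w j} =
      ⋃ c : D.Th k, {y : Bs D | (∀ l < k, y l = w l) ∧ D.cl k (y k) = c} := by
    ext y
    simp
  rw [e, integral_iUnion_fintype]
  · exact Finset.sum_eq_zero fun c _ => h k c w hw
  · intro c
    have : {y : Bs D | (∀ l < k, y l = w l) ∧ D.cl k (y k) = c} =
        {y : Bs D | ∀ l < k, y l = w l} ∩ (fun y : Bs D => y k) ⁻¹' {a | D.cl k a = c} := rfl
    rw [this]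
    exact (L12_meas D k w).inter (measurable_pi_apply k (Set.toFinite _).measurableSet)
  · intro c c' hcc
    rw [Function.onFun, Set.disjoint_left]
    rintro y ⟨_, h1⟩ ⟨_, h2⟩
    exact hcc (h1.symm.trans h2)
  · intro c
    exact hv.integrableOn

private theorem L12_step (v : Bs D → ℂ) (hv : Integrable v (pm D))
    (h : ∀ k (w : Bs D), (∃ l < k, ¬ Last D w l) →
      ∫ y in {y : Bs D | ∀ j < k, y j = w j}, v y ∂(pm D) = 0) (k : ℕ) :
    ∫ y in {y : Bs D | ∀ j < k, y j = L12_last D j}, v y ∂(pm D) =
      ∫ y in {y : Bs D | ∀ j < k + 1, y j = L12_last D j}, v y ∂(pm D) := by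
  classical
  have e : {y : Bs D | ∀ j < k, y j = L12_last D j} =
      ⋃ a : Fin (D.M k), {y : Bs D | ∀ j < k + 1, y j = Function.update (L12_last D) k a j} := by
    ext y
    simp only [mem_iUnion, mem_ofPred_eq]
    constructor
    · intro hy
      refine ⟨y k, fun j hj => ?_⟩
      rcases Nat.lt_succ_iff_lt_or_eq.1 hj with h1 | h1
      · rw [Function.update_of_ne (by omega)]
        exact hy j h1
      · subst h1
        rw [Function.update_self]
    · rintro ⟨a, ha⟩ j hj
      have := ha j (by omega)
      rwa [Function.update_of_ne (by omega)] at this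
  rw [e, integral_iUnion_fintype]
  · rw [Finset.sum_eq_single (L12_last D k)]
    · rw [Function.update_eq_self]
    · intro a _ ha
      apply h (k + 1)
      refine ⟨k, by omega, ?_⟩
      rw [L12_last_iff, Function.update_self]
      exact ha
    · intro h1
      exact absurd (Finset.mem_univ _) h1
  · intro a
    exact L12_meas D (k + 1) _
  · intro a a' haa
    rw [Function.onFun, Set.disjoint_left]
    intro y h1 h2
    have h3 := h1 k (by omega)
    have h4 := h2 k (by omega)
    rw [Function.update_self] at h3 h4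
    exact haa (h3.symm.trans h4)
  · intro c
    exact hv.integrableOn

/-- L12 (uses O5, O9): an integrable function on the base with vanishing integrals -/
theorem base_total (v : Bs D → ℂ) (hv : Integrable v (pm D))
    (h : ∀ k (c : D.Th k) (w : Bs D), (∃ l < k, ¬ Last D w l) →
      ∫ y in {y : Bs D | (∀ l < k, y l = w l) ∧ D.cl k (y k) = c}, v y ∂(pm D) = 0) :
    v =ᵐ[pm D] 0 := by
  have h1 := L12_nonlast D v hv h
  have h2 : ∀ k, ∫ y in {y : Bs D | ∀ j < k, y j = L12_last D j}, v y ∂(pm D) = 0 := by
    intro k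
    have h3 : ∀ n, ∫ y in {y : Bs D | ∀ j < k, y j = L12_last D j}, v y ∂(pm D) =
        ∫ y in {y : Bs D | ∀ j < k + n, y j = L12_last D j}, v y ∂(pm D) := by
      intro n
      induction n with
      | zero => rfl
      | succ n ih => rw [ih]; exact L12_step D v hv h1 (k + n)
    have h4 : Tendsto (fun n => ∫ y in {y : Bs D | ∀ j < n, y j = L12_last D j}, v y ∂(pm D)) atTop
        (𝓝 (∫ y in ⋂ n, {y : Bs D | ∀ j < n, y j = L12_last D j}, v y ∂(pm D))) := by
      apply tendsto_setIntegral_of_antitone
      · intro n; exact L12_meas D n _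
      · intro n m hnm y hy j hj
        exact hy j (by omega)
      · exact ⟨0, hv.integrableOn⟩
    have h5 : (⋂ n, {y : Bs D | ∀ j < n, y j = L12_last D j}) = {L12_last D} := by
      ext y
      simp only [mem_iInter, mem_ofPred_eq, mem_singleton_iff]
      constructor
      · intro hy
        funext j
        exact hy (j + 1) j (by omega)
      · rintro rfl n j _
        rfl
    rw [h5, setIntegral_measure_zero _ (_root_.Pool.Agent.H264R4.BA.pm_singleton D _)] at h4
    have h6 : Tendsto (fun n => ∫ y in {y : Bs D | ∀ j < k + n, y j = L12_last D j}, v y ∂(pm D)) atTop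
        (𝓝 0) := by
      have := (tendsto_add_atTop_iff_nat k).2 h4
      simpa only [add_comm] using this
    have h7 : Tendsto (fun _ : ℕ => ∫ y in {y : Bs D | ∀ j < k, y j = L12_last D j}, v y ∂(pm D)) atTop
        (𝓝 0) := h6.congr (fun n => (h3 n).symm)
    exact tendsto_nhds_unique tendsto_const_nhds h7
  have h8 : ∀ k (w : Bs D), ∫ y in {y : Bs D | ∀ j < k, y j = w j}, v y ∂(pm D) = 0 := by
    intro k w
    by_cases hw : ∃ l < k, ¬ Last D w l
    · exact h1 k w hw
    · push Not at hw
      have e : {y : Bs D | ∀ j < k, y j = w j} = {y : Bs D | ∀ j < k, y j = L12_last D j} := by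
        ext y
        simp only [mem_ofPred_eq]
        constructor
        · intro hy j hj
          rw [hy j hj]; exact (L12_last_iff D w j).1 (hw j hj)
        · intro hy j hj
          rw [hy j hj]; exact ((L12_last_iff D w j).1 (hw j hj)).symm
      rw [e]; exact h2 k
  have hre : (fun y => (v y).re) =ᵐ[pm D] 0 := by
    apply L12_real D _ hv.re
    intro k w
    have h9 := integral_re (𝕜 := ℂ) (μ := (pm D).restrict {y : Bs D | ∀ j < k, y j = w j})
      (f := v) hv.integrableOn
    rw [h8 k w] at h9
    exact h9.trans (map_zero _)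
  have him : (fun y => (v y).im) =ᵐ[pm D] 0 := by
    apply L12_real D _ hv.im
    intro k w
    have h9 := integral_im (𝕜 := ℂ) (μ := (pm D).restrict {y : Bs D | ∀ j < k, y j = w j})
      (f := v) hv.integrableOn
    rw [h8 k w] at h9
    exact h9.trans (map_zero _)
  filter_upwards [hre, him] with y hy1 hy2
  exact Complex.ext hy1 hy2

end

end Pool.Agent.H264R4.BA
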