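import Pool.Agent.H264R4.BA.Defs2
import Pool.Agent.H264R4.BF.F_C9

namespace Pool.Agent.H264R4.BA

open MeasureTheory Set Filter Topology
open scoped ENNReal BigOperators Real

noncomputable section

variable (D : OD)

private theorem L13_emb (j : ℕ) : MeasurableEmbedding (fun y : Bs D => (y, j)) :=
  MeasurableEmbedding.prodMk_right MeasurableEmbedding.id j

private theorem L13_rest (j : ℕ) (A : Set (Bs D)) :
    ((pm D).prod (Measure.count : Measure ℕ)).restrict (A ×ˢ {j})
      = Measure.map (fun y : Bs D => (y, j)) ((pm D).restrict A) := by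
  rw [← Measure.prod_restrict, Measure.restrict_singleton, Measure.count_singleton, one_smul,
    Measure.prod_dirac]

/-- L13: from the skyscraper to the base -/
theorem sky_fiber (u : Bs D × ℕ → ℂ) (hu : Integrable u (mu D)) :
    (∀ j : ℕ, Integrable (fun y => if j < roof D y then u (y, j) else 0) (pm D)) ∧
    (∀ (j : ℕ) (A : Set (Bs D)), MeasurableSet A → (∀ y ∈ A, j < roof D y) →
      ∫ p in {p : Bs D × ℕ | p.1 ∈ A ∧ p.2 = j}, u p ∂(mu D)
        = (D.β 0 : ℂ) * ∫ y in A, u (y, j) ∂(pm D)) ∧
    ((∀ j : ℕ, (fun y => if j < roof D y then u (y, j) else 0) =ᵐ[pm D] 0) → u =ᵐ[mu D] 0) := by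
  have hroof : Measurable (roof D) := _root_.Pool.Agent.H264R4.BA.measurable_roof D
  have hS : MeasurableSet {p : Bs D × ℕ | p.2 < roof D p.1} :=
    measurableSet_lt measurable_snd (hroof.comp measurable_fst)
  have hc0 : ENNReal.ofReal (D.β 0) ≠ 0 := by
    rw [ne_eq, ENNReal.ofReal_eq_zero, not_le]; exact D.β_pos
  have hc1 : ENNReal.ofReal (D.β 0) ≠ ⊤ := ENNReal.ofReal_ne_top
  refine ⟨?_, ?_, ?_⟩
  · intro j
    unfold mu Pool.Agent.H750F.Sky.mu at hu
    rw [integrable_smul_measure hc0 hc1] at hu
    have h1 : Integrable ({p : Bs D × ℕ | p.2 < roof D p.1}.indicator u)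
        ((pm D).prod (Measure.count : Measure ℕ)) := (integrable_indicator_iff hS).mpr hu
    have h2 : Integrable ({p : Bs D × ℕ | p.2 < roof D p.1}.indicator u)
        (Measure.map (fun y : Bs D => (y, j)) ((pm D).restrict Set.univ)) := by
      rw [← L13_rest]
      exact h1.restrict
    rw [Measure.restrict_univ] at h2
    have h3 := h2.comp_measurable (L13_emb D j).measurable
    refine h3.congr (Eventually.of_forall fun y => ?_)
    simp only [Function.comp_apply, Set.indicator_apply, Set.mem_ofPred_eq]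
  · intro j A hA hAj
    have hset : {p : Bs D × ℕ | p.1 ∈ A ∧ p.2 = j} = A ×ˢ {j} := by
      ext p; simp [Set.mem_prod]
    have hsub : A ×ˢ ({j} : Set ℕ) ⊆ {p : Bs D × ℕ | p.2 < roof D p.1} := by
      rintro ⟨y, i⟩ ⟨h1, h2⟩
      simp only [Set.mem_singleton_iff] at h2
      subst h2
      exact hAj y h1
    have hm : (mu D).restrict (A ×ˢ ({j} : Set ℕ)) = ENNReal.ofReal (D.β 0) •
        Measure.map (fun y : Bs D => (y, j)) ((pm D).restrict A) := by
      unfold mu Pool.Agent.H750F.Sky.mu
      rw [Measure.restrict_smul, Measure.restrict_restrict (hA.prod (measurableSet_singleton j)),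
        Set.inter_eq_left.mpr hsub, L13_rest]
    rw [hset, hm, integral_smul_measure, (L13_emb D j).integral_map,
      ENNReal.toReal_ofReal D.β_pos.le, Complex.real_smul]
  · intro h
    unfold mu Pool.Agent.H750F.Sky.mu
    have h1 : ∀ᵐ p ∂((pm D).prod (Measure.count : Measure ℕ)),
        p ∈ {p : Bs D × ℕ | p.2 < roof D p.1} → u p = 0 := by
      unfold Measure.count
      rw [Measure.prod_sum_right, Measure.ae_sum_iff]
      intro j
      rw [Measure.prod_dirac, (L13_emb D j).ae_map_iff]
      filter_upwards [h j] with y hy hlt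
      have hlt' : j < roof D y := hlt
      simp only [hlt', if_true] at hy
      exact hy
    exact Measure.ae_smul_measure ((ae_restrict_iff' hS).mpr h1) _

end

end Pool.Agent.H264R4.BA
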