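import Pool.Agent.H264R4.BA.Defs2
import Pool.Agent.H264R4.BF.F_L11
import Pool.Agent.H264R4.BF.F_L12
import Pool.Agent.H264R4.BF.F_L13

/-!
# L14: levels generate
-/

namespace Pool.Agent.H264R4.BA

open MeasureTheory Set Filter Topology
open scoped ENNReal BigOperators Real

noncomputable section

variable (D : OD)

theorem L14_digit (k : ℕ) (c : D.Th k) : ∃ i : Fin (D.M k), D.cl k i = c := by
  by_contra hcon
  push Not at hcon
  have h1 : Finset.univ.filter (fun i => D.cl k i = c) = ∅ := by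
    apply Finset.filter_false_of_mem
    intro i _
    exact hcon i
  have h2 := D.bal k c
  rw [h1] at h2
  have h3 := D.two_le k
  simp at h2
  omega

theorem L14_meas (k : ℕ) (c : D.Th k) (w : Bs D) :
    MeasurableSet {y : Bs D | (∀ l < k, y l = w l) ∧ D.cl k (y k) = c} := by
  have h1 : {y : Bs D | (∀ l < k, y l = w l) ∧ D.cl k (y k) = c}
      = (⋂ l ∈ Finset.range k, (fun y : Bs D => y l) ⁻¹' {w l})
        ∩ (fun y : Bs D => y k) ⁻¹' {i | D.cl k i = c} := by
    ext y
    simp
  rw [h1]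
  apply MeasurableSet.inter
  · apply Finset.measurableSet_biInter
    intro l _
    exact measurable_pi_apply l (measurableSet_singleton _)
  · exact measurable_pi_apply k (Set.toFinite _).measurableSet

theorem total (u : Bs D × ℕ → ℂ) (hu : Integrable u (mu D))
    (h : ∀ k (c : D.Th k) (n : ℕ), n < D.h k → ∫ p in Lv D k c n, u p ∂(mu D) = 0) :
    u =ᵐ[mu D] 0 := by
  obtain ⟨hI, hF, hE⟩ := _root_.Pool.Agent.H264R4.BA.sky_fiber D u hu
  apply hE
  intro j
  apply _root_.Pool.Agent.H264R4.BA.base_total D _ (hI j)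
  intro k c w hw
  obtain ⟨i, hi⟩ := L14_digit D k c
  set w' : Bs D := Function.update w k i with hw'
  have hww : ∀ l < k, w' l = w l := by
    intro l hl
    rw [hw', Function.update_of_ne (by omega)]
  have hk : D.cl k (w' k) = c := by
    rw [hw', Function.update_self]; exact hi
  have hlast : ∃ l < k, ¬ Last D w' l := by
    obtain ⟨l, hl, hl2⟩ := hw
    refine ⟨l, hl, ?_⟩
    unfold Last at hl2 ⊢
    rw [hww l hl]; exact hl2
  obtain ⟨hc1, hc2, hc3⟩ := _root_.Pool.Agent.H264R4.BA.cyl_level D k c w' hlast hk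
  have hset : {y : Bs D | (∀ l < k, y l = w l) ∧ D.cl k (y k) = c}
      = {y : Bs D | (∀ l < k, y l = w' l) ∧ D.cl k (y k) = c} := by
    ext y
    constructor
    · rintro ⟨h1, h2⟩
      exact ⟨fun l hl => by rw [h1 l hl, hww l hl], h2⟩
    · rintro ⟨h1, h2⟩
      exact ⟨fun l hl => by rw [h1 l hl, hww l hl], h2⟩
  rw [hset]
  have hm := L14_meas D k c w'
  by_cases hj : j < roof D w'
  · have e1 : ∫ y in {y : Bs D | (∀ l < k, y l = w' l) ∧ D.cl k (y k) = c},
        (if j < roof D y then u (y, j) else 0) ∂(pm D)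
        = ∫ y in {y : Bs D | (∀ l < k, y l = w' l) ∧ D.cl k (y k) = c}, u (y, j) ∂(pm D) := by
      apply setIntegral_congr_fun hm
      intro y hy
      have := (hc1 y hy.1 hy.2).1
      simp only
      rw [this, if_pos hj]
    rw [e1]
    have e2 := hF j _ hm (fun y hy => by rw [(hc1 y hy.1 hy.2).1]; exact hj)
    have e3 : {p : Bs D × ℕ | p.1 ∈ {y : Bs D | (∀ l < k, y l = w' l) ∧ D.cl k (y k) = c}
        ∧ p.2 = j} = Lv D k c (t D k w' + j) := by
      rw [← hc2 j hj]
      ext p
      simp only [Set.mem_setOf_eq, and_assoc]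
    rw [e3, h k c _ (hc3 j hj)] at e2
    have hb : (D.β 0 : ℂ) ≠ 0 := by
      exact_mod_cast D.β_pos.ne'
    rcases mul_eq_zero.1 e2.symm with h1 | h1
    · exact absurd h1 hb
    · exact h1
  · have e1 : ∫ y in {y : Bs D | (∀ l < k, y l = w' l) ∧ D.cl k (y k) = c},
        (if j < roof D y then u (y, j) else 0) ∂(pm D)
        = ∫ y in {y : Bs D | (∀ l < k, y l = w' l) ∧ D.cl k (y k) = c}, (0 : ℂ) ∂(pm D) := by
      apply setIntegral_congr_fun hm
      intro y hy
      have := (hc1 y hy.1 hy.2).1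
      simp only
      rw [this, if_neg hj]
    rw [e1]
    simp

end

end Pool.Agent.H264R4.BA
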