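import Pool.Agent.H264R4.BA.Defs2
import Pool.Agent.H264R4.BF.F_L1
import Pool.Agent.H264R4.BF.F_L14
import Pool.Agent.H264R4.BF.F_L8

namespace Pool.Agent.H264R4.BA

open MeasureTheory Set Filter Topology Pool.Agent.H728R2.BL
open scoped ENNReal BigOperators Real

noncomputable section

/-- K5 (uses K1, L1, L6, L14): totality in `L²` -/
theorem total_ind (D : OD) (M : Model D) (u : Lp ℂ 2 (mu D))
    (h : ∀ k (c : D.Th k) (n : ℕ), n < D.h k →
      inner ℂ (Pool.Agent.H750F.Sky.ind (mu D) (Lv D k c n)) u = 0) : u = 0 := by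
  have hprob : IsProbabilityMeasure (mu D) := ⟨_root_.Pool.Agent.H264R4.BA.mu_univ D⟩
  have hint : Integrable (u : Bs D × ℕ → ℂ) (mu D) := (Lp.memLp u).integrable one_le_two
  have h1 : (u : Bs D × ℕ → ℂ) =ᵐ[mu D] 0 := by
    refine _root_.Pool.Agent.H264R4.BA.total D u hint ?_
    intro k c n hn
    have h2 := h k c n hn
    rw [Pool.Agent.H750F.Sky.ind_eq (_root_.Pool.Agent.H264R4.BA.measurable_Lv D k c n) (measure_ne_top _ _),
      L2.inner_indicatorConstLp_one] at h2
    exact h2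
  exact (Lp.eq_zero_iff_ae_eq_zero).mpr h1

end

end Pool.Agent.H264R4.BA
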