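import Pool.Agent.H264R4.BA.Defs2

/-!
# Banach's problem on a probability space: task K6
-/

namespace Pool.Agent.H264R4.BA

open MeasureTheory Set Filter Topology Pool.Agent.H728R2.BL
open scoped ENNReal BigOperators Real

noncomputable section

/-- K6: fixed vectors of an ergodic transformation (general) -/
theorem fixed_erg {X : Type*} [MeasurableSpace X] (μ : Measure X) [IsProbabilityMeasure μ]
    (T : X ≃ᵐ X) (hT : MeasurePreserving T μ μ) (he : Ergodic T μ) (u : Lp ℂ 2 μ)
    (hu : Pool.Agent.H750F.Sky.koop T hT u = u)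
    (h0 : inner ℂ (Pool.Agent.H750F.Sky.ind μ (Set.univ : Set X)) u = 0) : u = 0 := by
  have h1 : (u : X → ℂ) ∘ T.symm =ᵐ[μ] u := by
    have h2 := Lp.coeFn_compMeasurePreserving u (hT.symm T)
    rw [Pool.Agent.H750F.Sky.koop_apply] at hu
    rw [hu] at h2
    exact h2.symm
  have h3 : (u : X → ℂ) ∘ T =ᵐ[μ] u := by
    have h4 := hT.quasiMeasurePreserving.ae_eq_comp h1
    have h5 : ((u : X → ℂ) ∘ T.symm) ∘ T = (u : X → ℂ) := by
      ext x
      simp
    rw [h5] at h4
    exact h4.symm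
  obtain ⟨c, hc⟩ := he.ae_eq_const_of_ae_eq_comp_ae (Lp.aestronglyMeasurable u) h3
  have h6 : inner ℂ (Pool.Agent.H750F.Sky.ind μ (Set.univ : Set X)) u = c := by
    rw [Pool.Agent.H750F.Sky.ind_eq MeasurableSet.univ (measure_ne_top μ _),
      L2.inner_indicatorConstLp_one]
    rw [Measure.restrict_univ, integral_congr_ae hc]
    simp
  have hc0 : c = 0 := h6.symm.trans h0
  apply Lp.eq_zero_iff_ae_eq_zero.2
  rw [hc0] at hc
  exact hc

end

end Pool.Agent.H264R4.BA
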