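import Pool.Agent.H264R4.BA.Defs2

/-!
O7: the odometer permutes the cylinders of length `k` cyclically
-/

namespace Pool.Agent.H264R4.BA

open MeasureTheory Set Filter Topology
open scoped ENNReal BigOperators Real

variable (D : OD)

/-- number of words of length `k` -/
def O7_N (k : ℕ) : ℕ := ∏ i ∈ Finset.range k, D.M i

/-- value of the word of length `k` of `y` in the mixed radix system -/
def O7_val (y : Bs D) (k : ℕ) : ℕ := ∑ j ∈ Finset.range k, O7_N D j * (y j : ℕ)

theorem O7_N_succ (k : ℕ) : O7_N D (k + 1) = O7_N D k * D.M k := Finset.prod_range_succ _ _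

theorem O7_N_pos (k : ℕ) : 0 < O7_N D k :=
  Finset.prod_pos fun i _ => lt_of_lt_of_le Nat.zero_lt_two (D.two_le i)

theorem O7_val_succ (y : Bs D) (k : ℕ) :
    O7_val D y (k + 1) = O7_val D y k + O7_N D k * (y k : ℕ) := Finset.sum_range_succ _ _

theorem O7_val_lt (y : Bs D) (k : ℕ) : O7_val D y k < O7_N D k := by
  induction k with
  | zero => simp [O7_val, O7_N]
  | succ k ih =>
    rw [O7_val_succ, O7_N_succ]
    have h1 : (y k : ℕ) + 1 ≤ D.M k := (y k).isLt
    calc O7_val D y k + O7_N D k * (y k : ℕ) < O7_N D k + O7_N D k * (y k : ℕ) := by omega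
      _ = O7_N D k * ((y k : ℕ) + 1) := by ring
      _ ≤ O7_N D k * D.M k := Nat.mul_le_mul_left _ h1

theorem O7_val_inj (y z : Bs D) (k : ℕ) :
    (∀ j < k, y j = z j) ↔ O7_val D y k = O7_val D z k := by
  induction k with
  | zero => simp [O7_val]
  | succ k ih =>
    have hN := O7_N_pos D k
    constructor
    · intro h
      rw [O7_val_succ, O7_val_succ, ih.1 (fun j hj => h j (by omega)), h k (by omega)]
    · intro h
      rw [O7_val_succ, O7_val_succ] at h
      have h1 : O7_val D y k = O7_val D z k := by
        have h2 := congrArg (· % O7_N D k) h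
        simp only [Nat.add_mul_mod_self_left] at h2
        rwa [Nat.mod_eq_of_lt (O7_val_lt D y k), Nat.mod_eq_of_lt (O7_val_lt D z k)] at h2
      have h3 : (y k : ℕ) = (z k : ℕ) := by
        rw [h1] at h
        exact Nat.eq_of_mul_eq_mul_left hN (Nat.add_left_cancel h)
      intro j hj
      rcases Nat.lt_succ_iff_lt_or_eq.1 hj with h4 | h4
      · exact ih.2 h1 j h4
      · rw [h4]; exact Fin.ext h3

theorem O7_step (y : Bs D) (k : ℕ) :
    ((∀ j < k, Last D y j) → O7_val D y k + 1 = O7_N D k ∧ O7_val D (odo D y) k = 0) ∧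
    ((¬ ∀ j < k, Last D y j) → O7_val D (odo D y) k = O7_val D y k + 1) := by
  induction k with
  | zero =>
    refine ⟨fun _ => by simp [O7_val, O7_N], fun h => absurd (fun j hj => absurd hj (by omega)) h⟩
  | succ k ih =>
    constructor
    · intro h
      have hk : ∀ j < k, Last D y j := fun j hj => h j (by omega)
      obtain ⟨h1, h2⟩ := ih.1 hk
      have h3 : (y k : ℕ) + 1 = D.M k := h k (by omega)
      have h4 : (odo D y k : ℕ) = 0 := by
        unfold odo
        rw [if_pos hk, dif_neg (by omega)]
      constructor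
      · rw [O7_val_succ, O7_N_succ]
        calc O7_val D y k + O7_N D k * (y k : ℕ) + 1
            = (O7_val D y k + 1) + O7_N D k * (y k : ℕ) := by ring
          _ = O7_N D k * ((y k : ℕ) + 1) := by rw [h1]; ring
          _ = O7_N D k * D.M k := congrArg (O7_N D k * ·) h3
      · rw [O7_val_succ, h2, h4]
        simp
    · intro h
      by_cases hk : ∀ j < k, Last D y j
      · have h0 : ¬ Last D y k := by
          intro h1
          apply h
          intro j hj
          rcases Nat.lt_succ_iff_lt_or_eq.1 hj with h2 | h2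
          · exact hk j h2
          · rw [h2]; exact h1
        obtain ⟨h1, h2⟩ := ih.1 hk
        have h3 : (y k : ℕ) + 1 < D.M k := by
          have h4 : (y k : ℕ) + 1 ≤ D.M k := (y k).isLt
          exact lt_of_le_of_ne h4 h0
        have h4 : (odo D y k : ℕ) = (y k : ℕ) + 1 := by
          unfold odo
          rw [if_pos hk, dif_pos h3]
        rw [O7_val_succ, O7_val_succ, h2, h4, mul_add, mul_one]
        omega
      · have h1 := ih.2 hk
        have h4 : odo D y k = y k := by
          unfold odo
          rw [if_neg hk]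
        rw [O7_val_succ, O7_val_succ, h1, h4]
        omega

theorem O7_odo (y : Bs D) (k : ℕ) : O7_val D (odo D y) k = (O7_val D y k + 1) % O7_N D k := by
  by_cases h : ∀ j < k, Last D y j
  · obtain ⟨h1, h2⟩ := (O7_step D y k).1 h
    rw [h1, h2, Nat.mod_self]
  · have h1 := (O7_step D y k).2 h
    rw [← h1, Nat.mod_eq_of_lt (O7_val_lt D _ k)]

theorem O7_iter (y : Bs D) (k n : ℕ) :
    O7_val D ((odo D)^[n] y) k = (O7_val D y k + n) % O7_N D k := by
  induction n with
  | zero =>
    rw [Function.iterate_zero_apply, Nat.add_zero, Nat.mod_eq_of_lt (O7_val_lt D y k)]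
  | succ n ih =>
    rw [Function.iterate_succ_apply', O7_odo, ih, Nat.mod_add_mod, Nat.add_assoc]

/-- O7: cylinders of length `k` are permuted cyclically: from any word to any other -/
theorem odo_trans (k : ℕ) (w w' : Bs D) :
    ∃ n : ℕ, ∀ y : Bs D, (∀ j < k, y j = w j) ↔ (∀ j < k, ((odo D)^[n] y) j = w' j) := by
  refine ⟨O7_val D w' k + O7_N D k - O7_val D w k, fun y => ?_⟩
  rw [O7_val_inj, O7_val_inj, O7_iter]
  have hv := O7_val_lt D y k
  have ha := O7_val_lt D w k
  have hb := O7_val_lt D w' k
  generalize O7_val D y k = v at *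
  generalize O7_val D w k = a at *
  generalize O7_val D w' k = b at *
  generalize O7_N D k = N at *
  have hX : v + (b + N - a) < 3 * N := by omega
  constructor
  · intro h
    subst h
    have e : v + (b + N - v) = b + N := by omega
    rw [e, Nat.add_mod_right, Nat.mod_eq_of_lt hb]
  · intro h
    rcases Nat.lt_or_ge (v + (b + N - a)) N with h1 | h1
    · rw [Nat.mod_eq_of_lt h1] at h
      omega
    · rcases Nat.lt_or_ge (v + (b + N - a)) (2 * N) with h2 | h2
      · rw [Nat.mod_eq_sub_mod h1, Nat.mod_eq_of_lt (by omega)] at h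
        omega
      · rw [Nat.mod_eq_sub_mod h1, Nat.mod_eq_sub_mod (by omega), Nat.mod_eq_of_lt (by omega)] at h
        omega

end Pool.Agent.H264R4.BA
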