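import Pool.Agent.H264R4.BA.Defs2
import Pool.Agent.H264R4.BF.F_O3
import Pool.Agent.H264R4.BF.F_O5
import Pool.Agent.H264R4.BF.F_O6
import Pool.Agent.H264R4.BF.F_O7

/-!
# Task O8: the odometer is ergodic
-/

namespace Pool.Agent.H264R4.BA

open MeasureTheory Set Filter Topology
open scoped ENNReal BigOperators Real

noncomputable section

variable (D : OD)

/-- the cylinder -/
private def O8_cyl (k : ℕ) (w : Bs D) : Set (Bs D) := {y | ∀ j < k, y j = w j}

/-- the restriction to the first `k` digits -/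
private def O8_r (k : ℕ) (y : Bs D) : ∀ j : Fin k, Fin (D.M j) := fun j => y j

private theorem O8_r_meas (k : ℕ) : Measurable (O8_r D k) := by
  apply measurable_pi_lambda
  intro j
  exact measurable_pi_apply (j : ℕ)

private def O8_e (k : ℕ) (w : ∀ j : Fin k, Fin (D.M j)) : Bs D := fun j =>
  if h : j < k then w ⟨j, h⟩ else ⟨0, lt_of_lt_of_le Nat.zero_lt_two (D.two_le j)⟩

private theorem O8_cyl_eq (k : ℕ) (w : ∀ j : Fin k, Fin (D.M j)) :
    O8_r D k ⁻¹' {w} = O8_cyl D k (O8_e D k w) := by
  ext y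
  simp only [Set.mem_preimage, Set.mem_singleton_iff, O8_cyl, Set.mem_ofPred_eq]
  constructor
  · rintro rfl j hj
    simp [O8_e, hj, O8_r]
  · intro h
    funext j
    have := h j j.2
    simp only [O8_e, j.2, dif_pos] at this
    exact this

private theorem O8_sum (k : ℕ) (A : Set (Bs D)) :
    pm D A = ∑ w : (∀ j : Fin k, Fin (D.M j)), pm D (O8_cyl D k (O8_e D k w) ∩ A) := by
  have h := sum_measure_preimage_singleton (μ := (pm D).restrict A)
    (Finset.univ : Finset (∀ j : Fin k, Fin (D.M j))) (f := O8_r D k)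
    (fun w _ => O8_r_meas D k (measurableSet_singleton w))
  rw [Finset.coe_univ, Set.preimage_univ, Measure.restrict_apply_univ] at h
  rw [← h]
  apply Finset.sum_congr rfl
  intro w _
  rw [Measure.restrict_apply (O8_r_meas D k (measurableSet_singleton w)), O8_cyl_eq]

/-- O8 (uses O3, O5, O6, O7): the odometer is ergodic -/
theorem odo_erg (S : Bs D ≃ᵐ Bs D) (hS : ∀ y, S y = odo D y) : Ergodic S (pm D) := by
  have hmp := _root_.Pool.Agent.H264R4.BA.odo_mp D S hS
  refine ⟨hmp, ⟨?_⟩⟩
  intro A hA hinv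
  have hSo : (S : Bs D → Bs D) = odo D := funext hS
  -- the measure of the intersection with a cylinder does not depend on the word
  have h1 : ∀ (k : ℕ) (w w' : Bs D), pm D (O8_cyl D k w ∩ A) = pm D (O8_cyl D k w' ∩ A) := by
    intro k w w'
    obtain ⟨n, hn⟩ := _root_.Pool.Agent.H264R4.BA.odo_trans D k w w'
    have hc : O8_cyl D k w = (S : Bs D → Bs D)^[n] ⁻¹' (O8_cyl D k w') := by
      ext y
      rw [hSo]
      exact hn y
    have hAn : (S : Bs D → Bs D)^[n] ⁻¹' A = A := by
      rw [Set.preimage_iterate_eq]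
      exact Function.IsFixedPt.iterate (f := Set.preimage (S : Bs D → Bs D)) hinv n
    have hmeas : MeasurableSet (O8_cyl D k w' ∩ A) := by
      apply MeasurableSet.inter _ hA
      have : O8_cyl D k w' = O8_r D k ⁻¹' {O8_r D k w'} := by
        ext y
        simp only [Set.mem_preimage, Set.mem_singleton_iff, O8_cyl, Set.mem_ofPred_eq]
        constructor
        · intro h; funext j; exact h j j.2
        · intro h j hj; exact congrFun h ⟨j, hj⟩
      rw [this]
      exact O8_r_meas D k (measurableSet_singleton _)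
    have h2 := (hmp.iterate n).measure_preimage hmeas.nullMeasurableSet
    rw [Set.preimage_inter, hAn, ← hc] at h2
    exact h2
  have hcard : ∀ k : ℕ, ((Fintype.card (∀ j : Fin k, Fin (D.M j)) : ℕ) : ℝ≥0∞) =
      ∏ j ∈ Finset.range k, (D.M j : ℝ≥0∞) := by
    intro k
    rw [Fintype.card_pi, Nat.cast_prod, Finset.prod_range]
    simp
  have hpos : ∀ j, (D.M j : ℝ≥0∞) ≠ 0 := by
    intro j
    have := D.two_le j
    simp
    omega
  have h2 : ∀ (k : ℕ) (w : Bs D), pm D (O8_cyl D k w ∩ A) = pm D A * pm D (O8_cyl D k w) := by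
    intro k w
    have h3 := O8_sum D k A
    rw [Finset.sum_congr rfl (fun w' _ => h1 k (O8_e D k w') w), Finset.sum_const,
      Finset.card_univ, nsmul_eq_mul, hcard] at h3
    have h4 : pm D (O8_cyl D k w) = ∏ j ∈ Finset.range k, (D.M j : ℝ≥0∞)⁻¹ :=
      _root_.Pool.Agent.H264R4.BA.pm_cyl D k w
    rw [h3, h4]
    have h5 : (∏ j ∈ Finset.range k, (D.M j : ℝ≥0∞)) *
        (∏ j ∈ Finset.range k, (D.M j : ℝ≥0∞)⁻¹) = 1 := by
      rw [← Finset.prod_mul_distrib]
      apply Finset.prod_eq_one
      intro j _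
      exact ENNReal.mul_inv_cancel (hpos j) (ENNReal.natCast_ne_top _)
    calc pm D (O8_cyl D k w ∩ A) = pm D (O8_cyl D k w ∩ A) * 1 := (mul_one _).symm
      _ = pm D (O8_cyl D k w ∩ A) * ((∏ j ∈ Finset.range k, (D.M j : ℝ≥0∞)) *
        (∏ j ∈ Finset.range k, (D.M j : ℝ≥0∞)⁻¹)) := by rw [h5]
      _ = (∏ j ∈ Finset.range k, (D.M j : ℝ≥0∞)) * pm D (O8_cyl D k w ∩ A) *
        (∏ j ∈ Finset.range k, (D.M j : ℝ≥0∞)⁻¹) := by ring
  have h3 : (pm D).restrict A = (pm D A) • (pm D) := by
    apply _root_.Pool.Agent.H264R4.BA.cyl_ext D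
    intro k w
    have hmeas : MeasurableSet (O8_cyl D k w) := by
      have : O8_cyl D k w = O8_r D k ⁻¹' {O8_r D k w} := by
        ext y
        simp only [Set.mem_preimage, Set.mem_singleton_iff, O8_cyl, Set.mem_ofPred_eq]
        constructor
        · intro h; funext j; exact h j j.2
        · intro h j hj; exact congrFun h ⟨j, hj⟩
      rw [this]
      exact O8_r_meas D k (measurableSet_singleton _)
    have h4 : (pm D).restrict A (O8_cyl D k w) = pm D (O8_cyl D k w ∩ A) :=
      Measure.restrict_apply hmeas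
    have h5 : ((pm D A) • (pm D)) (O8_cyl D k w) = pm D A * pm D (O8_cyl D k w) := by
      rw [Measure.smul_apply, smul_eq_mul]
    exact h4.trans ((h2 k w).trans h5.symm)
  have h4 : pm D A = pm D A * pm D A := by
    have h5 := congrArg (fun ν : Measure (Bs D) => ν A) h3
    simp only [Measure.smul_apply, smul_eq_mul] at h5
    rwa [Measure.restrict_apply_self] at h5
  rw [eventuallyConst_set']
  by_cases h0 : pm D A = 0
  · left
    exact ae_eq_empty.2 h0
  · right
    have h6 : pm D A = 1 := by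
      have h7 : pm D A ≠ ⊤ := measure_ne_top _ _
      have h8 : pm D A * 1 = pm D A * pm D A := by rw [mul_one]; exact h4
      exact ((ENNReal.mul_right_inj h0 h7).1 h8).symm
    rw [ae_eq_univ]
    rw [prob_compl_eq_zero_iff hA]
    exact h6

end

end Pool.Agent.H264R4.BA
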