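import Pool.Agent.H264R4.BA.Defs2
import Pool.Agent.H264R4.BF.F_C3
import Pool.Agent.H264R4.BF.F_C9
import Pool.Agent.H264R4.BF.F_O8

/-!
# Task L10: ergodicity of the skyscraper over the odometer
-/

namespace Pool.Agent.H264R4.BA

open MeasureTheory Set Filter Topology
open scoped ENNReal BigOperators Real

noncomputable section

variable (D : OD)

private theorem L10_mem (M : Model D) (A : Set (Bs D × ℕ)) (hinv : M.T ⁻¹' A = A) (y : Bs D) :
    ∀ j : ℕ, j < roof D y → ((y, j) ∈ A ↔ (y, 0) ∈ A) := by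
  intro j
  induction j with
  | zero => intro _; exact Iff.rfl
  | succ j ih =>
    intro hj
    have hj' : j < roof D y := by omega
    rw [← ih hj']
    have h1 : M.T (y, j) = (y, j + 1) := by
      rw [M.hT]
      simp [hj', hj]
    have h2 : (y, j) ∈ A ↔ (y, j) ∈ M.T ⁻¹' A := by rw [hinv]
    rw [h2, mem_preimage, h1]

private theorem L10_base (M : Model D) (A : Set (Bs D × ℕ)) (hinv : M.T ⁻¹' A = A) (y : Bs D) :
    (odo D y, 0) ∈ A ↔ (y, 0) ∈ A := by
  have hr := _root_.Pool.Agent.H264R4.BA.roof_pos D y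
  have hj : roof D y - 1 < roof D y := by omega
  rw [← L10_mem D M A hinv y (roof D y - 1) hj]
  have h1 : M.T (y, roof D y - 1) = (odo D y, 0) := by
    rw [M.hT]
    have h2 : ¬ (roof D y - 1 + 1 < roof D y) := by omega
    simp [hj, h2]
  have h2 : (y, roof D y - 1) ∈ A ↔ (y, roof D y - 1) ∈ M.T ⁻¹' A := by rw [hinv]
  rw [h2, mem_preimage, h1]

private theorem L10_zero (A : Set (Bs D × ℕ)) (hA : MeasurableSet A) (A0 : Set (Bs D))
    (h0 : pm D A0 = 0) (h : ∀ y j, j < roof D y → (y, j) ∈ A → y ∈ A0) : mu D A = 0 := by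
  unfold mu
  rw [Measure.smul_apply, Pool.Agent.H750F.Sky.mu_apply (pm D) (roof D) (_root_.Pool.Agent.H264R4.BA.measurable_roof D) hA]
  have h1 : ∀ j : ℕ, pm D {b | j < roof D b ∧ (b, j) ∈ A} = 0 := by
    intro j
    apply measure_mono_null _ h0
    intro b hb
    exact h b j hb.1 hb.2
  simp [h1]

/-- L10 (uses O8): ergodicity -/
theorem erg (M : Model D) : Ergodic M.T (mu D) := by
  refine ⟨M.mp, ⟨?_⟩⟩
  intro A hA hinv
  have hsec : MeasurableSet {y : Bs D | (y, 0) ∈ A} := measurable_prodMk_right hA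
  have hSinv : M.S ⁻¹' {y : Bs D | (y, 0) ∈ A} = {y : Bs D | (y, 0) ∈ A} := by
    ext y
    rw [mem_preimage, mem_ofPred_eq, mem_ofPred_eq, M.hS]
    exact L10_base D M A hinv y
  have herg := (_root_.Pool.Agent.H264R4.BA.odo_erg D M.S M.hS).aeconst_set hsec hSinv
  rw [eventuallyConst_set'] at herg ⊢
  rcases herg with h | h
  · left
    rw [ae_eq_empty] at h ⊢
    refine L10_zero D A hA _ h ?_
    intro y j hj hy
    exact (L10_mem D M A hinv y j hj).mp hy
  · right
    rw [ae_eq_univ] at h ⊢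
    refine L10_zero D Aᶜ hA.compl _ h ?_
    intro y j hj hy h'
    exact hy ((L10_mem D M A hinv y j hj).mpr h')

end

end Pool.Agent.H264R4.BA
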