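import Pool.Agent.H264R4.BA.Defs2
import Pool.Agent.H264R4.BF.F_K1
import Pool.Agent.H264R4.BF.F_K2
import Pool.Agent.H264R4.BF.F_K4
import Pool.Agent.H264R4.BF.F_K5
import Pool.Agent.H264R4.BF.F_K6
import Pool.Agent.H264R4.BF.F_L10
import Pool.Agent.H264R4.BF.F_L8

/-! Banach part A, task K7 (helper539): the Hilbert space data of the model. -/

namespace Pool.Agent.H264R4.BA

open MeasureTheory Set Filter Topology Pool.Agent.H728R2.BL
open scoped ENNReal BigOperators Real

noncomputable section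

/-- K7 (uses K1-K6, L2, L8, L10): the Hilbert space data of the model -/
theorem model_HD (L : ℕ → Lev) (σ : ∀ k, DStep (L k) (L (k + 1))) (G : Good L σ)
    (M : Model (toOD L σ G)) :
    HD L σ (Pool.Agent.H750F.Sky.koop M.T M.mp)
      (fun k c => Pool.Agent.H750F.Sky.ind (mu (toOD L σ G)) (Lv (toOD L σ G) k c 0))
      (Pool.Agent.H750F.Sky.ind (mu (toOD L σ G)) (Set.univ)) := by
  haveI : IsProbabilityMeasure (mu (toOD L σ G)) := ⟨_root_.Pool.Agent.H264R4.BA.mu_univ _⟩
  refine ⟨?_, ?_, ?_, ?_, ?_, ?_⟩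
  · intro k c
    exact _root_.Pool.Agent.H264R4.BA.ind_split (toOD L σ G) M k c
  · intro k A B hA hB m
    exact _root_.Pool.Agent.H264R4.BA.corr_ind (toOD L σ G) M k A B hA hB m
  · intro u hu
    refine _root_.Pool.Agent.H264R4.BA.total_ind (toOD L σ G) M u ?_
    intro k c n hn
    rw [← _root_.Pool.Agent.H264R4.BA.koop_Lv (toOD L σ G) M k c n hn]
    exact hu k c n
  · intro u hu h0
    exact _root_.Pool.Agent.H264R4.BA.fixed_erg _ M.T M.mp (_root_.Pool.Agent.H264R4.BA.erg _ M) u hu h0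
  · rw [Pool.Agent.H750F.Sky.ind_eq MeasurableSet.univ (measure_ne_top _ _),
      norm_indicatorConstLp (by norm_num) (by norm_num)]
    simp
  · rw [Pool.Agent.H750F.Sky.koop_ind, preimage_univ]

end

end Pool.Agent.H264R4.BA
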